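import Pool.Agent.Lib.MP_e1f7e2_al.FA.Iface

set_option autoImplicit false

/-!
Project FA (MP_e1f7e2_al): module BETA, formal properties of `bet`.
-/

open MulOpposite

namespace Pool.Agent.Lib.MP_e1f7e2_al.FA.H12

/-! ### degrees -/

lemma le_dgr {K : Type*} [Field K] {G : Type*} (ω : G → ℝ) (f : MonoidAlgebra K G) (u : G)
    (hu : u ∈ f.coeff.support) : ω u ≤ dgr ω f := by
  have hne : f.coeff.support.Nonempty := ⟨u, hu⟩
  rw [dgr, dif_pos hne]
  exact Finset.le_sup' ω hu

lemma exists_dgr {K : Type*} [Field K] {G : Type*} (ω : G → ℝ) (f : MonoidAlgebra K G)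
    (hf : f ≠ 0) : ∃ u ∈ f.coeff.support, dgr ω f = ω u := by
  have hne : f.coeff.support.Nonempty := by
    rw [Finsupp.support_nonempty_iff]
    intro h
    exact hf (MonoidAlgebra.coeff_eq_zero.mp h)
  rw [dgr, dif_pos hne]
  exact Finset.exists_mem_eq_sup' hne ω

lemma wt_mul {n : ℕ} (w : Fin n → ℝ) (u v : Wd n) : wt w (u * v) = wt w u + wt w v := by
  simp [wt, FreeMonoid.toList_mul]

lemma wt_of {n : ℕ} (w : Fin n → ℝ) (i : Fin n) : wt w (FreeMonoid.of i) = w i := by
  simp [wt, FreeMonoid.toList_of]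

lemma wt_one {n : ℕ} (w : Fin n → ℝ) : wt w (1 : Wd n) = 0 := by
  simp [wt, FreeMonoid.toList_one]

section

variable {K : Type*} [Field K] {N : ℕ} [NeZero N] {w : Fin 3 → ℝ}

lemma inl_eq_tn (hb : DegbFacts K w) (f : A K 3) : inl f = tn f 1 := by
  rw [tn, hb.inrone, mul_one]

lemma inr_eq_tn (f : A K 3) : inr f = tn 1 f := by
  rw [tn, map_one, one_mul]

lemma coeff_dl (hb : DegbFacts K w) (g : A K 3) (u v : Wd 3) :
    (dl g).coeff (u, op v) = g.coeff u * (1 : A K 3).coeff v - (1 : A K 3).coeff u * g.coeff v := by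
  rw [dl, MonoidAlgebra.coeff_sub, inl_eq_tn hb, inr_eq_tn, Finsupp.sub_apply, hb.cf, hb.cf]

omit [NeZero N] in
lemma len2_dl (hb : DegbFacts K w) {g : A K 3} (hg : Len N g) : Len2 N (dl g) := by
  classical
  rintro ⟨u, v'⟩ hp
  obtain ⟨v, rfl⟩ : ∃ v, v' = op v := ⟨v'.unop, rfl⟩
  rw [Finsupp.mem_support_iff, coeff_dl hb] at hp
  have h1 : ∀ x : Wd 3, (1 : A K 3).coeff x ≠ 0 → x = 1 := by
    intro x hx
    rw [MonoidAlgebra.one_def, MonoidAlgebra.coeff_single, Finsupp.single_apply] at hx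
    by_contra h
    rw [if_neg (fun h' => h h'.symm)] at hx
    exact hx rfl
  have h2 : (g.coeff u ≠ 0 ∧ v = 1) ∨ (g.coeff v ≠ 0 ∧ u = 1) := by
    by_cases ha : g.coeff u * (1 : A K 3).coeff v = 0
    · right
      rw [ha, zero_sub, neg_ne_zero] at hp
      exact ⟨right_ne_zero_of_mul hp, h1 _ (left_ne_zero_of_mul hp)⟩
    · left
      exact ⟨left_ne_zero_of_mul ha, h1 _ (right_ne_zero_of_mul ha)⟩
  rcases h2 with ⟨ha, rfl⟩ | ⟨ha, rfl⟩
  · refine ⟨hg u (Finsupp.mem_support_iff.mpr ha), ?_⟩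
    simp
  · refine ⟨by simp, hg v (Finsupp.mem_support_iff.mpr ha)⟩

omit [NeZero N] in
lemma len2_dX (hc : ChainFacts K 3) {f : A K 3} (hf : Len N f) (i : Fin 3) :
    Len2 N (dX i f) := by
  rintro ⟨u, v'⟩ hp
  obtain ⟨v, rfl⟩ : ∃ v, v' = op v := ⟨v'.unop, rfl⟩
  rw [Finsupp.mem_support_iff, hc.cf] at hp
  have h := hf _ (Finsupp.mem_support_iff.mpr hp)
  simp only [FreeMonoid.toList_mul, FreeMonoid.toList_of, List.length_append,
    List.length_singleton] at h
  simp only [unop_op]
  omega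

lemma wt_dX_le (hc : ChainFacts K 3) (f : A K 3) (i : Fin 3) (p : Wd 3 × (Wd 3)ᵐᵒᵖ)
    (hp : p ∈ (dX i f).coeff.support) : wt2 w p + w i ≤ dg w f := by
  obtain ⟨u, v'⟩ := p
  obtain ⟨v, rfl⟩ : ∃ v, v' = op v := ⟨v'.unop, rfl⟩
  rw [Finsupp.mem_support_iff, hc.cf] at hp
  have h := le_dgr (wt w) f _ (Finsupp.mem_support_iff.mpr hp)
  rw [wt_mul, wt_mul, wt_of] at h
  simp only [wt2, unop_op]
  rw [dg]
  linarith

lemma dg_dX_le (hc : ChainFacts K 3) (f : A K 3) (i : Fin 3) (h : dX i f ≠ 0) :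
    dg2 w (dX i f) + w i ≤ dg w f := by
  obtain ⟨p, hp, he⟩ := exists_dgr (wt2 w) (dX i f) h
  rw [dg2, he]
  exact wt_dX_le hc f i p hp

lemma dl_ne (hb : DegbFacts K w) {g : A K 3} (hg : 0 < dg w g) :
    dl g ≠ 0 := by
  intro h
  have h1 := hb.dl' g
  rw [h, hb.zero] at h1
  linarith

/-- multiplication by `S_g` on nonzero matrices -/
lemma S_norm (hn : NormStatement K w) (hb : DegbFacts K w) {g : A K 3}
    (hg : 0 < dg w g) (hl : Len N g) {M : MM K N} (hM : M ≠ 0) :
    SS N g * M ≠ 0 ∧ dM w (SS N g * M) = dg w g + dM w M := by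
  have h := hn N (dl g) M (dl_ne hb hg) hM (len2_dl hb hl)
  rw [hb.dl'] at h
  exact h

lemma rho_norm (hr : RhoFacts K w N) (hn : NormStatement K w) {T : A2 K 3} (hT : T ≠ 0)
    (hl : Len2 N T) : rho N T ≠ 0 ∧ dM w (rho N T) = dg2 w T := by
  have h := hn N T 1 hT one_ne_zero hl
  rw [mul_one, hr.rmone, add_zero] at h
  exact h

lemma det_ne (hn : NormStatement K w) (hb : DegbFacts K w) (g : A K 3)
    (hg : 0 < dg w g) (hl : Len N g) : (SS N g).det ≠ 0 := by
  intro h0
  obtain ⟨v, hv, hv0⟩ := Matrix.exists_mulVec_eq_zero_iff.mpr h0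
  have hM : (Matrix.of fun i (_ : Ix N) => v i : MM K N) ≠ 0 := by
    intro h
    apply hv
    funext i
    have := congrFun (congrFun h i) (0, 0)
    simpa using this
  apply (S_norm hn hb hg hl hM).1
  refine Matrix.ext fun i j => ?_
  have := congrFun hv0 i
  simpa [Matrix.mul_apply, Matrix.mulVec, dotProduct] using this

lemma S_mul_adj (f : A K 3) : SS N f * (SS N f).adjugate = (SS N f).det • (1 : MM K N) :=
  Matrix.mul_adjugate _

lemma adj_mul_S (f : A K 3) : (SS N f).adjugate * SS N f = (SS N f).det • (1 : MM K N) :=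
  Matrix.adjugate_mul _

lemma S_adj_S (f : A K 3) (M : MM K N) :
    SS N f * ((SS N f).adjugate * M) = (SS N f).det • M := by
  rw [← Matrix.mul_assoc, S_mul_adj, Matrix.smul_mul, Matrix.one_mul]

lemma adj_S_M (f : A K 3) (M : MM K N) :
    (SS N f).adjugate * (SS N f * M) = (SS N f).det • M := by
  rw [← Matrix.mul_assoc, adj_mul_S, Matrix.smul_mul, Matrix.one_mul]

omit [NeZero N] in
lemma smul_ne {r : RR K N} {M : MM K N} (hr : r ≠ 0) (hM : M ≠ 0) : r • M ≠ 0 := by
  intro h
  apply hM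
  refine Matrix.ext fun i j => ?_
  have := congrFun (congrFun h i) j
  simp only [Matrix.smul_apply, Matrix.zero_apply, smul_eq_mul] at this
  rcases mul_eq_zero.mp this with h | h
  · exact absurd h hr
  · simpa using h

/-- degree of `adj(S_v) M` -/
lemma adj_norm (hr : RhoFacts K w N) (hn : NormStatement K w)
    (hb : DegbFacts K w) {v : A K 3} (hv : 0 < dg w v) (hl : Len N v) {M : MM K N} (hM : M ≠ 0) :
    (SS N v).adjugate * M ≠ 0 ∧
      dM w ((SS N v).adjugate * M) = dR w (SS N v).det - dg w v + dM w M := by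
  have hdet := det_ne hn hb v hv hl
  have h1 : (SS N v).adjugate * M ≠ 0 := by
    intro h
    have h2 := S_adj_S (N := N) v M
    rw [h, mul_zero] at h2
    exact smul_ne hdet hM h2.symm
  refine ⟨h1, ?_⟩
  have h2 := (S_norm hn hb hv hl h1).2
  rw [S_adj_S, hr.msmul _ _ hdet hM] at h2
  linarith

/-- degree of `S_u adj(S_v) M` -/
lemma S_adj_norm (hr : RhoFacts K w N) (hn : NormStatement K w)
    (hb : DegbFacts K w) {u v : A K 3} (hu : 0 < dg w u) (hlu : Len N u) (hv : 0 < dg w v)
    (hl : Len N v) {M : MM K N} (hM : M ≠ 0) :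
    SS N u * (SS N v).adjugate * M ≠ 0 ∧
      dM w (SS N u * (SS N v).adjugate * M) =
        dg w u + dR w (SS N v).det - dg w v + dM w M := by
  obtain ⟨h1, h2⟩ := adj_norm hr hn hb hv hl hM
  obtain ⟨h3, h4⟩ := S_norm hn hb hu hlu h1
  rw [Matrix.mul_assoc]
  exact ⟨h3, by rw [h4, h2]; ring⟩

/-! ### identities -/

lemma bet_ch (hr : RhoFacts K w N) (hc : ChainFacts K 3) (f g : A K 3) (P : A K 2) (i : Fin 3) :
    bet N (ev P f g) g i = rho N (evl2 ![f, g] (dX 0 P)) * bet N f g i := by
  have hS : SS N (ev P f g) = rho N (evl2 ![f, g] (dX 0 P)) * SS N f +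
      rho N (evl2 ![f, g] (dX 1 P)) * SS N g := by
    rw [SS, hc.chaind, hr.add, hr.mul, hr.mul]
    rfl
  have hD : rho N (dX i (ev P f g)) = rho N (evl2 ![f, g] (dX 0 P)) * rho N (dX i f) +
      rho N (evl2 ![f, g] (dX 1 P)) * rho N (dX i g) := by
    rw [hc.chain, hr.add, hr.mul, hr.mul]
  rw [bet, bet, hS, hD, Matrix.add_mul, Matrix.add_mul, Matrix.mul_sub, Matrix.mul_smul,
    Matrix.mul_assoc _ (SS N g), S_mul_adj, Matrix.mul_smul, Matrix.mul_one, Matrix.smul_mul,
    smul_add, Matrix.mul_assoc _ (SS N f), Matrix.mul_assoc _ (SS N f * _)]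
  abel

lemma bet_tri (u v z : A K 3) (i : Fin 3) : (SS N v).det • bet N u z i =
    (SS N z).det • bet N u v i + SS N u * (SS N v).adjugate * bet N v z i := by
  rw [bet, bet, bet, Matrix.mul_sub, Matrix.mul_smul, smul_sub, smul_sub,
    Matrix.mul_assoc (SS N v), Matrix.mul_assoc (SS N u) (SS N v).adjugate (SS N v * _),
    adj_S_M, Matrix.mul_smul, smul_comm (SS N z).det (SS N v).det,
    Matrix.mul_assoc (SS N u) (SS N z).adjugate]
  abel

lemma bet_sym (f g : A K 3) (i : Fin 3) :
    SS N g * (SS N f).adjugate * bet N f g i = - ((SS N g).det • bet N g f i) := by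
  rw [bet, bet, Matrix.mul_sub, Matrix.mul_smul, smul_sub, Matrix.mul_assoc (SS N f),
    Matrix.mul_assoc (SS N g) (SS N f).adjugate (SS N f * _), adj_S_M, Matrix.mul_smul,
    S_adj_S, smul_comm (SS N f).det (SS N g).det]
  abel

lemma dl_com (hb : DegbFacts K w) (hc : ChainFacts K 3) (f g : A K 3) :
    dl (f * g - g * f) = dl f * dl g - dl g * dl f := by
  have h1 : dl (f * g - g * f) = dl (f * g) - dl (g * f) := by
    have hs : inr (f * g - g * f) = inr (f * g) - inr (g * f) := by
      have := hb.inradd (f * g - g * f) (g * f)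
      rw [sub_add_cancel] at this
      rw [this]
      abel
    rw [dl, hs, map_sub, dl, dl]
    abel
  rw [h1, hc.dlmul, hc.dlmul]
  simp only [dl]
  noncomm_ring

lemma dX_com (hc : ChainFacts K 3) (f g : A K 3) (i : Fin 3) :
    dX i (f * g - g * f) = dl f * dX i g - dl g * dX i f := by
  have h1 : dX i (f * g - g * f) = dX i (f * g) - dX i (g * f) := by
    have := hc.add i (f * g - g * f) (g * f)
    rw [sub_add_cancel] at this
    rw [this]
    abel
  rw [h1, hc.mul, hc.mul]
  simp only [dl]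
  noncomm_ring

lemma rho_sub (hr : RhoFacts K w N) (S T : A2 K 3) : rho N (S - T) = rho N S - rho N T := by
  have := hr.add (S - T) T
  rw [sub_add_cancel] at this
  rw [this]
  abel

lemma bet_com (hr : RhoFacts K w N) (hb : DegbFacts K w) (hc : ChainFacts K 3) (f g : A K 3)
    (i : Fin 3) : bet N (f * g - g * f) g i = - (SS N g * bet N f g i) := by
  have hS : SS N (f * g - g * f) = SS N f * SS N g - SS N g * SS N f := by
    rw [SS, dl_com hb hc, rho_sub hr, hr.mul, hr.mul]
    rfl
  have hD : rho N (dX i (f * g - g * f)) = SS N f * rho N (dX i g) - SS N g * rho N (dX i f) := by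
    rw [dX_com hc, rho_sub hr, hr.mul, hr.mul]
    rfl
  rw [bet, bet, hS, hD, Matrix.sub_mul, Matrix.sub_mul, Matrix.mul_assoc (SS N f) (SS N g),
    S_mul_adj, Matrix.mul_smul, Matrix.mul_one, Matrix.smul_mul, smul_sub, Matrix.mul_sub,
    Matrix.mul_smul, Matrix.mul_assoc (SS N g) (SS N f), Matrix.mul_assoc (SS N g)]
  abel

/-! ### the maximum -/

/-- the maximum in the definition of `Es` -/
noncomputable def mx (w : Fin 3 → ℝ) (β : Fin 3 → MM K N) : ℝ :=
  Finset.univ.sup' Finset.univ_nonempty (fun i : Fin 3 =>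
    dM w ((MvPolynomial.X (false, i, 0) : RR K N) • β i))

lemma Es_eq (f g : A K 3) : Es N w f g = dg w g + mx w (bet N f g) - dR w (SS N g).det := rfl

lemma X_smul_norm (hr : RhoFacts K w N) {M : MM K N} (hM : M ≠ 0) (i : Fin 3) :
    dM w ((MvPolynomial.X (false, i, 0) : RR K N) • M) = w i + dM w M := by
  rw [hr.msmul _ _ (MvPolynomial.X_ne_zero _) hM, hr.x']

lemma mx_ge (hr : RhoFacts K w N) (β : Fin 3 → MM K N) (i : Fin 3) (hi : β i ≠ 0) :
    w i + dM w (β i) ≤ mx w β := by
  rw [← X_smul_norm hr hi]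
  exact Finset.le_sup' (fun i : Fin 3 => dM w ((MvPolynomial.X (false, i, 0) : RR K N) • β i))
    (Finset.mem_univ i)

lemma mx_att (hw : Gen w) (hr : RhoFacts K w N) (β : Fin 3 → MM K N) (h : ∃ i, β i ≠ 0) :
    ∃ i, β i ≠ 0 ∧ mx w β = w i + dM w (β i) := by
  obtain ⟨j, _, hj⟩ := Finset.exists_mem_eq_sup' Finset.univ_nonempty (fun i : Fin 3 =>
    dM w ((MvPolynomial.X (false, i, 0) : RR K N) • β i))
  by_cases h0 : β j = 0
  · obtain ⟨i, hi⟩ := h
    have h1 := mx_ge hr β i hi
    have h2 : mx w β = 0 := by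
      rw [mx, hj, h0, smul_zero, hr.mzero]
    have h3 := hr.mnn (β i)
    have h4 := hw.pos i
    linarith
  · exact ⟨j, h0, by rw [mx, hj, X_smul_norm hr h0]⟩

/-- comparison of maxima -/
lemma mx_shift (hw : Gen w) (hr : RhoFacts K w N) (β β' : Fin 3 → MM K N) (c : ℝ)
    (h : ∃ i, β i ≠ 0) (h1 : ∀ i, β i ≠ 0 → β' i ≠ 0 ∧ dM w (β' i) = dM w (β i) + c)
    (h2 : ∀ i, β i = 0 → β' i = 0) : mx w β' = mx w β + c := by
  have h' : ∃ i, β' i ≠ 0 := by
    obtain ⟨i, hi⟩ := h
    exact ⟨i, (h1 i hi).1⟩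
  apply le_antisymm
  · obtain ⟨i, hi, he⟩ := mx_att hw hr β' h'
    have h3 : β i ≠ 0 := fun h0 => hi (h2 i h0)
    have h4 := mx_ge hr β i h3
    rw [he, (h1 i h3).2]
    linarith
  · obtain ⟨i, hi, he⟩ := mx_att hw hr β h
    have h4 := mx_ge hr β' i (h1 i hi).1
    rw [(h1 i hi).2] at h4
    linarith

/-! ### the module -/

theorem beta (K : Type*) [Field K] (w : Fin 3 → ℝ) (hw : Gen w) (N : ℕ) [NeZero N]
    (hr : RhoFacts K w N) (hn : NormStatement K w) (hc : ChainFacts K 3) (_hd : DegFacts K w)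
    (hb : DegbFacts K w) : BetaFacts K w N where
  det := det_ne hn hb
  le := by
    intro f g hf hg hlf hlg
    have hdet := det_ne hn hb g hg hlg
    rw [Es_eq]
    have hX : ∀ i, dM w ((MvPolynomial.X (false, i, 0) : RR K N) • bet N f g i) ≤
        dg w f + dR w (SS N g).det := by
      intro i
      have hw0 := hw.pos i
      have hX0 : (MvPolynomial.X (false, i, 0) : RR K N) ≠ 0 := MvPolynomial.X_ne_zero _
      have e1 : (MvPolynomial.X (false, i, 0) : RR K N) • bet N f g i =
          (MvPolynomial.X (false, i, 0) : RR K N) • ((SS N g).det • rho N (dX i f)) +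
          -((MvPolynomial.X (false, i, 0) : RR K N) •
            (SS N f * (SS N g).adjugate * rho N (dX i g))) := by
        rw [bet, smul_sub, sub_eq_add_neg]
      rw [e1]
      refine (hr.madd _ _).trans (max_le ?_ ?_)
      · by_cases h0 : dX i f = 0
        · have : rho N (dX i f) = 0 := by
            rw [h0]
            have := hr.smul 0 (0 : A2 K 3)
            simpa using this
          rw [this, smul_zero, smul_zero, hr.mzero]
          have := hr.nn (SS N g).det
          linarith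
        · obtain ⟨h1, h2⟩ := rho_norm hr hn h0 (len2_dX hc hlf i)
          rw [hr.msmul _ _ hX0 (smul_ne hdet h1), hr.msmul _ _ hdet h1, h2, hr.x']
          have := dg_dX_le (w := w) hc f i h0
          linarith
      · rw [hr.mneg]
        by_cases h0 : dX i g = 0
        · have : rho N (dX i g) = 0 := by
            rw [h0]
            have := hr.smul 0 (0 : A2 K 3)
            simpa using this
          rw [this, mul_zero, smul_zero, hr.mzero]
          have := hr.nn (SS N g).det
          linarith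
        · obtain ⟨h1, h2⟩ := rho_norm hr hn h0 (len2_dX hc hlg i)
          obtain ⟨h3, h4⟩ := S_adj_norm hr hn hb hf hlf hg hlg h1
          rw [hr.msmul _ _ hX0 h3, h4, h2, hr.x']
          have := dg_dX_le (w := w) hc g i h0
          linarith
    have h1 : mx w (bet N f g) ≤ dg w f + dR w (SS N g).det := by
      apply Finset.sup'_le
      intro i _
      exact hX i
    linarith
  ch := bet_ch hr hc
  tri := bet_tri
  sym := bet_sym
  com := bet_com hr hb hc
  sym' := by
    intro f g hf hg hlf hlg h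
    have hdg := det_ne hn hb g hg hlg
    have hdf := det_ne hn hb f hf hlf
    have key : mx w (bet N g f) = mx w (bet N f g) +
        (dg w g + dR w (SS N f).det - dg w f - dR w (SS N g).det) := by
      apply mx_shift hw hr _ _ _ h
      · intro i hi
        have h1 := bet_sym (N := N) f g i
        obtain ⟨h2, h3⟩ := S_adj_norm hr hn hb hg hlg hf hlf hi
        have h4 : bet N g f i ≠ 0 := by
          intro h0
          rw [h0, smul_zero, neg_zero] at h1
          exact h2 h1
        refine ⟨h4, ?_⟩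
        rw [h1, hr.mneg, hr.msmul _ _ hdg h4] at h3
        linarith
      · intro i hi
        have h1 := bet_sym (N := N) f g i
        rw [hi, mul_zero] at h1
        by_contra h4
        exact smul_ne hdg h4 (neg_eq_zero.mp h1.symm)
    rw [Es_eq, Es_eq, key]
    ring
  zsym := by
    intro f g hf hg hlf hlg
    have key : ∀ f g : A K 3, 0 < dg w g → Len N g → ∀ i, bet N f g i = 0 → bet N g f i = 0 := by
      intro f g hg hlg i hi
      have hdg := det_ne hn hb g hg hlg
      have h1 := bet_sym (N := N) f g i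
      rw [hi, mul_zero] at h1
      by_contra h4
      exact smul_ne hdg h4 (neg_eq_zero.mp h1.symm)
    exact ⟨fun h i => key f g hg hlg i (h i), fun h i => key g f hf hlf i (h i)⟩
  v2 := by
    intro f g P hf hg hlf hlg hT hT0 h
    have key : mx w (bet N (ev P f g) g) = mx w (bet N f g) +
        dg2 w (evl2 ![f, g] (dX 0 P)) := by
      apply mx_shift hw hr _ _ _ h
      · intro i hi
        rw [bet_ch hr hc]
        obtain ⟨h1, h2⟩ := hn N _ _ hT0 hi hT
        exact ⟨h1, by rw [h2]; ring⟩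
      · intro i hi
        rw [bet_ch hr hc, hi, mul_zero]
    rw [Es_eq, Es_eq, key]
    ring
  vcom := by
    intro f g hf hg hlf hlg h
    have key : mx w (bet N (f * g - g * f) g) = mx w (bet N f g) + dg w g := by
      apply mx_shift hw hr _ _ _ h
      · intro i hi
        rw [bet_com hr hb hc]
        obtain ⟨h1, h2⟩ := S_norm hn hb hg hlg hi
        exact ⟨neg_ne_zero.mpr h1, by rw [hr.mneg, h2]; ring⟩
      · intro i hi
        rw [bet_com hr hb hc, hi, mul_zero, neg_zero]
    rw [Es_eq, Es_eq, key]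
    ring
  v3 := by
    intro u v z hu hv hz hlu hlv hlz h
    have hdv := det_ne hn hb v hv hlv
    have hdz := det_ne hn hb z hz hlz
    obtain ⟨i, hi, he⟩ := mx_att hw hr _ h
    have h1 := bet_tri (N := N) u v z i
    have h2 : dM w ((SS N v).det • bet N u z i) = dR w (SS N v).det + dM w (bet N u z i) :=
      hr.msmul _ _ hdv hi
    rw [Es_eq, Es_eq, Es_eq, he]
    by_cases ha : bet N u v i = 0
    · by_cases hb0 : bet N v z i = 0
      · rw [ha, hb0, smul_zero, mul_zero, add_zero] at h1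
        exact absurd h1 (smul_ne hdv hi)
      · rw [ha, smul_zero, zero_add] at h1
        obtain ⟨h3, h4⟩ := S_adj_norm hr hn hb hu hlu hv hlv hb0
        rw [← h1, h2] at h4
        have h5 := mx_ge hr (bet N v z) i hb0
        apply le_max_of_le_right
        linarith
    · by_cases hb0 : bet N v z i = 0
      · rw [hb0, mul_zero, add_zero] at h1
        rw [h1, hr.msmul _ _ hdz ha] at h2
        have h5 := mx_ge hr (bet N u v) i ha
        apply le_max_of_le_left
        linarith
      · obtain ⟨h3, h4⟩ := S_adj_norm hr hn hb hu hlu hv hlv hb0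
        have h5 := mx_ge hr (bet N v z) i hb0
        have h6 := mx_ge hr (bet N u v) i ha
        have h7 := hr.madd ((SS N z).det • bet N u v i) (SS N u * (SS N v).adjugate * bet N v z i)
        rw [← h1, h2, h4, hr.msmul _ _ hdz ha] at h7
        rcases le_max_iff.mp h7 with h8 | h8
        · apply le_max_of_le_left
          linarith
        · apply le_max_of_le_right
          linarith

end

end Pool.Agent.Lib.MP_e1f7e2_al.FA.H12
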