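import Pool.Agent.Lib.MP_e1f7e2_al.FA.H12.PmBase

set_option autoImplicit false

/-!
Project FA (MP_e1f7e2_al): module NONEA, step (1) of (N1).
-/

open MulOpposite

namespace Pool.Agent.Lib.MP_e1f7e2_al.FA.H12

section

variable {K : Type*} [Field K]

/-! ### multiplication by a letter -/

lemma xx_mul_coeff_same (i : Fin 4) (Q : A K 4) (z : Wd 4) :
    (xx i * Q).coeff (FreeMonoid.of i * z) = Q.coeff z := by
  rw [xx, MonoidAlgebra.coeff_single_mul_eq_mul_coeff z, one_mul]
  intro m' _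
  exact ⟨fun h => mul_left_cancel h, fun h => by rw [h]⟩

lemma xx_mul_coeff_one (i : Fin 4) (Q : A K 4) : (xx i * Q).coeff 1 = 0 := by
  rw [xx, MonoidAlgebra.coeff_single_mul_of_forall_mul_ne]
  intro d h
  have := congrArg (fun u : Wd 4 => u.toList.length) h
  simp [FreeMonoid.toList_mul] at this

lemma xx_mul_coeff_ne (i j : Fin 4) (hij : i ≠ j) (Q : A K 4) (z : Wd 4) :
    (xx i * Q).coeff (FreeMonoid.of j * z) = 0 := by
  rw [xx, MonoidAlgebra.coeff_single_mul_of_forall_mul_ne]
  intro d h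
  have := congrArg (fun u : Wd 4 => u.toList) h
  simp only [FreeMonoid.toList_mul, FreeMonoid.toList_of, List.singleton_append] at this
  exact hij (List.cons.inj this).1

/-! ### the right quotient by `y V` -/

lemma rv_inj (V : Wd 4) : Function.Injective (fun U : Wd 4 => U * FreeMonoid.of 3 * V) := by
  intro U U' h
  exact mul_right_cancel (mul_right_cancel h)

/-- the sum of the words `U` with `a` letters `3`, with the coefficient of `U y V` in `Q` -/
noncomputable def RV (V : Wd 4) (a : ℕ) (Q : A K 4) : A K 4 :=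
  cnt 3 a (MonoidAlgebra.ofCoeff
    (Q.coeff.comapDomain (fun U : Wd 4 => U * FreeMonoid.of 3 * V) (rv_inj V).injOn))

lemma RV_coeff (V : Wd 4) (a : ℕ) (Q : A K 4) (U : Wd 4) : (RV V a Q).coeff U =
    if U.toList.count 3 = a then Q.coeff (U * FreeMonoid.of 3 * V) else 0 := by
  rw [RV, cnt, MonoidAlgebra.coeff_ofCoeff, Finsupp.filter_apply, MonoidAlgebra.coeff_ofCoeff,
    Finsupp.comapDomain_apply]

lemma RV_add (V : Wd 4) (a : ℕ) (Q R : A K 4) : RV V a (Q + R) = RV V a Q + RV V a R := by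
  rw [← MonoidAlgebra.coeff_inj]
  refine Finsupp.ext fun U => ?_
  rw [MonoidAlgebra.coeff_add, Finsupp.add_apply, RV_coeff, RV_coeff, RV_coeff,
    MonoidAlgebra.coeff_add, Finsupp.add_apply]
  split_ifs
  · rfl
  · rw [add_zero]

lemma RV_smul (V : Wd 4) (a : ℕ) (c : K) (Q : A K 4) : RV V a (c • Q) = c • RV V a Q := by
  rw [← MonoidAlgebra.coeff_inj]
  refine Finsupp.ext fun U => ?_
  rw [MonoidAlgebra.coeff_smul_apply, RV_coeff, RV_coeff, MonoidAlgebra.coeff_smul_apply]
  split_ifs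
  · rfl
  · rw [smul_zero]

lemma RV_zero (V : Wd 4) (a : ℕ) : RV V a (0 : A K 4) = 0 := by
  have := RV_smul V a (0 : K) 0
  rwa [zero_smul, zero_smul] at this

lemma count_of_mul (j : Fin 4) (U : Wd 4) : (FreeMonoid.of j * U).toList.count 3 =
    U.toList.count 3 + if j = 3 then 1 else 0 := by
  rw [FreeMonoid.toList_mul, FreeMonoid.toList_of, List.singleton_append, List.count_cons]
  by_cases h : j = 3
  · simp [h]
  · simp [h]

lemma RV_xx (V : Wd 4) (a : ℕ) (i : Fin 4) (hi : i ≠ 3) (Q : A K 4) :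
    RV V a (xx i * Q) = xx i * RV V a Q := by
  rw [← MonoidAlgebra.coeff_inj]
  refine Finsupp.ext fun U => ?_
  rw [RV_coeff]
  cases U using FreeMonoid.casesOn with
  | one =>
    rw [xx_mul_coeff_one, one_mul, xx_mul_coeff_ne i 3 hi]
    split_ifs <;> rfl
  | of_mul j U =>
    rw [mul_assoc, mul_assoc, ← mul_assoc U]
    by_cases hij : i = j
    · subst hij
      rw [xx_mul_coeff_same, xx_mul_coeff_same, RV_coeff, count_of_mul, if_neg hi, add_zero]
    · rw [xx_mul_coeff_ne i j hij, xx_mul_coeff_ne i j hij]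
      split_ifs <;> rfl

lemma RV_em (V : Wd 4) (a : ℕ) (f : A K 3) : ∀ Q : A K 4, RV V a (em f * Q) = em f * RV V a Q := by
  refine word_ind (p := fun f => ∀ Q : A K 4, RV V a (em f * Q) = em f * RV V a Q)
    ?_ ?_ ?_ ?_ ?_ f
  · intro Q
    rw [map_zero, zero_mul, zero_mul, RV_zero]
  · intro f g hf hg Q
    rw [map_add, add_mul, add_mul, RV_add, hf, hg]
  · intro c f hf Q
    rw [map_smul, smul_mul_assoc, smul_mul_assoc, RV_smul, hf]
  · intro Q
    rw [map_one, one_mul, one_mul]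
  · intro i f hf Q
    have e : em (xx i : A K 3) = xx (Fin.castSucc i) := by rw [em, evl_xx]
    rw [map_mul, mul_assoc, mul_assoc, e, RV_xx _ _ _ ?_, hf]
    fin_cases i <;> decide

lemma RV_three_zero (V : Wd 4) (Q : A K 4) :
    RV V 0 (xx 3 * Q) = Q.coeff V • (1 : A K 4) := by
  rw [← MonoidAlgebra.coeff_inj]
  refine Finsupp.ext fun U => ?_
  rw [RV_coeff, MonoidAlgebra.coeff_smul_apply]
  cases U using FreeMonoid.casesOn with
  | one =>
    rw [one_mul, xx_mul_coeff_same, MonoidAlgebra.coeff_one_one, smul_eq_mul, mul_one, if_pos]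
    rfl
  | of_mul j U =>
    have h1 : (1 : A K 4).coeff (FreeMonoid.of j * U) = 0 := by
      classical
      rw [MonoidAlgebra.one_def, MonoidAlgebra.coeff_single, Finsupp.single_apply, if_neg]
      intro h
      have := congrArg (fun u : Wd 4 => u.toList.length) h
      simp [FreeMonoid.toList_mul] at this
    rw [h1, smul_zero, count_of_mul]
    by_cases hj : j = 3
    · rw [if_neg]
      rw [if_pos hj]
      omega
    · rw [mul_assoc, mul_assoc, ← mul_assoc U, xx_mul_coeff_ne 3 j (fun h => hj h.symm)]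
      split_ifs <;> rfl

lemma RV_three_succ (V : Wd 4) (a : ℕ) (Q : A K 4) :
    RV V (a + 1) (xx 3 * Q) = xx 3 * RV V a Q := by
  rw [← MonoidAlgebra.coeff_inj]
  refine Finsupp.ext fun U => ?_
  rw [RV_coeff]
  cases U using FreeMonoid.casesOn with
  | one =>
    rw [xx_mul_coeff_one, if_neg]
    simp
  | of_mul j U =>
    rw [mul_assoc, mul_assoc, ← mul_assoc U, count_of_mul]
    by_cases hj : j = 3
    · subst hj
      rw [xx_mul_coeff_same, xx_mul_coeff_same, RV_coeff, if_pos rfl]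
      by_cases h : U.toList.count 3 = a
      · rw [if_pos (by omega), if_pos h]
      · rw [if_neg (by omega), if_neg h]
    · rw [xx_mul_coeff_ne 3 j (fun h => hj h.symm), xx_mul_coeff_ne 3 j (fun h => hj h.symm)]
      split_ifs <;> rfl

/-- the polynomial `T_V` -/
noncomputable def tvw (f g : A K 3) (V : Wd 4) (b : ℕ) : List (Fin 2) → A K 2
  | [] => 0
  | i :: W => (if i = 0 then
      (Pm f g (MonoidAlgebra.single (FreeMonoid.ofList W) 1) b).coeff V • (1 : A K 2) else 0) +
      xx i * tvw f g V b W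

lemma tvw_spec (f g : A K 3) (V : Wd 4) (b : ℕ) (W : List (Fin 2)) : ∀ a : ℕ,
    RV V a (Pm f g (MonoidAlgebra.single (FreeMonoid.ofList W) 1) (a + b + 1)) =
      Pm f g (tvw f g V b W) a := by
  induction W with
  | nil =>
    intro a
    have e : (MonoidAlgebra.single (FreeMonoid.ofList ([] : List (Fin 2))) 1 : A K 2) = 1 := rfl
    rw [e, Pm_one_succ, RV_zero, tvw, Pm_zero]
  | cons i W ih =>
    intro a
    have e : (MonoidAlgebra.single (FreeMonoid.ofList (i :: W)) 1 : A K 2) =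
        xx i * MonoidAlgebra.single (FreeMonoid.ofList W) 1 := by
      rw [xx_mul_single]; rfl
    rw [e, tvw]
    fin_cases i
    · show RV V a (Pm f g (xx 0 * _) (a + b + 1)) = Pm f g ((if (0 : Fin 2) = 0 then _ else 0) +
        xx 0 * _) a
      rw [if_pos rfl, Pm_X_succ, RV_add, RV_em, ih a, Pm_add, Pm_smul]
      cases a with
      | zero =>
        rw [RV_three_zero, Pm_one_zero, Pm_X_zero, zero_add, add_comm]
      | succ a =>
        rw [RV_three_succ, Pm_one_succ, Pm_X_succ, smul_zero, zero_add,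
          show a + 1 + b = a + b + 1 by omega, ih a]
    · show RV V a (Pm f g (xx 1 * _) (a + b + 1)) = Pm f g ((if (1 : Fin 2) = 0 then _ else 0) +
        xx 1 * _) a
      rw [if_neg (by decide), zero_add, Pm_Y, Pm_Y, RV_em, ih a]

lemma exists_T (f g : A K 3) (V : Wd 4) (b : ℕ) (P : A K 2) : ∃ T : A K 2, ∀ a : ℕ,
    RV V a (Pm f g P (a + b + 1)) = Pm f g T a := by
  refine MonoidAlgebra.induction_linear P ?_ ?_ ?_
  · exact ⟨0, fun a => by rw [Pm_zero, Pm_zero, RV_zero]⟩
  · rintro P Q ⟨T, hT⟩ ⟨T', hT'⟩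
    exact ⟨T + T', fun a => by rw [Pm_add, Pm_add, RV_add, hT, hT']⟩
  · intro W c
    refine ⟨c • tvw f g V b W.toList, fun a => ?_⟩
    rw [H74.single_eq, Pm_smul, Pm_smul, RV_smul, ← tvw_spec]
    rfl

/-! ### the case `m = 0` -/

/-- `u ⊗ v ↦ u y v` on words -/
def jm (p : Wd 3 × (Wd 3)ᵐᵒᵖ) : Wd 4 := ew p.1 * FreeMonoid.of 3 * ew p.2.unop

lemma split_unique : ∀ (l l' r r' : List (Fin 4)), l.count 3 = l'.count 3 →
    l ++ 3 :: r = l' ++ 3 :: r' → l = l' ∧ r = r' := by
  intro l
  induction l with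
  | nil =>
    intro l' r r' hc h
    cases l' with
    | nil =>
      simp only [List.nil_append, List.cons.injEq, true_and] at h
      exact ⟨rfl, h⟩
    | cons j l' =>
      simp only [List.nil_append, List.cons_append, List.cons.injEq] at h
      rw [← h.1] at hc
      simp at hc
  | cons i l ih =>
    intro l' r r' hc h
    cases l' with
    | nil =>
      simp only [List.nil_append, List.cons_append, List.cons.injEq] at h
      rw [h.1] at hc
      simp at hc
    | cons j l' =>
      simp only [List.cons_append, List.cons.injEq] at h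
      obtain ⟨rfl, h⟩ := h
      rw [List.count_cons, List.count_cons] at hc
      obtain ⟨h1, h2⟩ := ih l' r r' (by omega) h
      exact ⟨by rw [h1], h2⟩

lemma word_split_unique (U U' V V' : Wd 4) (hc : U.toList.count 3 = U'.toList.count 3)
    (h : U * FreeMonoid.of 3 * V = U' * FreeMonoid.of 3 * V') : U = U' ∧ V = V' := by
  have h1 : U.toList ++ 3 :: V.toList = U'.toList ++ 3 :: V'.toList := by
    have := congrArg FreeMonoid.toList h
    simpa [FreeMonoid.toList_mul, FreeMonoid.toList_of] using this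
  obtain ⟨h2, h3⟩ := split_unique _ _ _ _ hc h1
  exact ⟨FreeMonoid.toList.injective h2, FreeMonoid.toList.injective h3⟩

lemma jm_inj : Function.Injective jm := by
  rintro ⟨u, v⟩ ⟨u', v'⟩ h
  obtain ⟨h1, h2⟩ := word_split_unique _ _ _ _ (by rw [ew_count, ew_count]) h
  exact Prod.ext (ew_inj h1) (unop_injective (ew_inj h2))

lemma jm_wt (w : Fin 3 → ℝ) (p : Wd 3 × (Wd 3)ᵐᵒᵖ) : wt (w4 w) (jm p) = wt2 w p := by
  rw [jm, wt_mul, wt_mul, ew_wt, ew_wt, wt_three, wt2]
  ring

/-- `u ⊗ v ↦ u y v` -/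
noncomputable def J (G : A2 K 3) : A K 4 := push jm G

lemma J_inl_xx (i : Fin 3) (G : A2 K 3) : J (inl (xx i) * G) = em (xx i) * J G := by
  refine MonoidAlgebra.induction_linear G ?_ ?_ ?_
  · rw [mul_zero, J, push_zero, mul_zero]
  · intro G H hG hH
    rw [mul_add, J, push_add, J, push_add, mul_add]
    exact congrArg₂ (· + ·) hG hH
  · intro p c
    have e : em (xx i : A K 3) = xx (Fin.castSucc i) := by rw [em, evl_xx]
    rw [xx, H74.inl_single, MonoidAlgebra.single_mul_single, one_mul, J, push_single, J,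
      push_single, ← xx, e, xx_mul_single]
    congr 1
    rw [jm, jm, Prod.fst_mul, Prod.snd_mul, one_mul, map_mul, ew_of]
    simp only [mul_assoc]

lemma J_inl (f : A K 3) : ∀ G : A2 K 3, J (inl f * G) = em f * J G := by
  refine word_ind (p := fun f => ∀ G : A2 K 3, J (inl f * G) = em f * J G) ?_ ?_ ?_ ?_ ?_ f
  · intro G
    rw [map_zero, map_zero, zero_mul, zero_mul, J, push_zero]
  · intro f g hf hg G
    rw [map_add, map_add, add_mul, add_mul, ← hf, ← hg, J, push_add]
    rfl
  · intro c f hf G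
    rw [map_smul, map_smul, smul_mul_assoc, smul_mul_assoc, ← hf, J, push,
      MonoidAlgebra.coeff_smul, Finsupp.mapDomain_smul]
    rfl
  · intro G
    rw [map_one, map_one, one_mul, one_mul]
  · intro i f hf G
    rw [map_mul, map_mul, mul_assoc, mul_assoc, J_inl_xx, hf]

lemma J_inr (q : A K 3) : J (inr q) = xx 3 * em q := by
  refine MonoidAlgebra.induction_linear q ?_ ?_ ?_
  · rw [H74.inr_zero, map_zero, mul_zero, J, push_zero]
  · intro f g hf hg
    rw [H74.inr_add, J, push_add, map_add, mul_add, ← hf, ← hg]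
    rfl
  · intro u c
    rw [H74.inr_single, J, push_single, em_eq, push_single, xx_mul_single]
    congr 1

lemma Pm_one (f g : A K 3) (P : A K 2) : Pm f g P 1 = J (evl2 ![f, g] (dX 0 P)) := by
  refine word_ind (p := fun P => Pm f g P 1 = J (evl2 ![f, g] (dX 0 P))) ?_ ?_ ?_ ?_ ?_ P
  · rw [Pm_zero, H74.dX_zero, H74.e2_zero, J, push_zero]
  · intro P Q hP hQ
    rw [Pm_add, H74.dX_add, H74.e2_add, J, push_add, hP, hQ]
    rfl
  · intro c P hP
    rw [Pm_smul, H74.dX_smul, H74.e2_smul, hP, J, J, push, push, MonoidAlgebra.coeff_smul,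
      Finsupp.mapDomain_smul]
    rfl
  · rw [Pm_one_succ f g 0, H74.dX_one, H74.e2_zero, J, push_zero]
  · intro i P hP
    fin_cases i
    · show Pm f g (xx 0 * P) (0 + 1) = J (evl2 ![f, g] (dX 0 (xx 0 * P)))
      rw [Pm_X_succ, zero_add, hP, Pm_zero_eq, H74.dX_mul, H74.dX_xx, if_pos rfl, mul_one,
        H74.e2_add, H74.e2_mul, H74.e2_inl, H74.e2_inr, evl_xx]
      have e : ∀ G H : A2 K 3, J (G + H) = J G + J H := fun G H => push_add _ _ _
      rw [e]
      show _ = J (inl f * _) + J (inr (ev P f g))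
      rw [J_inl, J_inr]
    · show Pm f g (xx 1 * P) 1 = J (evl2 ![f, g] (dX 0 (xx 1 * P)))
      rw [Pm_Y, hP, H74.dX_mul, H74.dX_xx, if_neg (by decide), mul_zero, add_zero, H74.e2_mul,
        H74.e2_inl, evl_xx]
      show _ = J (inl g * _)
      rw [J_inl]

lemma base (w : Fin 3 → ℝ) (hb : DegbFacts K w) (he : EFacts K w)
    (f g : A K 3) (T : A K 2) (hfg : f * g ≠ g * f) (hT : Pm f g T 1 ≠ 0) :
    Pm f g T 0 ≠ 0 ∧
    dg (w4 w) (Pm f g T 1) + (E w f g - dg w g) ≤ dg (w4 w) (Pm f g T 0) := by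
  have h1 : evl2 ![f, g] (dX 0 T) ≠ 0 := by
    intro h
    rw [Pm_one, h, J, push_zero] at hT
    exact hT rfl
  have h2 := he.v2 f g T hfg h1
  have h3 : dg (w4 w) (Pm f g T 1) = dg2 w (evl2 ![f, g] (dX 0 T)) := by
    rw [Pm_one]
    exact push_dgr jm jm_inj (wt2 w) (wt (w4 w)) (jm_wt w) _
  have h4 : dg (w4 w) (Pm f g T 0) = dg w (ev T f g) := by
    rw [Pm_zero_eq, em_dg]
  have h5 := he.le (ev T f g) g
  have h6 := (he.pos f g hfg).1
  have h7 := hb.nn (evl2 ![f, g] (dX 0 T))
  refine ⟨?_, by rw [h3, h4]; linarith⟩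
  intro h0
  rw [Pm_zero_eq] at h0
  have h8 := em_inj _ h0
  have h9 := he.zero (ev T f g) g (by rw [h8, zero_mul, mul_zero])
  linarith

lemma split_exists : ∀ (l : List (Fin 4)) (a : ℕ), a < l.count 3 →
    ∃ U V : List (Fin 4), l = U ++ 3 :: V ∧ U.count 3 = a := by
  intro l
  induction l with
  | nil =>
    intro a ha
    simp at ha
  | cons i l ih =>
    intro a ha
    by_cases hi : i = 3
    · subst hi
      cases a with
      | zero => exact ⟨[], l, rfl, rfl⟩
      | succ a =>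
        rw [List.count_cons_self] at ha
        obtain ⟨U, V, h1, h2⟩ := ih a (by omega)
        exact ⟨3 :: U, V, by rw [h1]; rfl, by rw [List.count_cons_self, h2]⟩
    · rw [List.count_cons_of_ne hi] at ha
      obtain ⟨U, V, h1, h2⟩ := ih a ha
      exact ⟨i :: U, V, by rw [h1]; rfl, by rw [List.count_cons_of_ne hi, h2]⟩

lemma word_split_exists (Z : Wd 4) (a : ℕ) (ha : a < Z.toList.count 3) :
    ∃ U V : Wd 4, Z = U * FreeMonoid.of 3 * V ∧ U.toList.count 3 = a := by
  obtain ⟨U, V, h1, h2⟩ := split_exists Z.toList a ha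
  refine ⟨FreeMonoid.ofList U, FreeMonoid.ofList V, FreeMonoid.toList.injective ?_, h2⟩
  rw [h1]
  simp [FreeMonoid.toList_mul, FreeMonoid.toList_of]

theorem nonea (K : Type*) [Field K] (w : Fin 3 → ℝ) (_hw : Gen w) (_hd : DegFacts K w)
    (hb : DegbFacts K w) (he : EFacts K w) : NoneaStatement K w := by
  intro f g P m hfg hP
  cases m with
  | zero => exact base w hb he f g P hfg hP
  | succ b =>
    obtain ⟨Z, hZ, hZe⟩ := exists_dgr (wt (w4 w)) _ hP
    have hZc := Pm_C3 f g P (b + 1 + 1) Z hZ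
    obtain ⟨U, V, rfl, hU⟩ := word_split_exists Z 1 (by omega)
    obtain ⟨T, hT⟩ := exists_T f g V b P
    have h1 : (Pm f g T 1).coeff U = (Pm f g P (b + 1 + 1)).coeff (U * FreeMonoid.of 3 * V) := by
      rw [← hT 1, RV_coeff, if_pos hU, show 1 + b + 1 = b + 1 + 1 by omega]
    have h2 : U ∈ (Pm f g T 1).coeff.support := by
      rw [Finsupp.mem_support_iff, h1]
      exact Finsupp.mem_support_iff.mp hZ
    have h3 : Pm f g T 1 ≠ 0 := by
      intro h0
      rw [h0] at h2
      simp at h2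
    obtain ⟨h4, h5⟩ := base w hb he f g T hfg h3
    obtain ⟨U0, hU0, hU0e⟩ := exists_dgr (wt (w4 w)) _ h4
    have hU0c := Pm_C3 f g T 0 U0 hU0
    have h6 : (Pm f g P (b + 1)).coeff (U0 * FreeMonoid.of 3 * V) = (Pm f g T 0).coeff U0 := by
      rw [← hT 0, RV_coeff, if_pos hU0c, show 0 + b + 1 = b + 1 by omega]
    have h7 : U0 * FreeMonoid.of 3 * V ∈ (Pm f g P (b + 1)).coeff.support := by
      rw [Finsupp.mem_support_iff, h6]
      exact Finsupp.mem_support_iff.mp hU0
    refine ⟨?_, ?_⟩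
    · intro h0
      rw [h0] at h7
      simp at h7
    · have h8 := le_dgr (wt (w4 w)) _ _ h7
      have h9 := le_dgr (wt (w4 w)) _ _ h2
      rw [wt_mul, wt_mul, wt_three] at h8 hZe
      simp only [dg] at h5 ⊢
      rw [hZe]
      rw [hU0e] at h5
      linarith

end

end Pool.Agent.Lib.MP_e1f7e2_al.FA.H12
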