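import Pool.Agent.Lib.MP_e1f7e2_al.FA.H12.Slot2

set_option autoImplicit false

/-!
Project FA (MP_e1f7e2_al): module NONEB, step (2) of (N1).
-/

open MulOpposite

namespace Pool.Agent.Lib.MP_e1f7e2_al.FA.H12

section

variable {K : Type*} [Field K] {w : Fin 3 → ℝ}

/-! ### weights of the words of elements of `A K 4` -/

/-- all words of `Q` have weights satisfying `φ` -/
def Aq (w : Fin 3 → ℝ) (φ : ℝ → Prop) (Q : A K 4) : Prop :=
  ∀ z ∈ Q.coeff.support, φ (wt (w4 w) z)

lemma Aq.zero (φ : ℝ → Prop) : Aq w φ (0 : A K 4) := by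
  intro z hz
  simp at hz

lemma Aq.add {φ : ℝ → Prop} {Q R : A K 4} (hQ : Aq w φ Q) (hR : Aq w φ R) : Aq w φ (Q + R) := by
  classical
  intro z hz
  rw [MonoidAlgebra.coeff_add] at hz
  rcases Finset.mem_union.mp (Finsupp.support_add hz) with h | h
  · exact hQ z h
  · exact hR z h

lemma Aq.smul {φ : ℝ → Prop} {Q : A K 4} (c : K) (hQ : Aq w φ Q) : Aq w φ (c • Q) := by
  intro z hz
  rw [MonoidAlgebra.coeff_smul] at hz
  exact hQ z (Finsupp.support_smul hz)

lemma Aq.mul {φ ψ χ : ℝ → Prop} {Q R : A K 4} (hQ : Aq w φ Q) (hR : Aq w ψ R)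
    (h : ∀ x y, φ x → ψ y → χ (x + y)) : Aq w χ (Q * R) := by
  intro z hz
  obtain ⟨a, ha, b, hb, rfl⟩ := mem_mul' Q R z hz
  rw [wt_mul]
  exact h _ _ (hQ a ha) (hR b hb)

/-- `Q'` is the part of weight `r` of `Q`, and `Q` has no words of larger weight -/
structure Ap (w : Fin 3 → ℝ) (r : ℝ) (Q Q' : A K 4) : Prop where
  le : Aq w (fun x => x ≤ r) Q
  eq : Aq w (fun x => x = r) Q'
  lt : Aq w (fun x => x < r) (Q - Q')

lemma Ap.zero (r : ℝ) : Ap w r (0 : A K 4) 0 :=
  ⟨Aq.zero _, Aq.zero _, by rw [sub_zero]; exact Aq.zero _⟩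

lemma Ap.refl {r : ℝ} {Q : A K 4} (h : Aq w (fun x => x = r) Q) : Ap w r Q Q :=
  ⟨fun z hz => le_of_eq (h z hz), h, by rw [sub_self]; exact Aq.zero _⟩

lemma Ap.add {r : ℝ} {Q R Q' R' : A K 4} (h : Ap w r Q Q') (h' : Ap w r R R') :
    Ap w r (Q + R) (Q' + R') :=
  ⟨h.le.add h'.le, h.eq.add h'.eq, by
    rw [add_sub_add_comm]; exact h.lt.add h'.lt⟩

lemma Ap.smul {r : ℝ} {Q Q' : A K 4} (c : K) (h : Ap w r Q Q') : Ap w r (c • Q) (c • Q') :=
  ⟨h.le.smul c, h.eq.smul c, by rw [← smul_sub]; exact h.lt.smul c⟩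

lemma Ap.mul {r s t : ℝ} {Q R Q' R' : A K 4} (h : Ap w r Q Q') (h' : Ap w s R R')
    (ht : t = r + s) : Ap w t (Q * R) (Q' * R') := by
  subst ht
  refine ⟨h.le.mul h'.le fun x y hx hy => add_le_add hx hy,
    h.eq.mul h'.eq fun x y hx hy => by rw [hx, hy], ?_⟩
  have e : Q * R - Q' * R' = (Q - Q') * R + Q' * (R - R') := by
    rw [sub_mul, mul_sub]
    abel
  rw [e]
  have h1 : Aq w (fun x => x < r + s) ((Q - Q') * R) :=
    h.lt.mul h'.le fun x y hx hy => add_lt_add_of_lt_of_le hx hy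
  have h2 : Aq w (fun x => x < r + s) (Q' * (R - R')) :=
    h.eq.mul h'.lt fun x y hx hy => by rw [hx]; linarith
  exact h1.add h2

lemma Ap.sum {r : ℝ} {ι : Type*} (s : Finset ι) (F G : ι → A K 4)
    (h : ∀ i ∈ s, Ap w r (F i) (G i)) : Ap w r (∑ i ∈ s, F i) (∑ i ∈ s, G i) := by
  classical
  induction s using Finset.induction_on with
  | empty => simpa using Ap.zero r
  | insert a s ha ih =>
    rw [Finset.sum_insert ha, Finset.sum_insert ha]
    exact (h a (Finset.mem_insert_self a s)).add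
      (ih fun i hi => h i (Finset.mem_insert_of_mem hi))

lemma Ap.em (ht : TopFacts K w) (f : A K 3) (hf : 0 < dg w f) :
    Ap w (dg w f) (em f) (em (top w f)) := by
  refine ⟨?_, ?_, ?_⟩
  · intro z hz
    obtain ⟨u, hu, rfl⟩ := em_supp f z hz
    show wt (w4 w) (ew u) ≤ dg w f
    rw [ew_wt]
    exact le_dgr _ _ _ hu
  · intro z hz
    obtain ⟨u, hu, rfl⟩ := em_supp _ z hz
    show wt (w4 w) (ew u) = dg w f
    rw [ew_wt, ht.hom f u hu, ht.dgt]
  · intro z hz
    rw [← map_sub] at hz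
    obtain ⟨u, hu, rfl⟩ := em_supp _ z hz
    show wt (w4 w) (ew u) < dg w f
    rw [ew_wt]
    exact (le_dgr _ _ _ hu).trans_lt (ht.sub f hf)

lemma Ap.one : Ap w 0 (1 : A K 4) 1 := by
  apply Ap.refl
  intro z hz
  rw [MonoidAlgebra.one_def, MonoidAlgebra.coeff_single] at hz
  rw [Finset.mem_singleton.mp (Finsupp.support_single_subset hz), wt_one]

lemma Ap.three : Ap w 0 (xx 3 : A K 4) (xx 3) := by
  apply Ap.refl
  intro z hz
  rw [xx, MonoidAlgebra.coeff_single] at hz
  rw [Finset.mem_singleton.mp (Finsupp.support_single_subset hz), wt_three]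

lemma Ap.word (ht : TopFacts K w) (f g : A K 3) (hf : 0 < dg w f) (hg : 0 < dg w g) (W : Wd 2) :
    ∀ m : ℕ, Ap w (wt ![dg w f, dg w g] W - m * dg w f)
      (Pm f g (MonoidAlgebra.single W 1) m)
      (Pm (top w f) (top w g) (MonoidAlgebra.single W 1) m) := by
  induction W using FreeMonoid.inductionOn' with
  | one =>
    intro m
    rw [← MonoidAlgebra.one_def, wt_one]
    cases m with
    | zero =>
      rw [Pm_one_zero, Pm_one_zero, Nat.cast_zero, zero_mul, sub_zero]
      exact Ap.one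
    | succ m =>
      rw [Pm_one_succ, Pm_one_succ]
      exact Ap.zero _
  | of_mul i W ih =>
    intro m
    rw [← xx_mul_single, wt_mul, wt_of]
    fin_cases i
    · show Ap w (dg w f + wt ![dg w f, dg w g] W - m * dg w f)
        (Pm f g (xx 0 * MonoidAlgebra.single W 1) m)
        (Pm (top w f) (top w g) (xx 0 * MonoidAlgebra.single W 1) m)
      cases m with
      | zero =>
        rw [Pm_X_zero, Pm_X_zero]
        exact (Ap.em ht f hf).mul (ih 0) (by ring)
      | succ m =>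
        rw [Pm_X_succ, Pm_X_succ]
        refine Ap.add ((Ap.em ht f hf).mul (ih (m + 1)) (by ring))
          (Ap.three.mul (ih m) (by push_cast; ring))
    · show Ap w (dg w g + wt ![dg w f, dg w g] W - m * dg w f)
        (Pm f g (xx 1 * MonoidAlgebra.single W 1) m)
        (Pm (top w f) (top w g) (xx 1 * MonoidAlgebra.single W 1) m)
      rw [Pm_Y, Pm_Y]
      exact (Ap.em ht g hg).mul (ih m) (by ring)

lemma Pm_sum (f g : A K 3) (P : A K 2) (m : ℕ) : Pm f g P m =
    ∑ W ∈ P.coeff.support, P.coeff W • Pm f g (MonoidAlgebra.single W 1) m := by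
  have h1 : PmL f g m P = ∑ W ∈ P.coeff.support,
      P.coeff W • PmL f g m (MonoidAlgebra.single W 1) := by
    conv_lhs => rw [sum_single P]
    rw [map_sum]
    refine Finset.sum_congr rfl fun W _ => ?_
    rw [map_smul]
  exact h1

lemma Ap.pol (ht : TopFacts K w) (f g : A K 3) (hf : 0 < dg w f) (hg : 0 < dg w g) (P : A K 2)
    (m : ℕ) : Ap w (dg ![dg w f, dg w g] P - m * dg w f) (Pm f g P m)
      (Pm (top w f) (top w g) (top ![dg w f, dg w g] P) m) := by
  classical
  rw [Pm_sum f g P m, Pm_sum (top w f) (top w g) (top ![dg w f, dg w g] P) m]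
  have e1 : (top ![dg w f, dg w g] P).coeff.support =
      P.coeff.support.filter (fun W => wt ![dg w f, dg w g] W = dg ![dg w f, dg w g] P) := by
    rw [top, cmp, MonoidAlgebra.coeff_ofCoeff, Finsupp.support_filter]
  rw [e1, Finset.sum_filter]
  refine Ap.sum _ _ _ fun W hW => ?_
  have hle : wt ![dg w f, dg w g] W ≤ dg ![dg w f, dg w g] P := le_dgr _ _ _ hW
  have hA := Ap.word ht f g hf hg W m
  split_ifs with h
  · have e2 : (top ![dg w f, dg w g] P).coeff W = P.coeff W := by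
      rw [top, cmp, MonoidAlgebra.coeff_ofCoeff]
      exact Finsupp.filter_apply_pos (fun u => wt ![dg w f, dg w g] u = dg ![dg w f, dg w g] P)
        P.coeff h
    rw [e2, ← h]
    exact hA.smul _
  · have hlt : wt ![dg w f, dg w g] W < dg ![dg w f, dg w g] P := lt_of_le_of_ne hle h
    have h1 : Aq w (fun x => x < dg ![dg w f, dg w g] P - m * dg w f)
        (P.coeff W • Pm f g (MonoidAlgebra.single W 1) m) := by
      apply Aq.smul
      intro z hz
      have := hA.le z hz
      show wt (w4 w) z < _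
      have h2 : wt (w4 w) z ≤ wt ![dg w f, dg w g] W - m * dg w f := this
      linarith
    exact ⟨fun z hz => (h1 z hz).le, Aq.zero _, by rw [sub_zero]; exact h1⟩

lemma Ap.low {r : ℝ} {Q Q' : A K 4} (h : Ap w r Q Q') (hQ : dg (w4 w) Q < r) : Q' = 0 := by
  by_contra h0
  obtain ⟨z, hz⟩ := ne_supp h0
  have h1 : wt (w4 w) z = r := h.eq z hz
  have h2 : z ∉ Q.coeff.support := by
    intro h3
    have h4 : wt (w4 w) z ≤ dg (w4 w) Q := le_dgr _ _ _ h3
    linarith
  have h3 : z ∈ (Q - Q').coeff.support := by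
    rw [Finsupp.mem_support_iff, MonoidAlgebra.coeff_sub, Finsupp.sub_apply,
      Finsupp.notMem_support_iff.mp h2, zero_sub, neg_ne_zero]
    exact Finsupp.mem_support_iff.mp hz
  have h4 : wt (w4 w) z < r := h.lt z h3
  linarith

lemma Ap.high {r : ℝ} {Q Q' : A K 4} (h : Ap w r Q Q') (hQ : Q' ≠ 0) :
    Q ≠ 0 ∧ r ≤ dg (w4 w) Q := by
  obtain ⟨z, hz⟩ := ne_supp hQ
  have h1 : wt (w4 w) z = r := h.eq z hz
  have h2 : z ∉ (Q - Q').coeff.support := by
    intro h3
    have h4 : wt (w4 w) z < r := h.lt z h3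
    linarith
  rw [Finsupp.notMem_support_iff, MonoidAlgebra.coeff_sub, Finsupp.sub_apply, sub_eq_zero] at h2
  have h3 : z ∈ Q.coeff.support := by
    rw [Finsupp.mem_support_iff, h2]
    exact Finsupp.mem_support_iff.mp hz
  refine ⟨?_, ?_⟩
  · rintro rfl
    simp at h3
  · rw [← h1]
    exact le_dgr _ _ _ h3

/-! ### some part is nonzero -/

lemma evl_id (h : A K 3) : evl (fun i => (xx i : A K 3)) h = h := by
  refine word_ind (p := fun h => evl (fun i => (xx i : A K 3)) h = h) ?_ ?_ ?_ ?_ ?_ h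
  · rw [map_zero]
  · intro P Q hP hQ
    rw [map_add, hP, hQ]
  · intro c P hP
    rw [map_smul, hP]
  · rw [map_one]
  · intro i P hP
    rw [map_mul, hP, evl_xx]

lemma sb_em (t h : A K 3) : sb t (em h) = h := by
  rw [em, comp_evl]
  have e : (fun i : Fin 3 => sb t (xx (Fin.castSucc i))) = fun i => (xx i : A K 3) := by
    funext i
    rw [sb, evl_xx]
    fin_cases i <;> rfl
  rw [e, evl_id]

lemma ev_shift (f g t : A K 3) (P : A K 2) (h : ∀ m, Pm f g P m = 0) : ev P (f + t) g = 0 := by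
  have h1 : Tt f g P = 0 := by
    ext m : 1
    rw [← Pm_eq, h m, Polynomial.coeff_zero]
  have h2 := comp_evl ![Polynomial.C (em f) + Polynomial.C (xx 3) * Polynomial.X,
    Polynomial.C (em g)]
    (Polynomial.eval₂AlgHom (sb t) 1 (fun a => Commute.one_right _)) P
  have h3 : evl ![Polynomial.C (em f) + Polynomial.C (xx 3) * Polynomial.X,
    Polynomial.C (em g)] P = 0 := h1
  rw [h3, map_zero] at h2
  have e : (fun i : Fin 2 => Polynomial.eval₂AlgHom (sb t) 1 (fun a => Commute.one_right _)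
      (![Polynomial.C (em f) + Polynomial.C (xx 3) * Polynomial.X, Polynomial.C (em g)] i)) =
      ![f + t, g] := by
    funext i
    fin_cases i
    · show Polynomial.eval₂ _ 1 (Polynomial.C (em f) + Polynomial.C (xx 3) * Polynomial.X) = f + t
      rw [Polynomial.eval₂_add, Polynomial.eval₂_C, Polynomial.eval₂_mul_X, Polynomial.eval₂_C,
        mul_one]
      have e1 : (sb t : A K 4 →ₐ[K] A K 3) (xx 3) = t := by
        rw [sb, evl_xx]
        rfl
      show sb t (em f) + sb t (xx 3) = f + t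
      rw [sb_em, e1]
    · show Polynomial.eval₂ _ 1 (Polynomial.C (em g)) = g
      rw [Polynomial.eval₂_C]
      exact sb_em t g
  rw [e] at h2
  exact h2.symm

lemma xx_com_ne : (xx 0 : A K 3) * xx 1 ≠ xx 1 * xx 0 := by
  intro h
  rw [xx, xx, MonoidAlgebra.single_mul_single, MonoidAlgebra.single_mul_single] at h
  have h1 := congrArg (fun Q : A K 3 => Q.coeff (FreeMonoid.of 0 * FreeMonoid.of 1)) h
  simp only [MonoidAlgebra.coeff_single] at h1
  rw [Finsupp.single_eq_same, Finsupp.single_eq_of_ne] at h1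
  · exact one_ne_zero (by rw [mul_one] at h1; exact h1)
  · intro h2
    have h3 := congrArg FreeMonoid.toList h2
    simp [FreeMonoid.toList_mul, FreeMonoid.toList_of] at h3

lemma hom_xx (hd : DegFacts K w) (i : Fin 3) : Hom w (xx i : A K 3) := by
  intro u hu
  rw [hd.xx']
  rw [xx, MonoidAlgebra.coeff_single] at hu
  rw [Finset.mem_singleton.mp (Finsupp.support_single_subset hu), wt_of]

lemma exists_letter (hw : Gen w) (hd : DegFacts K w) (ht : TopFacts K w) (hcw : ComwFacts K w)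
    (g : A K 3) (hg : 0 < dg w g) : ∃ i : Fin 3, xx i * g ≠ g * xx i := by
  by_contra hno
  push Not at hno
  have hx : ∀ i : Fin 3, 0 < dg w (xx i : A K 3) := fun i => by
    rw [hd.xx']
    exact hw.pos i
  have hcom : ∀ u v : A K 3, 0 < dg w u → 0 < dg w v → u * v = v * u → Com w u v := by
    intro u v hu hv h
    rw [Com, E, h, sub_self, hd.zero]
    linarith
  have h1 := hcw.trans (xx 0) g (xx 1) (hx 0) hg (hx 1) (hcom _ _ (hx 0) hg (hno 0))
    (hcom _ _ hg (hx 1) (hno 1).symm)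
  rw [ht.com _ _ (hx 0) (hx 1), ht.self _ (hom_xx hd 0), ht.self _ (hom_xx hd 1)] at h1
  exact xx_com_ne h1

lemma exists_part (hw : Gen w) (hd : DegFacts K w) (ht : TopFacts K w) (hcw : ComwFacts K w)
    (he : EFacts K w) (f g : A K 3) (hg : 0 < dg w g) (P : A K 2) (hP : P ≠ 0) :
    ∃ m, Pm f g P m ≠ 0 := by
  by_contra hno
  push Not at hno
  obtain ⟨i, hi⟩ := exists_letter hw hd ht hcw g hg
  have h1 := ev_shift f g (xx i - f) P hno
  rw [add_sub_cancel] at h1
  exact hP (he.inj (xx i) g P hi h1)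

lemma top_pow (ht : TopFacts K w) (hd : DegFacts K w) (g : A K 3) (hg : g ≠ 0) (k : ℕ) :
    top w (g ^ (k + 1)) = (top w g) ^ (k + 1) := by
  induction k with
  | zero => rw [zero_add, pow_one, pow_one]
  | succ k ih => rw [pow_succ, ht.mul _ _ (pow_ne hd g hg _) hg, ih, ← pow_succ]

lemma wt_wg (F G ζ : ℝ) (i j : ℕ) (hF : F = i * ζ) (hG : G = j * ζ) (W : Wd 2) :
    wt ![F, G] W = (wg i j W : ℝ) * ζ := by
  induction W using FreeMonoid.inductionOn' with
  | one =>
    rw [wt_one, wg]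
    simp
  | of_mul k W ih =>
    rw [wt_mul, wt_of, ih]
    fin_cases k
    · show F + (wg i j W : ℝ) * ζ = (wg i j (FreeMonoid.of 0 * W) : ℝ) * ζ
      rw [wg_X, hF]
      push_cast
      ring
    · show G + (wg i j W : ℝ) * ζ = (wg i j (FreeMonoid.of 1 * W) : ℝ) * ζ
      rw [wg_Y, hG]
      push_cast
      ring

theorem noneb (K : Type*) [Field K] (w : Fin 3 → ℝ) (hw : Gen w) (hd : DegFacts K w)
    (ht : TopFacts K w) (hcw : ComwFacts K w) (he : EFacts K w) : NonebStatement K w := by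
  intro f g P hfg hnd hlt hP
  have hf := hnd.pf
  have hg := hnd.pg
  have hgne : g ≠ 0 := by
    rintro rfl
    rw [hd.zero] at hg
    exact lt_irrefl _ hg
  have htf : 0 < dg w (top w f) := by rw [ht.dgt]; exact hf
  have htg : 0 < dg w (top w g) := by rw [ht.dgt]; exact hg
  obtain ⟨z, a, b, i, j, hzh, hz, ha, hb, hi, hj, hfz, hgz⟩ :=
    hcw.root (top w f) (top w g) (ht.hom f) (ht.hom g) htf htg ((ht.com f g hf hg).mp hnd.com)
  have hzne : z ≠ 0 := by
    rintro rfl
    rw [hd.zero] at hz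
    exact lt_irrefl _ hz
  obtain ⟨l, hl⟩ := ht.len z hzh
  have hl0 : 0 < l := by
    obtain ⟨u, hu, hue⟩ := exists_dgr (wt w) z hzne
    by_contra h
    have h1 := hl u hu
    have h2 : u = 1 := FreeMonoid.toList.injective (List.length_eq_zero_iff.mp (by omega))
    rw [dg, hue, h2, wt_one] at hz
    exact lt_irrefl _ hz
  have hF : dg w f = i * dg w z := by
    rw [← ht.dgt f, hfz, hd.smul _ _ ha, hd.pow]
  have hG : dg w g = j * dg w z := by
    rw [← ht.dgt g, hgz, hd.smul _ _ hb, hd.pow]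
  have hji : j < i := by
    rw [hF, hG] at hlt
    exact_mod_cast lt_of_mul_lt_mul_right hlt hz.le
  have hdvd : ¬ j ∣ i := by
    rintro ⟨k, hk⟩
    apply hnd.nfg
    have hk1 : 1 ≤ k := by
      rcases Nat.eq_zero_or_pos k with rfl | h
      · rw [mul_zero] at hk; omega
      · exact h
    obtain ⟨k', rfl⟩ : ∃ k', k = k' + 1 := ⟨k - 1, by omega⟩
    refine ⟨a / b ^ (k' + 1), k' + 1, hk1, ?_⟩
    have hc : a / b ^ (k' + 1) ≠ 0 := div_ne_zero ha (pow_ne_zero _ hb)
    have e1 : top w ((a / b ^ (k' + 1)) • g ^ (k' + 1)) = top w f := by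
      rw [ht.smul, top_pow ht hd g hgne, hgz, hfz, smul_pow, smul_smul, ← pow_mul, ← hk,
        div_mul_cancel₀ _ (pow_ne_zero _ hb)]
    have e2 : dg w f = dg w ((a / b ^ (k' + 1)) • g ^ (k' + 1)) := by
      rw [← ht.dgt f, ← e1, ht.dgt]
    exact (ht.lt f _ hf e2).mpr e1.symm
  -- the top part
  set Pb := top ![dg w f, dg w g] P with hPb
  have hA := fun m => Ap.pol ht f g hf hg P m
  have hPne : P ≠ 0 := by
    rintro rfl
    have h1 := hd.nn (ev (0 : A K 2) f g)
    have h2 : dg ![dg w f, dg w g] (0 : A K 2) = 0 := dgr_zero' _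
    rw [h2] at hP
    linarith
  obtain ⟨W0, hW0, hW0e⟩ := exists_dgr (wt ![dg w f, dg w g]) P hPne
  have hsupp : ∀ W, W ∈ Pb.coeff.support → wt ![dg w f, dg w g] W = dg ![dg w f, dg w g] P := by
    intro W hW
    rw [hPb, top, cmp, MonoidAlgebra.coeff_ofCoeff, Finsupp.support_filter, Finset.mem_filter] at hW
    exact hW.2
  have hPbne : Pb ≠ 0 := by
    intro h0
    have h1 : W0 ∈ Pb.coeff.support := by
      rw [hPb, top, cmp, MonoidAlgebra.coeff_ofCoeff, Finsupp.support_filter, Finset.mem_filter]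
      exact ⟨hW0, hW0e.symm⟩
    rw [h0] at h1
    simp at h1
  have hD : dg ![dg w f, dg w g] P = (wg i j W0 : ℝ) * dg w z := by
    rw [← wt_wg (dg w f) (dg w g) (dg w z) i j hF hG W0]
    exact hW0e
  have hs : ∀ W ∈ Pb.coeff.support, wg i j W = wg i j W0 := by
    intro W hW
    have h1 := hsupp W hW
    rw [wt_wg (dg w f) (dg w g) (dg w z) i j hF hG W, hD] at h1
    have h2 := mul_right_cancel₀ hz.ne' h1
    exact_mod_cast h2
  have h0 : Pm (top w f) (top w g) Pb 0 = 0 := by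
    refine (hA 0).low ?_
    rw [Pm_zero_eq, em_dg, Nat.cast_zero, zero_mul, sub_zero]
    exact hP
  have hex := exists_part hw hd ht hcw he (top w f) (top w g) htg Pb hPbne
  classical
  have hm := Nat.find_spec hex
  have hmin : ∀ k, k < Nat.find hex → Pm (top w f) (top w g) Pb k = 0 := by
    intro k hk
    by_contra h
    exact Nat.find_min hex hk h
  set m := Nat.find hex with hmdef
  have hm1 : 1 ≤ m := by
    rcases Nat.eq_zero_or_pos m with h | h
    · rw [h] at hm
      exact absurd h0 hm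
    · exact h
  have hcl : m * (i + j) ≤ wg i j W0 := by
    rw [hfz, hgz] at hmin hm
    exact claim a b i j hd z hz l hl0 hl hzne ha hb hj hji hdvd m Pb (wg i j W0) hs hmin hm
  obtain ⟨h1, h2⟩ := (hA m).high hm
  refine ⟨m, hm1, ?_, h1, h2⟩
  rw [hD, hF, hG]
  have h3 : ((m * (i + j) : ℕ) : ℝ) ≤ (wg i j W0 : ℝ) := by exact_mod_cast hcl
  have h4 := mul_le_mul_of_nonneg_right h3 hz.le
  push_cast at h4
  linarith

end

end Pool.Agent.Lib.MP_e1f7e2_al.FA.H12
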