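import Pool.Agent.Lib.MP_e1f7e2_al.FA.Iface2
import Pool.Agent.Lib.MP_e1f7e2_al.FA.H74.Chain
import Pool.Agent.Lib.MP_e1f7e2_al.FA.H12.Beta

set_option autoImplicit false

/-!
Project FA (MP_e1f7e2_al): basic properties of `Pm`, `em` (modules NONEA, NONEB).
-/

open MulOpposite

namespace Pool.Agent.Lib.MP_e1f7e2_al.FA.H12

section

variable {K : Type*} [Field K] {n m : ℕ}

/-! ### induction principles -/

lemma xx_mul_single (i : Fin n) (u : Wd n) (c : K) :
    (xx i : A K n) * MonoidAlgebra.single u c = MonoidAlgebra.single (FreeMonoid.of i * u) c := by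
  rw [xx, MonoidAlgebra.single_mul_single, one_mul]

/-- induction for statements closed under linear combinations and multiplication by letters -/
lemma word_ind {p : A K n → Prop} (h0 : p 0) (hadd : ∀ f g, p f → p g → p (f + g))
    (hsmul : ∀ (c : K) (f), p f → p (c • f)) (h1 : p 1) (hx : ∀ i f, p f → p (xx i * f)) :
    ∀ f, p f := by
  have hw : ∀ u : Wd n, p (MonoidAlgebra.single u 1) := by
    intro u
    induction u using FreeMonoid.inductionOn' with
    | one => rw [← MonoidAlgebra.one_def]; exact h1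
    | of_mul i u ih => rw [← xx_mul_single]; exact hx i _ ih
  intro f
  refine MonoidAlgebra.induction_linear f h0 hadd ?_
  intro u c
  rw [H74.single_eq]
  exact hsmul c _ (hw u)

/-- composition of substitutions -/
lemma comp_evl {B : Type*} [Ring B] [Algebra K B] {C : Type*} [Ring C] [Algebra K C]
    (F : Fin n → B) (φ : B →ₐ[K] C) (P : A K n) : φ (evl F P) = evl (fun i => φ (F i)) P := by
  refine word_ind (p := fun P => φ (evl F P) = evl (fun i => φ (F i)) P) ?_ ?_ ?_ ?_ ?_ P
  · rw [map_zero, map_zero, map_zero]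
  · intro f g hf hg
    rw [map_add, map_add, map_add, hf, hg]
  · intro c f hf
    rw [map_smul, map_smul, map_smul, hf]
  · rw [map_one, map_one, map_one]
  · intro i f hf
    rw [map_mul, map_mul, map_mul, hf, xx, H74.evl_single, H74.evl_single, one_smul, one_smul,
      FreeMonoid.lift_eval_of, FreeMonoid.lift_eval_of]

lemma evl_xx {B : Type*} [Ring B] [Algebra K B] (F : Fin n → B) (i : Fin n) :
    evl F (xx i : A K n) = F i := by
  rw [xx, H74.evl_single, one_smul, FreeMonoid.lift_eval_of]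

lemma ne_supp {G : Type*} {f : MonoidAlgebra K G} (hf : f ≠ 0) : ∃ u, u ∈ f.coeff.support := by
  have hne : f.coeff.support.Nonempty := by
    rw [Finsupp.support_nonempty_iff]
    intro h
    exact hf (MonoidAlgebra.coeff_eq_zero.mp h)
  exact hne

lemma dgr_zero' {G : Type*} (ω : G → ℝ) : dgr ω (0 : MonoidAlgebra K G) = 0 := by
  rw [dgr, dif_neg]
  rw [MonoidAlgebra.coeff_zero, Finsupp.support_zero]
  exact Finset.not_nonempty_empty

lemma mem_mul' (u v : A K n) (x : Wd n) (hx : x ∈ (u * v).coeff.support) :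
    ∃ a ∈ u.coeff.support, ∃ b ∈ v.coeff.support, a * b = x := by
  classical
  exact Finset.mem_mul.mp (MonoidAlgebra.support_coeff_mul_subset u v hx)

/-- pushing forward along an injective map that preserves weights -/
noncomputable def push {G H : Type*} (j : G → H) (f : MonoidAlgebra K G) : MonoidAlgebra K H :=
  MonoidAlgebra.ofCoeff (f.coeff.mapDomain j)

lemma push_add {G H : Type*} (j : G → H) (f g : MonoidAlgebra K G) :
    push j (f + g) = push j f + push j g := by
  rw [push, MonoidAlgebra.coeff_add, Finsupp.mapDomain_add]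
  rfl

lemma push_zero {G H : Type*} (j : G → H) : push j (0 : MonoidAlgebra K G) = 0 := by
  rw [push, MonoidAlgebra.coeff_zero, Finsupp.mapDomain_zero]
  rfl

lemma push_single {G H : Type*} (j : G → H) (u : G) (c : K) :
    push j (MonoidAlgebra.single u c) = MonoidAlgebra.single (j u) c := by
  rw [push, MonoidAlgebra.coeff_single, Finsupp.mapDomain_single]
  rfl

lemma push_coeff {G H : Type*} (j : G → H) (hj : Function.Injective j) (f : MonoidAlgebra K G)
    (u : G) : (push j f).coeff (j u) = f.coeff u := by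
  rw [push, MonoidAlgebra.coeff_ofCoeff, Finsupp.mapDomain_apply hj]

lemma push_supp {G H : Type*} (j : G → H) (hj : Function.Injective j) (f : MonoidAlgebra K G)
    (z : H) (hz : z ∈ (push j f).coeff.support) : ∃ u ∈ f.coeff.support, j u = z := by
  classical
  rw [push, MonoidAlgebra.coeff_ofCoeff, Finsupp.mapDomain_support_of_injective hj] at hz
  exact Finset.mem_image.mp hz

lemma push_inj {G H : Type*} (j : G → H) (hj : Function.Injective j) (f : MonoidAlgebra K G)
    (h : push j f = 0) : f = 0 := by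
  by_contra hf
  obtain ⟨u, hu⟩ := ne_supp hf
  have := push_coeff j hj f u
  rw [h, MonoidAlgebra.coeff_zero, Finsupp.zero_apply] at this
  exact Finsupp.mem_support_iff.mp hu this.symm

lemma push_dgr {G H : Type*} (j : G → H) (hj : Function.Injective j) (ω : G → ℝ) (ω' : H → ℝ)
    (hω : ∀ u, ω' (j u) = ω u) (f : MonoidAlgebra K G) : dgr ω' (push j f) = dgr ω f := by
  by_cases hf : f = 0
  · rw [hf, push_zero, dgr_zero', dgr_zero']
  · have hpf : push j f ≠ 0 := fun h => hf (push_inj j hj f h)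
    apply le_antisymm
    · obtain ⟨z, hz, he⟩ := exists_dgr ω' _ hpf
      obtain ⟨u, hu, rfl⟩ := push_supp j hj f z hz
      rw [he, hω]
      exact le_dgr ω f u hu
    · obtain ⟨u, hu, he⟩ := exists_dgr ω _ hf
      rw [he, ← hω]
      apply le_dgr
      rw [Finsupp.mem_support_iff, push_coeff j hj]
      exact Finsupp.mem_support_iff.mp hu

end

section

variable {K : Type*} [Field K]

/-! ### the inclusion `em` -/

/-- inclusion of words -/
def ew : Wd 3 →* Wd 4 := FreeMonoid.map Fin.castSucc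

lemma ew_of (i : Fin 3) : ew (FreeMonoid.of i) = FreeMonoid.of (Fin.castSucc i) := rfl

lemma ew_inj : Function.Injective ew := by
  intro u v h
  have h1 : u.toList.map Fin.castSucc = v.toList.map Fin.castSucc := by
    rw [← FreeMonoid.toList_map, ← FreeMonoid.toList_map]
    exact congrArg FreeMonoid.toList h
  exact FreeMonoid.toList.injective
    (List.map_injective_iff.mpr (Fin.castSucc_injective 3) h1)

lemma ew_count (u : Wd 3) : (ew u).toList.count 3 = 0 := by
  induction u using FreeMonoid.inductionOn' with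
  | one => rfl
  | of_mul i u ih =>
    rw [map_mul, FreeMonoid.toList_mul, List.count_append, ih, ew_of, FreeMonoid.toList_of]
    fin_cases i <;> rfl

lemma ew_wt (w : Fin 3 → ℝ) (u : Wd 3) : wt (w4 w) (ew u) = wt w u := by
  induction u using FreeMonoid.inductionOn' with
  | one => rw [map_one, wt_one, wt_one]
  | of_mul i u ih =>
    rw [map_mul, wt_mul, wt_mul, ih, ew_of, wt_of, wt_of]
    fin_cases i <;> rfl

lemma wt_three (w : Fin 3 → ℝ) : wt (w4 w) (FreeMonoid.of (3 : Fin 4)) = 0 := by
  rw [wt_of]; rfl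

lemma em_eq (f : A K 3) : em f = push ew f := by
  refine word_ind (p := fun f => em f = push ew f) ?_ ?_ ?_ ?_ ?_ f
  · rw [map_zero, push_zero]
  · intro f g hf hg
    rw [map_add, push_add, hf, hg]
  · intro c f hf
    rw [map_smul, hf, push, push, MonoidAlgebra.coeff_smul, Finsupp.mapDomain_smul]
    rfl
  · rw [map_one, MonoidAlgebra.one_def, MonoidAlgebra.one_def, push_single, map_one]
  · intro i f hf
    rw [map_mul, hf, em, evl_xx]
    refine MonoidAlgebra.induction_linear f ?_ ?_ ?_
    · rw [push_zero, mul_zero, mul_zero, push_zero]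
    · intro f g hf hg
      rw [push_add, mul_add, mul_add, push_add, hf, hg]
    · intro u c
      rw [push_single, xx_mul_single, xx_mul_single, push_single, map_mul]
      rfl

lemma em_dg (w : Fin 3 → ℝ) (f : A K 3) : dg (w4 w) (em f) = dg w f := by
  rw [em_eq]
  exact push_dgr ew ew_inj (wt w) (wt (w4 w)) (ew_wt w) f

lemma em_inj (f : A K 3) (h : em f = 0) : f = 0 := by
  rw [em_eq] at h
  exact push_inj ew ew_inj f h

lemma em_supp (f : A K 3) (z : Wd 4) (hz : z ∈ (em f).coeff.support) :
    ∃ u ∈ f.coeff.support, ew u = z := by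
  rw [em_eq] at hz
  exact push_supp ew ew_inj f z hz

lemma em_coeff (f : A K 3) (u : Wd 3) : (em f).coeff (ew u) = f.coeff u := by
  rw [em_eq]
  exact push_coeff ew ew_inj f u

/-! ### number of letters `3` -/

/-- all words have exactly `k` letters `3` -/
def C3 (k : ℕ) (Q : A K 4) : Prop := ∀ z ∈ Q.coeff.support, z.toList.count 3 = k

lemma C3.zero (k : ℕ) : C3 k (0 : A K 4) := by
  intro z hz
  simp at hz

lemma C3.add {k : ℕ} {Q R : A K 4} (hQ : C3 k Q) (hR : C3 k R) : C3 k (Q + R) := by
  classical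
  intro z hz
  rw [MonoidAlgebra.coeff_add] at hz
  rcases Finset.mem_union.mp (Finsupp.support_add hz) with h | h
  · exact hQ z h
  · exact hR z h

lemma C3.smul {k : ℕ} {Q : A K 4} (c : K) (hQ : C3 k Q) : C3 k (c • Q) := by
  intro z hz
  rw [MonoidAlgebra.coeff_smul] at hz
  exact hQ z (Finsupp.support_smul hz)

lemma C3.mul {k l : ℕ} {Q R : A K 4} (hQ : C3 k Q) (hR : C3 l R) : C3 (k + l) (Q * R) := by
  intro z hz
  obtain ⟨a, ha, b, hb, rfl⟩ := mem_mul' Q R z hz
  rw [FreeMonoid.toList_mul, List.count_append, hQ a ha, hR b hb]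

lemma C3.em (f : A K 3) : C3 0 (em f) := by
  intro z hz
  obtain ⟨u, _, rfl⟩ := em_supp f z hz
  exact ew_count u

lemma C3.one : C3 0 (1 : A K 4) := by
  rw [← map_one (FA.em (K := K))]
  exact C3.em 1

lemma C3.three : C3 1 (xx 3 : A K 4) := by
  intro z hz
  rw [xx, MonoidAlgebra.coeff_single] at hz
  have := Finsupp.support_single_subset hz
  rw [Finset.mem_singleton.mp this]
  rfl

/-! ### `Pm` -/

/-- `X ↦ f + s y`, `Y ↦ g` -/
noncomputable def Tt (f g : A K 3) : A K 2 →ₐ[K] Polynomial (A K 4) :=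
  evl ![Polynomial.C (em f) + Polynomial.C (xx 3) * Polynomial.X, Polynomial.C (em g)]

/-- `X ↦ f`, `Y ↦ g`, `y ↦ s y` -/
noncomputable def Tt' (f g : A K 3) : A K 3 →ₐ[K] Polynomial (A K 4) :=
  evl ![Polynomial.C (em f), Polynomial.C (em g), Polynomial.C (xx 3) * Polynomial.X]

lemma Tt'_single (f g : A K 3) (u : Wd 3) :
    FreeMonoid.lift ![Polynomial.C (em f), Polynomial.C (em g),
      Polynomial.C (xx 3) * Polynomial.X] u =
    Polynomial.C (FreeMonoid.lift ![em f, em g, xx 3] u) *
      (Polynomial.X ^ (u.toList.count 2) : Polynomial (A K 4)) := by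
  induction u using FreeMonoid.inductionOn' with
  | one => simp
  | of_mul i u ih =>
    rw [map_mul, map_mul, ih, FreeMonoid.lift_eval_of, FreeMonoid.lift_eval_of,
      FreeMonoid.toList_mul, List.count_append, FreeMonoid.toList_of, Polynomial.C_mul]
    fin_cases i
    · simp [mul_assoc]
    · simp [mul_assoc]
    · simp only [Fin.reduceFinMk, Matrix.cons_val, List.count_singleton_self]
      rw [mul_assoc, ← mul_assoc Polynomial.X, Polynomial.X_mul_C, mul_assoc, ← mul_assoc,
        add_comm, pow_succ', ← mul_assoc]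

lemma Pm_eq' (f g : A K 3) (Q : A K 3) (m : ℕ) :
    evl ![em f, em g, xx 3] (cnt 2 m Q) = (Tt' f g Q).coeff m := by
  refine MonoidAlgebra.induction_linear Q ?_ ?_ ?_
  · rw [cnt, MonoidAlgebra.coeff_zero, Finsupp.filter_zero, MonoidAlgebra.ofCoeff_zero, map_zero,
      map_zero, Polynomial.coeff_zero]
  · intro P R hP hR
    rw [cnt, MonoidAlgebra.coeff_add, Finsupp.filter_add, MonoidAlgebra.ofCoeff_add, map_add,
      map_add, Polynomial.coeff_add, ← hP, ← hR]
    rfl
  · intro u c
    rw [Tt', H74.evl_single, Tt'_single, Polynomial.coeff_smul, Polynomial.coeff_C_mul,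
      Polynomial.coeff_X_pow]
    by_cases h : u.toList.count 2 = m
    · have e : cnt 2 m (MonoidAlgebra.single u c : A K 3) = MonoidAlgebra.single u c := by
        rw [cnt, MonoidAlgebra.coeff_single, Finsupp.filter_single_of_pos
          (fun u : Wd 3 => u.toList.count 2 = m) h]
        rfl
      rw [e, H74.evl_single, if_pos h.symm, mul_one]
    · have e : cnt 2 m (MonoidAlgebra.single u c : A K 3) = 0 := by
        rw [cnt, MonoidAlgebra.coeff_single, Finsupp.filter_single_of_neg
          (fun u : Wd 3 => u.toList.count 2 = m) h]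
        rfl
      rw [e, map_zero, if_neg (fun h' => h h'.symm), mul_zero, smul_zero]

lemma Pm_eq (f g : A K 3) (P : A K 2) (m : ℕ) : Pm f g P m = (Tt f g P).coeff m := by
  rw [Pm, Pm_eq', comp_evl, Tt]
  congr 3
  funext i
  fin_cases i
  · show Tt' f g (xx 0 + xx 2) = _
    rw [map_add, Tt', evl_xx, evl_xx]
    rfl
  · show Tt' f g (xx 1) = _
    rw [Tt', evl_xx]
    rfl

lemma Pm_add (f g : A K 3) (P Q : A K 2) (m : ℕ) :
    Pm f g (P + Q) m = Pm f g P m + Pm f g Q m := by
  rw [Pm_eq, Pm_eq, Pm_eq, map_add, Polynomial.coeff_add]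

lemma Pm_smul (f g : A K 3) (c : K) (P : A K 2) (m : ℕ) :
    Pm f g (c • P) m = c • Pm f g P m := by
  rw [Pm_eq, Pm_eq, map_smul, Polynomial.coeff_smul]

lemma Pm_zero (f g : A K 3) (m : ℕ) : Pm f g 0 m = 0 := by
  rw [Pm_eq, map_zero, Polynomial.coeff_zero]

lemma Pm_one_zero (f g : A K 3) : Pm f g 1 0 = 1 := by
  rw [Pm_eq, map_one, Polynomial.coeff_one_zero]

lemma Pm_one_succ (f g : A K 3) (m : ℕ) : Pm f g 1 (m + 1) = 0 := by
  rw [Pm_eq, map_one, Polynomial.coeff_one, if_neg (by omega)]

lemma Pm_X_zero (f g : A K 3) (P : A K 2) : Pm f g (xx 0 * P) 0 = em f * Pm f g P 0 := by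
  rw [Pm_eq, Pm_eq, map_mul]
  have e : Tt f g (xx 0) = Polynomial.C (em f) + Polynomial.C (xx 3) * Polynomial.X := by
    rw [Tt, evl_xx]; rfl
  rw [e, add_mul, Polynomial.coeff_add, Polynomial.coeff_C_mul, mul_assoc, Polynomial.coeff_C_mul,
    Polynomial.coeff_X_mul_zero, mul_zero, add_zero]

lemma Pm_X_succ (f g : A K 3) (P : A K 2) (m : ℕ) :
    Pm f g (xx 0 * P) (m + 1) = em f * Pm f g P (m + 1) + xx 3 * Pm f g P m := by
  rw [Pm_eq, Pm_eq, Pm_eq, map_mul]
  have e : Tt f g (xx 0) = Polynomial.C (em f) + Polynomial.C (xx 3) * Polynomial.X := by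
    rw [Tt, evl_xx]; rfl
  rw [e, add_mul, Polynomial.coeff_add, Polynomial.coeff_C_mul, mul_assoc, Polynomial.coeff_C_mul,
    Polynomial.coeff_X_mul]

lemma Pm_Y (f g : A K 3) (P : A K 2) (m : ℕ) :
    Pm f g (xx 1 * P) m = em g * Pm f g P m := by
  rw [Pm_eq, Pm_eq, map_mul]
  have e : Tt f g (xx 1) = Polynomial.C (em g) := by
    rw [Tt, evl_xx]; rfl
  rw [e, Polynomial.coeff_C_mul]

/-- the `y`-degree is right -/
lemma Pm_C3 (f g : A K 3) (P : A K 2) : ∀ m, C3 m (Pm f g P m) := by
  refine word_ind (p := fun P => ∀ m, C3 m (Pm f g P m)) ?_ ?_ ?_ ?_ ?_ P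
  · intro m
    rw [Pm_zero]
    exact C3.zero m
  · intro P Q hP hQ m
    rw [Pm_add]
    exact (hP m).add (hQ m)
  · intro c P hP m
    rw [Pm_smul]
    exact (hP m).smul c
  · intro m
    cases m with
    | zero => rw [Pm_one_zero]; exact C3.one
    | succ m => rw [Pm_one_succ]; exact C3.zero _
  · intro i P hP m
    fin_cases i
    · cases m with
      | zero =>
        show C3 0 (Pm f g (xx 0 * P) 0)
        rw [Pm_X_zero]
        exact (C3.em f).mul (hP 0)
      | succ m =>
        show C3 (m + 1) (Pm f g (xx 0 * P) (m + 1))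
        rw [Pm_X_succ]
        refine C3.add ?_ ?_
        · have := (C3.em f).mul (hP (m + 1))
          rwa [zero_add] at this
        · have := C3.three.mul (hP m)
          rwa [add_comm] at this
    · show C3 m (Pm f g (xx 1 * P) m)
      rw [Pm_Y]
      have := (C3.em g).mul (hP m)
      rwa [zero_add] at this

lemma ev_mul (P Q : A K 2) (f g : A K 3) : ev (P * Q) f g = ev P f g * ev Q f g := map_mul _ _ _

lemma ev_xx0 (f g : A K 3) : ev (xx 0 : A K 2) f g = f := by
  rw [ev, evl_xx]; rfl

lemma ev_xx1 (f g : A K 3) : ev (xx 1 : A K 2) f g = g := by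
  rw [ev, evl_xx]; rfl

lemma Pm_zero_eq (f g : A K 3) (P : A K 2) : Pm f g P 0 = em (ev P f g) := by
  refine word_ind (p := fun P => Pm f g P 0 = em (ev P f g)) ?_ ?_ ?_ ?_ ?_ P
  · rw [Pm_zero, ev, map_zero, map_zero]
  · intro P Q hP hQ
    rw [Pm_add, hP, hQ, ev, ev, ev, map_add, map_add]
  · intro c P hP
    rw [Pm_smul, hP, ev, ev, map_smul, map_smul]
  · rw [Pm_one_zero, ev, map_one, map_one]
  · intro i P hP
    fin_cases i
    · show Pm f g (xx 0 * P) 0 = em (ev (xx 0 * P) f g)
      rw [Pm_X_zero, hP, ev_mul, ev_xx0, map_mul]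
    · show Pm f g (xx 1 * P) 0 = em (ev (xx 1 * P) f g)
      rw [Pm_Y, hP, ev_mul, ev_xx1, map_mul]

end

end Pool.Agent.Lib.MP_e1f7e2_al.FA.H12
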