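import Pool.Agent.Lib.MP_e1f7e2_al.FA.H12.PmBase
import Pool.Agent.Lib.MP_e1f7e2_al.FA.H12.Nonea

set_option autoImplicit false

/-!
Project FA (MP_e1f7e2_al): module NONEB, algebraic part.  `F = a z ^ p`, `G = b z ^ q`.
-/

open MulOpposite

namespace Pool.Agent.Lib.MP_e1f7e2_al.FA.H12

section

variable {K : Type*} [Field K]

/-- `Pm` as a linear map in `P` -/
noncomputable def PmL (f g : A K 3) (m : ℕ) : A K 2 →ₗ[K] A K 4 where
  toFun P := Pm f g P m
  map_add' P Q := Pm_add f g P Q m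
  map_smul' c P := Pm_smul f g c P m

/-- all words of `h` have length `L` -/
def Ln (L : ℕ) (h : A K 3) : Prop := ∀ u ∈ h.coeff.support, u.toList.length = L

lemma Ln.mul {L M : ℕ} {h k : A K 3} (hh : Ln L h) (hk : Ln M k) : Ln (L + M) (h * k) := by
  intro z hz
  obtain ⟨a, ha, b, hb, rfl⟩ := mem_mul' h k z hz
  rw [FreeMonoid.toList_mul, List.length_append, hh a ha, hk b hb]

lemma Ln.one : Ln 0 (1 : A K 3) := by
  intro z hz
  rw [MonoidAlgebra.one_def, MonoidAlgebra.coeff_single] at hz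
  rw [Finset.mem_singleton.mp (Finsupp.support_single_subset hz)]
  rfl

lemma Ln.pow {L : ℕ} {h : A K 3} (hh : Ln L h) (n : ℕ) : Ln (n * L) (h ^ n) := by
  induction n with
  | zero => rw [pow_zero, zero_mul]; exact Ln.one
  | succ n ih =>
    rw [pow_succ, Nat.succ_mul]
    exact ih.mul hh

lemma ew_length (u : Wd 3) : (ew u).toList.length = u.toList.length := by
  induction u using FreeMonoid.inductionOn' with
  | one => rfl
  | of_mul i u ih =>
    rw [map_mul, FreeMonoid.toList_mul, FreeMonoid.toList_mul, List.length_append,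
      List.length_append, ih, ew_of]
    rfl

/-- coefficients of `em h * Q`, `h` homogeneous for the length -/
lemma em_mul_coeff {L : ℕ} {h : A K 3} (hh : Ln L h) (Q : A K 4) (u : Wd 3) (z : Wd 4)
    (hu : u.toList.length = L) : (em h * Q).coeff (ew u * z) = h.coeff u * Q.coeff z := by
  rw [← em_coeff]
  apply MonoidAlgebra.coeff_mul_mul_of_uniqueMul
  intro a b ha hb hab
  obtain ⟨u', hu', rfl⟩ := em_supp h a ha
  have h1 : (ew u').toList ++ b.toList = (ew u).toList ++ z.toList := by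
    rw [← FreeMonoid.toList_mul, ← FreeMonoid.toList_mul, hab]
  have h2 := List.append_inj h1 (by rw [ew_length, ew_length, hh u' hu', hu])
  exact ⟨FreeMonoid.toList.injective h2.1, FreeMonoid.toList.injective h2.2⟩

lemma em_mul_eq_zero {L : ℕ} {h : A K 3} (hh : Ln L h) (h0 : h ≠ 0) (Q : A K 4)
    (hQ : em h * Q = 0) : Q = 0 := by
  obtain ⟨u, hu⟩ := ne_supp h0
  rw [← MonoidAlgebra.coeff_inj]
  refine Finsupp.ext fun z => ?_
  have h1 := em_mul_coeff hh Q u z (hh u hu)
  rw [hQ, MonoidAlgebra.coeff_zero, Finsupp.zero_apply] at h1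
  rcases mul_eq_zero.mp h1.symm with h2 | h2
  · exact absurd h2 (Finsupp.mem_support_iff.mp hu)
  · rw [h2, MonoidAlgebra.coeff_zero, Finsupp.zero_apply]

/-! ### the left quotient by `u y` -/

lemma lq_inj (u : Wd 3) : Function.Injective (fun Z : Wd 4 => ew u * (FreeMonoid.of 3 * Z)) := by
  intro U U' h
  exact mul_left_cancel (mul_left_cancel h)

/-- the left quotient by `u y` -/
noncomputable def LQ (u : Wd 3) (Q : A K 4) : A K 4 :=
  MonoidAlgebra.ofCoeff
    (Q.coeff.comapDomain (fun Z : Wd 4 => ew u * (FreeMonoid.of 3 * Z)) (lq_inj u).injOn)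

lemma LQ_coeff (u : Wd 3) (Q : A K 4) (Z : Wd 4) :
    (LQ u Q).coeff Z = Q.coeff (ew u * (FreeMonoid.of 3 * Z)) := by
  rw [LQ, MonoidAlgebra.coeff_ofCoeff, Finsupp.comapDomain_apply]

lemma LQ_add (u : Wd 3) (Q R : A K 4) : LQ u (Q + R) = LQ u Q + LQ u R := by
  rw [← MonoidAlgebra.coeff_inj]
  refine Finsupp.ext fun U => ?_
  rw [MonoidAlgebra.coeff_add, Finsupp.add_apply, LQ_coeff, LQ_coeff, LQ_coeff,
    MonoidAlgebra.coeff_add, Finsupp.add_apply]

lemma LQ_zero (u : Wd 3) : LQ u (0 : A K 4) = 0 := by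
  rw [← MonoidAlgebra.coeff_inj]
  refine Finsupp.ext fun U => ?_
  rw [LQ_coeff, MonoidAlgebra.coeff_zero, Finsupp.zero_apply, Finsupp.zero_apply]

lemma LQ_em (u : Wd 3) (h : A K 3) (Q : A K 4) :
    LQ u (em h * (xx 3 * Q)) = h.coeff u • Q := by
  rw [← MonoidAlgebra.coeff_inj]
  refine Finsupp.ext fun Z => ?_
  rw [LQ_coeff, MonoidAlgebra.coeff_smul_apply, smul_eq_mul, ← em_coeff,
    ← xx_mul_coeff_same 3 Q Z]
  apply MonoidAlgebra.coeff_mul_mul_of_uniqueMul
  intro a b ha hb hab
  obtain ⟨u', hu', rfl⟩ := em_supp h a ha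
  obtain ⟨c, hc, d, hd, rfl⟩ := mem_mul' (xx 3) Q b hb
  rw [xx, MonoidAlgebra.coeff_single] at hc
  have hc' := Finset.mem_singleton.mp (Finsupp.support_single_subset hc)
  subst hc'
  obtain ⟨h1, h2⟩ := word_split_unique (ew u') (ew u) d Z (by rw [ew_count, ew_count])
    (by rw [mul_assoc, mul_assoc]; exact hab)
  exact ⟨h1, by rw [h2]⟩

/-! ### generating polynomials -/

/-- the matrices for `U` -/
noncomputable def MU (a b : K) (p q : ℕ) : Fin 2 → Matrix (Fin 2) (Fin 2) (Polynomial (A K 2)) :=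
  ![!![a • Polynomial.X ^ p, 1; 0, Polynomial.C (xx 0)],
    !![b • Polynomial.X ^ q, 0; 0, Polynomial.C (xx 1)]]

/-- the matrices for `V` -/
noncomputable def MV (a b : K) (p q : ℕ) : Fin 2 → Matrix (Fin 2) (Fin 2) (Polynomial (A K 2)) :=
  ![!![a • Polynomial.X ^ p, 0; 0, Polynomial.C (xx 0)],
    !![b • Polynomial.X ^ q, 1; 0, Polynomial.C (xx 1)]]

variable (a b : K) (p q : ℕ)

lemma MU_low (P : A K 2) : (evl (MU a b p q) P) 1 0 = 0 ∧
    (evl (MU a b p q) P) 1 1 = Polynomial.C P := by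
  refine word_ind (p := fun P => (evl (MU a b p q) P) 1 0 = 0 ∧
    (evl (MU a b p q) P) 1 1 = Polynomial.C P) ?_ ?_ ?_ ?_ ?_ P
  · rw [map_zero, map_zero]
    exact ⟨rfl, rfl⟩
  · rintro P Q ⟨h1, h2⟩ ⟨h3, h4⟩
    rw [map_add, map_add, Matrix.add_apply, Matrix.add_apply, h1, h2, h3, h4, add_zero]
    exact ⟨rfl, rfl⟩
  · rintro c P ⟨h1, h2⟩
    rw [map_smul, Matrix.smul_apply, Matrix.smul_apply, h1, h2, smul_zero, Polynomial.smul_C]
    exact ⟨rfl, rfl⟩
  · rw [map_one, map_one]
    exact ⟨rfl, rfl⟩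
  · rintro i P ⟨h1, h2⟩
    rw [map_mul, Matrix.mul_apply, Matrix.mul_apply, Fin.sum_univ_two, Fin.sum_univ_two, h1, h2,
      evl_xx, Polynomial.C_mul]
    fin_cases i <;> simp [MU]

lemma MV_low (P : A K 2) : (evl (MV a b p q) P) 1 0 = 0 ∧
    (evl (MV a b p q) P) 1 1 = Polynomial.C P := by
  refine word_ind (p := fun P => (evl (MV a b p q) P) 1 0 = 0 ∧
    (evl (MV a b p q) P) 1 1 = Polynomial.C P) ?_ ?_ ?_ ?_ ?_ P
  · rw [map_zero, map_zero]
    exact ⟨rfl, rfl⟩
  · rintro P Q ⟨h1, h2⟩ ⟨h3, h4⟩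
    rw [map_add, map_add, Matrix.add_apply, Matrix.add_apply, h1, h2, h3, h4, add_zero]
    exact ⟨rfl, rfl⟩
  · rintro c P ⟨h1, h2⟩
    rw [map_smul, Matrix.smul_apply, Matrix.smul_apply, h1, h2, smul_zero, Polynomial.smul_C]
    exact ⟨rfl, rfl⟩
  · rw [map_one, map_one]
    exact ⟨rfl, rfl⟩
  · rintro i P ⟨h1, h2⟩
    rw [map_mul, Matrix.mul_apply, Matrix.mul_apply, Fin.sum_univ_two, Fin.sum_univ_two, h1, h2,
      evl_xx, Polynomial.C_mul]
    fin_cases i <;> simp [MV]

/-- sum of the suffixes after a letter `X`, with `u ^ (weight of the prefix)` -/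
noncomputable def UU : A K 2 →ₗ[K] Polynomial (A K 2) where
  toFun P := (evl (MU a b p q) P) 0 1
  map_add' P Q := by rw [map_add, Matrix.add_apply]
  map_smul' c P := by rw [map_smul, Matrix.smul_apply]; rfl

/-- sum of the suffixes after a letter `Y`, with `u ^ (weight of the prefix)` -/
noncomputable def VV : A K 2 →ₗ[K] Polynomial (A K 2) where
  toFun P := (evl (MV a b p q) P) 0 1
  map_add' P Q := by rw [map_add, Matrix.add_apply]
  map_smul' c P := by rw [map_smul, Matrix.smul_apply]; rfl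

/-- the value at `X = a u ^ p`, `Y = b u ^ q` -/
noncomputable def AA : A K 2 →ₐ[K] Polynomial (A K 2) :=
  evl ![a • Polynomial.X ^ p, b • Polynomial.X ^ q]

lemma MU_0_0_0 : MU a b p q 0 0 0 = (a • Polynomial.X ^ p : Polynomial (A K 2)) := rfl
lemma MU_0_0_1 : MU a b p q 0 0 1 = (1 : Polynomial (A K 2)) := rfl
lemma MU_1_0_0 : MU a b p q 1 0 0 = (b • Polynomial.X ^ q : Polynomial (A K 2)) := rfl
lemma MU_1_0_1 : MU a b p q 1 0 1 = (0 : Polynomial (A K 2)) := rfl
lemma MV_0_0_0 : MV a b p q 0 0 0 = (a • Polynomial.X ^ p : Polynomial (A K 2)) := rfl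
lemma MV_0_0_1 : MV a b p q 0 0 1 = (0 : Polynomial (A K 2)) := rfl
lemma MV_1_0_0 : MV a b p q 1 0 0 = (b • Polynomial.X ^ q : Polynomial (A K 2)) := rfl
lemma MV_1_0_1 : MV a b p q 1 0 1 = (1 : Polynomial (A K 2)) := rfl

lemma UU_apply (P : A K 2) : UU a b p q P = (evl (MU a b p q) P) 0 1 := rfl

lemma VV_apply (P : A K 2) : VV a b p q P = (evl (MV a b p q) P) 0 1 := rfl

lemma UU_one : UU a b p q 1 = 0 := by
  rw [UU_apply, map_one]
  rfl

lemma UU_X (P : A K 2) : UU a b p q (xx 0 * P) =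
    (a • Polynomial.X ^ p : Polynomial (A K 2)) * UU a b p q P + Polynomial.C P := by
  rw [UU_apply, map_mul, Matrix.mul_apply, Fin.sum_univ_two, evl_xx, (MU_low a b p q P).2,
    MU_0_0_0, MU_0_0_1, one_mul, ← UU_apply]

lemma UU_Y (P : A K 2) : UU a b p q (xx 1 * P) =
    (b • Polynomial.X ^ q : Polynomial (A K 2)) * UU a b p q P := by
  rw [UU_apply, map_mul, Matrix.mul_apply, Fin.sum_univ_two, evl_xx, (MU_low a b p q P).2,
    MU_1_0_0, MU_1_0_1, zero_mul, add_zero, ← UU_apply]

lemma VV_one : VV a b p q 1 = 0 := by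
  rw [VV_apply, map_one]
  rfl

lemma VV_X (P : A K 2) : VV a b p q (xx 0 * P) =
    (a • Polynomial.X ^ p : Polynomial (A K 2)) * VV a b p q P := by
  rw [VV_apply, map_mul, Matrix.mul_apply, Fin.sum_univ_two, evl_xx, (MV_low a b p q P).2,
    MV_0_0_0, MV_0_0_1, zero_mul, add_zero, ← VV_apply]

lemma VV_Y (P : A K 2) : VV a b p q (xx 1 * P) =
    (b • Polynomial.X ^ q : Polynomial (A K 2)) * VV a b p q P + Polynomial.C P := by
  rw [VV_apply, map_mul, Matrix.mul_apply, Fin.sum_univ_two, evl_xx, (MV_low a b p q P).2,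
    MV_1_0_0, MV_1_0_1, one_mul, ← VV_apply]

lemma comm_X (c : K) (n : ℕ) (Q : Polynomial (A K 2)) :
    Q * (c • Polynomial.X ^ n) = (c • Polynomial.X ^ n) * Q := by
  rw [mul_smul_comm, smul_mul_assoc, Polynomial.X_pow_mul]

/-- conservation law -/
lemma conserve (P : A K 2) :
    (Polynomial.C (xx 0) - a • Polynomial.X ^ p) * UU a b p q P +
      (Polynomial.C (xx 1) - b • Polynomial.X ^ q) * VV a b p q P =
    Polynomial.C P - AA a b p q P := by
  refine word_ind (p := fun P => (Polynomial.C (xx 0) - a • Polynomial.X ^ p) * UU a b p q P +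
      (Polynomial.C (xx 1) - b • Polynomial.X ^ q) * VV a b p q P =
    Polynomial.C P - AA a b p q P) ?_ ?_ ?_ ?_ ?_ P
  · rw [map_zero (UU a b p q), map_zero (VV a b p q), map_zero (AA a b p q), mul_zero, mul_zero,
      add_zero, Polynomial.C_0, sub_zero]
  · intro P Q hP hQ
    rw [map_add (UU a b p q), map_add (VV a b p q), map_add (AA a b p q), Polynomial.C_add, mul_add, mul_add, add_sub_add_comm, ← hP, ← hQ]
    abel
  · intro c P hP
    rw [map_smul (UU a b p q), map_smul (VV a b p q), map_smul (AA a b p q), mul_smul_comm,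
      mul_smul_comm, ← smul_add, hP, ← Polynomial.smul_C, smul_sub]
  · rw [UU_one, VV_one, map_one (AA a b p q), Polynomial.C_1, mul_zero, mul_zero, add_zero,
      sub_self]
  · intro i P hP
    fin_cases i
    · show (Polynomial.C (xx 0) - a • Polynomial.X ^ p) * UU a b p q (xx 0 * P) +
        (Polynomial.C (xx 1) - b • Polynomial.X ^ q) * VV a b p q (xx 0 * P) =
        Polynomial.C (xx 0 * P) - AA a b p q (xx 0 * P)
      have e : AA a b p q (xx 0 * P) = (a • Polynomial.X ^ p) * AA a b p q P := by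
        rw [map_mul (AA a b p q), AA, evl_xx]
        rfl
      rw [UU_X, VV_X, e, mul_add, ← mul_assoc, comm_X, mul_assoc, ← mul_assoc (_ - _) (a • _),
        comm_X, mul_assoc, add_right_comm, ← mul_add, hP, mul_sub, sub_mul, Polynomial.C_mul]
      abel
    · show (Polynomial.C (xx 0) - a • Polynomial.X ^ p) * UU a b p q (xx 1 * P) +
        (Polynomial.C (xx 1) - b • Polynomial.X ^ q) * VV a b p q (xx 1 * P) =
        Polynomial.C (xx 1 * P) - AA a b p q (xx 1 * P)
      have e : AA a b p q (xx 1 * P) = (b • Polynomial.X ^ q) * AA a b p q P := by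
        rw [map_mul (AA a b p q), AA, evl_xx]
        rfl
      rw [UU_Y, VV_Y, e, mul_add, ← mul_assoc, comm_X, mul_assoc, ← mul_assoc (_ - _) (b • _),
        comm_X, mul_assoc, ← add_assoc, ← mul_add, hP, mul_sub, sub_mul, Polynomial.C_mul]
      abel

/-! ### `F = a z ^ p`, `G = b z ^ q` -/

/-- `∑ u^n Q_n ↦ ∑ z^n y Q_n^(k)` -/
noncomputable def Lam (f g z : A K 3) (k : ℕ) : Polynomial (A K 2) →ₗ[K] A K 4 :=
  Polynomial.lsum (fun n => (LinearMap.mulLeft K (em (z ^ n) * xx 3)).comp (PmL f g k))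

lemma Lam_monomial (f g z : A K 3) (k n : ℕ) (Q : A K 2) :
    Lam f g z k (Polynomial.monomial n Q) = em (z ^ n) * (xx 3 * Pm f g Q k) := by
  rw [Lam, Polynomial.lsum_apply, Polynomial.sum_monomial_index]
  · rw [← mul_assoc]
    rfl
  · exact map_zero _

lemma Lam_C (f g z : A K 3) (k : ℕ) (Q : A K 2) :
    Lam f g z k (Polynomial.C Q) = xx 3 * Pm f g Q k := by
  rw [← Polynomial.monomial_zero_left, Lam_monomial, pow_zero, map_one, one_mul]

lemma Lam_X (f g z : A K 3) (k r : ℕ) (c : K) (Q : Polynomial (A K 2)) :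
    Lam f g z k ((c • Polynomial.X ^ r) * Q) = em (c • z ^ r) * Lam f g z k Q := by
  refine Polynomial.induction_on' (motive := fun Q => Lam f g z k ((c • Polynomial.X ^ r) * Q) =
    em (c • z ^ r) * Lam f g z k Q) Q ?_ ?_
  · intro P Q hP hQ
    rw [mul_add, map_add, map_add, mul_add, hP, hQ]
  · intro n q
    rw [smul_mul_assoc, map_smul (Lam f g z k), Polynomial.X_pow_mul_monomial, Lam_monomial,
      Lam_monomial, map_smul em, smul_mul_assoc, add_comm, pow_add, map_mul em, mul_assoc]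

lemma expand (z : A K 3) (P : A K 2) (k : ℕ) :
    Pm (a • z ^ p) (b • z ^ q) P (k + 1) =
      Lam (a • z ^ p) (b • z ^ q) z k (UU a b p q P) := by
  refine word_ind (p := fun P => Pm (a • z ^ p) (b • z ^ q) P (k + 1) =
      Lam (a • z ^ p) (b • z ^ q) z k (UU a b p q P)) ?_ ?_ ?_ ?_ ?_ P
  · rw [map_zero (UU a b p q), map_zero (Lam _ _ z k), Pm_zero]
  · intro P Q hP hQ
    rw [map_add (UU a b p q), map_add (Lam _ _ z k), Pm_add, hP, hQ]
  · intro c P hP
    rw [map_smul (UU a b p q), map_smul (Lam _ _ z k), Pm_smul, hP]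
  · rw [UU_one, map_zero (Lam _ _ z k), Pm_one_succ]
  · intro i P hP
    fin_cases i
    · show Pm (a • z ^ p) (b • z ^ q) (xx 0 * P) (k + 1) =
        Lam (a • z ^ p) (b • z ^ q) z k (UU a b p q (xx 0 * P))
      rw [UU_X, map_add (Lam _ _ z k), Lam_X, Lam_C, Pm_X_succ, hP]
    · show Pm (a • z ^ p) (b • z ^ q) (xx 1 * P) (k + 1) =
        Lam (a • z ^ p) (b • z ^ q) z k (UU a b p q (xx 1 * P))
      rw [UU_Y, Lam_X, Pm_Y, hP]

lemma LQ_Lam (f g z : A K 3) (l : ℕ) (hl : 0 < l) (hz : Ln l z) (k n : ℕ) (u : Wd 3)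
    (hu : u.toList.length = n * l) (Q : Polynomial (A K 2)) :
    LQ u (Lam f g z k Q) = (z ^ n).coeff u • Pm f g (Q.coeff n) k := by
  refine Polynomial.induction_on' (motive := fun Q => LQ u (Lam f g z k Q) =
    (z ^ n).coeff u • Pm f g (Q.coeff n) k) Q ?_ ?_
  · intro P Q hP hQ
    rw [map_add, LQ_add, hP, hQ, Polynomial.coeff_add, Pm_add, smul_add]
  · intro m q
    rw [Lam_monomial, LQ_em, Polynomial.coeff_monomial]
    by_cases h : m = n
    · rw [h, if_pos rfl]
    · rw [if_neg h, Pm_zero, smul_zero]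
      have h0 : (z ^ m).coeff u = 0 := by
        by_contra h1
        have h2 := (hz.pow m) u (Finsupp.mem_support_iff.mpr h1)
        rw [hu] at h2
        exact h (Nat.eq_of_mul_eq_mul_right hl h2).symm
      rw [h0, zero_smul]

/-- independence -/
lemma Lam_inj (f g z : A K 3) (l : ℕ) (hl : 0 < l) (hz : Ln l z) (hz0 : ∀ n, z ^ n ≠ 0) (k : ℕ)
    (Q : Polynomial (A K 2)) (h : Lam f g z k Q = 0) (n : ℕ) : Pm f g (Q.coeff n) k = 0 := by
  obtain ⟨u, hu⟩ := ne_supp (hz0 n)
  have h1 := LQ_Lam f g z l hl hz k n u (hz.pow n u hu) Q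
  rw [h, LQ_zero] at h1
  rcases smul_eq_zero.mp h1.symm with h2 | h2
  · exact absurd h2 (Finsupp.mem_support_iff.mp hu)
  · exact h2

lemma Lam_zero' (f g z : A K 3) (k : ℕ) (Q : Polynomial (A K 2))
    (h : ∀ n, Pm f g (Q.coeff n) k = 0) : Lam f g z k Q = 0 := by
  rw [Lam, Polynomial.lsum_apply, Polynomial.sum_def]
  refine Finset.sum_eq_zero fun n _ => ?_
  show em (z ^ n) * xx 3 * Pm f g (Q.coeff n) k = 0
  rw [h n, mul_zero]

lemma UU_small (hqp : q < p) (P : A K 2) :
    ∀ j, 0 < j → j < q → (UU a b p q P).coeff j = 0 := by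
  refine word_ind (p := fun P => ∀ j, 0 < j → j < q → (UU a b p q P).coeff j = 0)
    ?_ ?_ ?_ ?_ ?_ P
  · intro j _ _
    rw [map_zero, Polynomial.coeff_zero]
  · intro P Q hP hQ j h1 h2
    rw [map_add, Polynomial.coeff_add, hP j h1 h2, hQ j h1 h2, add_zero]
  · intro c P hP j h1 h2
    rw [map_smul, Polynomial.coeff_smul, hP j h1 h2, smul_zero]
  · intro j _ _
    rw [UU_one, Polynomial.coeff_zero]
  · intro i P hP j h1 h2
    fin_cases i
    · show (UU a b p q (xx 0 * P)).coeff j = 0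
      rw [UU_X, Polynomial.coeff_add, smul_mul_assoc, Polynomial.coeff_smul,
        Polynomial.coeff_X_pow_mul', if_neg (by omega), smul_zero, zero_add, Polynomial.coeff_C,
        if_neg (by omega)]
    · show (UU a b p q (xx 1 * P)).coeff j = 0
      rw [UU_Y, smul_mul_assoc, Polynomial.coeff_smul, Polynomial.coeff_X_pow_mul',
        if_neg (by omega), smul_zero]

/-- the weight `p # X + q # Y` -/
def wg (W : Wd 2) : ℕ := p * W.toList.count 0 + q * W.toList.count 1

lemma wg_X (W : Wd 2) : wg p q (FreeMonoid.of 0 * W) = p + wg p q W := by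
  rw [wg, wg, FreeMonoid.toList_mul, FreeMonoid.toList_of, List.singleton_append,
    List.count_cons_self, List.count_cons_of_ne (by decide)]
  ring

lemma wg_Y (W : Wd 2) : wg p q (FreeMonoid.of 1 * W) = q + wg p q W := by
  rw [wg, wg, FreeMonoid.toList_mul, FreeMonoid.toList_of, List.singleton_append,
    List.count_cons_self, List.count_cons_of_ne (by decide)]
  ring

lemma UU_wg_word (W : Wd 2) : ∀ (j : ℕ) (V : Wd 2),
    V ∈ ((UU a b p q (MonoidAlgebra.single W 1)).coeff j).coeff.support →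
    wg p q V + p + j = wg p q W := by
  induction W using FreeMonoid.inductionOn' with
  | one =>
    intro j V hV
    rw [← MonoidAlgebra.one_def, UU_one, Polynomial.coeff_zero] at hV
    simp at hV
  | of_mul i W ih =>
    intro j V hV
    rw [← xx_mul_single] at hV
    fin_cases i
    · have e : (UU a b p q (xx 0 * MonoidAlgebra.single W 1)).coeff j =
          a • (if p ≤ j then (UU a b p q (MonoidAlgebra.single W 1)).coeff (j - p) else 0) +
          (if j = 0 then MonoidAlgebra.single W 1 else 0) := by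
        rw [UU_X, Polynomial.coeff_add, smul_mul_assoc, Polynomial.coeff_smul,
          Polynomial.coeff_X_pow_mul', Polynomial.coeff_C]
      have hV' : V ∈ (a • (if p ≤ j then (UU a b p q (MonoidAlgebra.single W 1)).coeff (j - p)
          else 0) + (if j = 0 then MonoidAlgebra.single W 1 else 0) : A K 2).coeff.support := by
        rw [← e]; exact hV
      classical
      rw [MonoidAlgebra.coeff_add] at hV'
      show wg p q V + p + j = wg p q (FreeMonoid.of 0 * W)
      rw [wg_X]
      rcases Finset.mem_union.mp (Finsupp.support_add hV') with h | h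
      · rw [MonoidAlgebra.coeff_smul] at h
        have h1 := Finsupp.support_smul h
        by_cases hj : p ≤ j
        · rw [if_pos hj] at h1
          have := ih (j - p) V h1
          omega
        · rw [if_neg hj] at h1
          simp at h1
      · by_cases hj : j = 0
        · rw [if_pos hj, MonoidAlgebra.coeff_single] at h
          rw [Finset.mem_singleton.mp (Finsupp.support_single_subset h), hj]
          omega
        · rw [if_neg hj] at h
          simp at h
    · have e : (UU a b p q (xx 1 * MonoidAlgebra.single W 1)).coeff j =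
          b • (if q ≤ j then (UU a b p q (MonoidAlgebra.single W 1)).coeff (j - q) else 0) := by
        rw [UU_Y, smul_mul_assoc, Polynomial.coeff_smul, Polynomial.coeff_X_pow_mul']
      have hV' : V ∈ (b • (if q ≤ j then (UU a b p q (MonoidAlgebra.single W 1)).coeff (j - q)
          else 0) : A K 2).coeff.support := by
        rw [← e]; exact hV
      show wg p q V + p + j = wg p q (FreeMonoid.of 1 * W)
      rw [wg_Y]
      rw [MonoidAlgebra.coeff_smul] at hV'
      have h1 := Finsupp.support_smul hV'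
      by_cases hj : q ≤ j
      · rw [if_pos hj] at h1
        have := ih (j - q) V h1
        omega
      · rw [if_neg hj] at h1
        simp at h1

lemma sum_single (P : A K 2) : P = ∑ W ∈ P.coeff.support, P.coeff W • MonoidAlgebra.single W 1 := by
  conv_lhs => rw [← MonoidAlgebra.sum_coeff_single P]
  rw [Finsupp.sum]
  refine Finset.sum_congr rfl fun W _ => ?_
  rw [← H74.single_eq]

lemma UU_wg (P : A K 2) (j : ℕ) (V : Wd 2)
    (hV : V ∈ ((UU a b p q P).coeff j).coeff.support) :
    ∃ W ∈ P.coeff.support, wg p q V + p + j = wg p q W := by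
  classical
  by_contra hno
  push Not at hno
  have e : ((UU a b p q P).coeff j).coeff V = 0 := by
    have h1 : UU a b p q P = ∑ W ∈ P.coeff.support,
        P.coeff W • UU a b p q (MonoidAlgebra.single W 1) := by
      conv_lhs => rw [sum_single P]
      rw [map_sum]
      refine Finset.sum_congr rfl fun W _ => ?_
      rw [map_smul]
    rw [h1, Polynomial.finsetSum_coeff, MonoidAlgebra.coeff_sum, Finsupp.finsetSum_apply]
    refine Finset.sum_eq_zero fun W hW => ?_
    rw [Polynomial.coeff_smul, MonoidAlgebra.coeff_smul_apply]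
    have h2 : ((UU a b p q (MonoidAlgebra.single W 1)).coeff j).coeff V = 0 := by
      by_contra h3
      exact hno W hW (UU_wg_word a b p q W j V (Finsupp.mem_support_iff.mpr h3))
    rw [h2, smul_zero]
  exact Finsupp.mem_support_iff.mp hV e

end

end Pool.Agent.Lib.MP_e1f7e2_al.FA.H12
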