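import Pool.Agent.Lib.MP_e1f7e2_al.FA.H12.Slot

set_option autoImplicit false

/-!
Project FA (MP_e1f7e2_al): module NONEB, step (2) of (N1).
-/

open MulOpposite

namespace Pool.Agent.Lib.MP_e1f7e2_al.FA.H12

section

variable {K : Type*} [Field K] (a b : K) (p q : ℕ)

/-- the value at `X = a u ^ p`, `Y = b u ^ q` -/
noncomputable def AK : A K 2 →ₐ[K] Polynomial K :=
  evl ![Polynomial.C a * Polynomial.X ^ p, Polynomial.C b * Polynomial.X ^ q]

lemma AA_coeff (P : A K 2) : ∀ j, (AA a b p q P).coeff j = (AK a b p q P).coeff j • (1 : A K 2) := by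
  refine word_ind (p := fun P => ∀ j, (AA a b p q P).coeff j =
    (AK a b p q P).coeff j • (1 : A K 2)) ?_ ?_ ?_ ?_ ?_ P
  · intro j
    rw [map_zero (AA a b p q), map_zero (AK a b p q), Polynomial.coeff_zero, Polynomial.coeff_zero,
      zero_smul]
  · intro P Q hP hQ j
    rw [map_add (AA a b p q), map_add (AK a b p q), Polynomial.coeff_add, Polynomial.coeff_add,
      hP, hQ, add_smul]
  · intro c P hP j
    rw [map_smul (AA a b p q), map_smul (AK a b p q), Polynomial.coeff_smul,
      Polynomial.coeff_smul, hP, smul_eq_mul, mul_smul]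
  · intro j
    rw [map_one (AA a b p q), map_one (AK a b p q), Polynomial.coeff_one, Polynomial.coeff_one]
    split_ifs
    · rw [one_smul]
    · rw [zero_smul]
  · intro i P hP j
    fin_cases i
    · show (AA a b p q (xx 0 * P)).coeff j = (AK a b p q (xx 0 * P)).coeff j • (1 : A K 2)
      have e1 : AA a b p q (xx 0 * P) = (a • Polynomial.X ^ p) * AA a b p q P := by
        rw [map_mul (AA a b p q), AA, evl_xx]
        rfl
      have e2 : AK a b p q (xx 0 * P) =
          (Polynomial.C a * Polynomial.X ^ p) * AK a b p q P := by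
        rw [map_mul (AK a b p q), AK, evl_xx]
        rfl
      rw [e1, e2, smul_mul_assoc, Polynomial.coeff_smul, Polynomial.coeff_X_pow_mul', mul_assoc,
        Polynomial.coeff_C_mul, Polynomial.coeff_X_pow_mul']
      split_ifs
      · rw [hP, mul_smul]
      · rw [smul_zero, mul_zero, zero_smul]
    · show (AA a b p q (xx 1 * P)).coeff j = (AK a b p q (xx 1 * P)).coeff j • (1 : A K 2)
      have e1 : AA a b p q (xx 1 * P) = (b • Polynomial.X ^ q) * AA a b p q P := by
        rw [map_mul (AA a b p q), AA, evl_xx]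
        rfl
      have e2 : AK a b p q (xx 1 * P) =
          (Polynomial.C b * Polynomial.X ^ q) * AK a b p q P := by
        rw [map_mul (AK a b p q), AK, evl_xx]
        rfl
      rw [e1, e2, smul_mul_assoc, Polynomial.coeff_smul, Polynomial.coeff_X_pow_mul', mul_assoc,
        Polynomial.coeff_C_mul, Polynomial.coeff_X_pow_mul']
      split_ifs
      · rw [hP, mul_smul]
      · rw [smul_zero, mul_zero, zero_smul]

lemma ev_AK (z : A K 3) (P : A K 2) :
    ev P (a • z ^ p) (b • z ^ q) = Polynomial.aeval z (AK a b p q P) := by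
  refine word_ind (p := fun P => ev P (a • z ^ p) (b • z ^ q) =
    Polynomial.aeval z (AK a b p q P)) ?_ ?_ ?_ ?_ ?_ P
  · rw [ev, map_zero, map_zero, map_zero]
  · intro P Q hP hQ
    rw [map_add (AK a b p q), map_add (Polynomial.aeval z), ← hP, ← hQ, ev, map_add]
    rfl
  · intro c P hP
    rw [map_smul (AK a b p q), map_smul (Polynomial.aeval z), ← hP, ev, map_smul]
    rfl
  · rw [ev, map_one, map_one, map_one]
  · intro i P hP
    fin_cases i
    · show ev (xx 0 * P) (a • z ^ p) (b • z ^ q) = Polynomial.aeval z (AK a b p q (xx 0 * P))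
      have e2 : AK a b p q (xx 0 * P) =
          (Polynomial.C a * Polynomial.X ^ p) * AK a b p q P := by
        rw [map_mul (AK a b p q), AK, evl_xx]
        rfl
      rw [e2, map_mul (Polynomial.aeval z), map_mul (Polynomial.aeval z),
        map_pow (Polynomial.aeval z), Polynomial.aeval_C, Polynomial.aeval_X, ← hP, ev_mul,
        ev_xx0, Algebra.smul_def]
    · show ev (xx 1 * P) (a • z ^ p) (b • z ^ q) = Polynomial.aeval z (AK a b p q (xx 1 * P))
      have e2 : AK a b p q (xx 1 * P) =
          (Polynomial.C b * Polynomial.X ^ q) * AK a b p q P := by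
        rw [map_mul (AK a b p q), AK, evl_xx]
        rfl
      rw [e2, map_mul (Polynomial.aeval z), map_mul (Polynomial.aeval z),
        map_pow (Polynomial.aeval z), Polynomial.aeval_C, Polynomial.aeval_X, ← hP, ev_mul,
        ev_xx1, Algebra.smul_def]

lemma aeval_inj {w : Fin 3 → ℝ} (hd : DegFacts K w) (z : A K 3) (hz : 0 < dg w z)
    (R : Polynomial K) (h : Polynomial.aeval z R = 0) : R = 0 := by
  by_cases h0 : R.natDegree = 0
  · rw [Polynomial.natDegree_eq_zero] at h0
    obtain ⟨c, rfl⟩ := h0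
    rw [Polynomial.aeval_C, Algebra.algebraMap_eq_smul_one] at h
    rcases smul_eq_zero.mp h with h1 | h1
    · rw [h1, Polynomial.C_0]
    · exact absurd h1 one_ne_zero
  · have h1 := hd.poly z R hz
    rw [h, hd.zero] at h1
    have h2 : (0 : ℝ) < R.natDegree := by exact_mod_cast Nat.pos_of_ne_zero h0
    have := mul_pos h2 hz
    linarith

/-- the recurrence between the parts -/
lemma rel {w : Fin 3 → ℝ} (hd : DegFacts K w) (z : A K 3) (hz : 0 < dg w z) (l : ℕ) (hl : 0 < l)
    (hzl : Ln l z) (hz0 : ∀ n, z ^ n ≠ 0) (P : A K 2) (k : ℕ)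
    (hP : Pm (a • z ^ p) (b • z ^ q) P k = 0) (j : ℕ) :
    em (a • z ^ p) * Pm (a • z ^ p) (b • z ^ q) ((UU a b p q P).coeff j) k +
      em (b • z ^ q) * Pm (a • z ^ p) (b • z ^ q) ((VV a b p q P).coeff j) k =
    a • (if p ≤ j then Pm (a • z ^ p) (b • z ^ q) ((UU a b p q P).coeff (j - p)) k else 0) +
      b • (if q ≤ j then Pm (a • z ^ p) (b • z ^ q) ((VV a b p q P).coeff (j - q)) k else 0) := by
  set f := a • z ^ p with hf
  set g := b • z ^ q with hg
  have h1 : xx 0 * (UU a b p q P).coeff j + xx 1 * (VV a b p q P).coeff j =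
      a • (if p ≤ j then (UU a b p q P).coeff (j - p) else 0) +
      b • (if q ≤ j then (VV a b p q P).coeff (j - q) else 0) +
      ((if j = 0 then P else 0) - (AK a b p q P).coeff j • (1 : A K 2)) := by
    have h2 := congrArg (fun R : Polynomial (A K 2) => R.coeff j) (conserve a b p q P)
    simp only [sub_mul, Polynomial.coeff_add, Polynomial.coeff_sub, Polynomial.coeff_C_mul,
      smul_mul_assoc, Polynomial.coeff_smul, Polynomial.coeff_X_pow_mul', Polynomial.coeff_C] at h2
    rw [AA_coeff] at h2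
    rw [← h2]
    abel
  have h3 : Pm f g ((if j = 0 then P else 0) - (AK a b p q P).coeff j • (1 : A K 2)) k = 0 := by
    have e : (if j = 0 then P else 0) - (AK a b p q P).coeff j • (1 : A K 2) =
        (if j = 0 then P else 0) + (-(AK a b p q P).coeff j) • (1 : A K 2) := by
      rw [neg_smul, sub_eq_add_neg]
    rw [e, Pm_add, Pm_smul]
    have h4 : Pm f g (if j = 0 then P else 0) k = 0 := by
      split_ifs
      · exact hP
      · exact Pm_zero f g k
    rw [h4, zero_add]
    cases k with
    | zero =>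
      have h5 : AK a b p q P = 0 := by
        apply aeval_inj hd z hz
        rw [← ev_AK]
        apply em_inj
        rw [← Pm_zero_eq]
        exact hP
      rw [h5, Polynomial.coeff_zero, neg_zero, zero_smul]
    | succ k => rw [Pm_one_succ, smul_zero]
  have h6 := congrArg (fun Q => Pm f g Q k) h1
  simp only [Pm_add, Pm_smul] at h6
  rw [h3, add_zero, Pm_Y] at h6
  have h7 : Pm f g (xx 0 * (UU a b p q P).coeff j) k =
      em f * Pm f g ((UU a b p q P).coeff j) k := by
    cases k with
    | zero => rw [Pm_X_zero]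
    | succ k =>
      rw [Pm_X_succ]
      have h8 : Pm f g ((UU a b p q P).coeff j) k = 0 := by
        apply Lam_inj f g z l hl hzl hz0 k
        rw [hf, hg, ← expand a b p q z P k]
        exact hP
      rw [h8, mul_zero, add_zero]
  rw [h7] at h6
  rw [h6]
  congr 2
  · split_ifs
    · rfl
    · exact Pm_zero f g k
  · split_ifs
    · rfl
    · exact Pm_zero f g k

lemma pow_ne {w : Fin 3 → ℝ} (hd : DegFacts K w) (z : A K 3) (hz : z ≠ 0) (n : ℕ) : z ^ n ≠ 0 := by
  induction n with
  | zero => rw [pow_zero]; exact one_ne_zero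
  | succ n ih =>
    intro h
    rw [pow_succ] at h
    rcases hd.dom _ _ h with h1 | h1
    · exact ih h1
    · exact hz h1

lemma slot {w : Fin 3 → ℝ} (hd : DegFacts K w) (z : A K 3) (hz : 0 < dg w z) (l : ℕ) (hl : 0 < l)
    (hzl : Ln l z) (hz0 : z ≠ 0) (ha : a ≠ 0) (hb : b ≠ 0) (hq : 0 < q) (hqp : q < p)
    (hdvd : ¬ q ∣ p) (P : A K 2) (k : ℕ)
    (hP : Pm (a • z ^ p) (b • z ^ q) P k = 0) (hP' : Pm (a • z ^ p) (b • z ^ q) P (k + 1) ≠ 0) :
    ∃ j, q ≤ j ∧ Pm (a • z ^ p) (b • z ^ q) ((UU a b p q P).coeff j) k ≠ 0 := by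
  by_contra hno
  push Not at hno
  have hzn := pow_ne hd z hz0
  have hR := rel a b p q hd z hz l hl hzl hzn P k hP
  have hN : ∀ j, 0 < j → Pm (a • z ^ p) (b • z ^ q) ((UU a b p q P).coeff j) k = 0 := by
    intro j hj
    by_cases hjq : q ≤ j
    · exact hno j hjq
    · rw [UU_small a b p q hqp P j hj (by omega), Pm_zero]
  have hsm : ∀ (c : K) (n : ℕ), c ≠ 0 → c • z ^ n ≠ 0 := by
    intro c n hc h
    rcases smul_eq_zero.mp h with h1 | h1
    · exact hc h1
    · exact hzn n h1
  have hsl : ∀ (c : K) (n : ℕ), Ln (n * l) (c • z ^ n) := by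
    intro c n u hu
    rw [MonoidAlgebra.coeff_smul] at hu
    exact (hzl.pow n) u (Finsupp.support_smul hu)
  -- descent along the multiples of `q`
  have hM : ∀ i : ℕ, Pm (a • z ^ p) (b • z ^ q) ((VV a b p q P).coeff (i * q)) k = 0 := by
    have hdesc : ∀ i : ℕ, Pm (a • z ^ p) (b • z ^ q) ((VV a b p q P).coeff ((i + 1) * q)) k = 0 →
        Pm (a • z ^ p) (b • z ^ q) ((VV a b p q P).coeff (i * q)) k = 0 := by
      intro i hi
      have h1 := hR ((i + 1) * q)
      have hpos : 0 < (i + 1) * q := Nat.mul_pos (by omega) hq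
      have hqle : q ≤ (i + 1) * q := Nat.le_mul_of_pos_left q (by omega)
      have h2 : (if p ≤ (i + 1) * q then Pm (a • z ^ p) (b • z ^ q)
          ((UU a b p q P).coeff ((i + 1) * q - p)) k else 0) = 0 := by
        split_ifs with h3
        · apply hN
          rcases Nat.lt_or_ge 0 ((i + 1) * q - p) with h4 | h4
          · exact h4
          · exfalso
            have h5 : p = (i + 1) * q := by omega
            exact hdvd ⟨i + 1, by rw [h5, mul_comm]⟩
        · rfl
      rw [hN _ hpos, hi, h2, if_pos hqle, mul_zero, mul_zero, add_zero, smul_zero, zero_add] at h1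
      have h6 : (i + 1) * q - q = i * q := by
        rw [Nat.succ_mul]
        omega
      rw [h6] at h1
      rcases smul_eq_zero.mp h1.symm with h7 | h7
      · exact absurd h7 hb
      · exact h7
    have hbig : ∀ i : ℕ, (VV a b p q P).natDegree < i →
        Pm (a • z ^ p) (b • z ^ q) ((VV a b p q P).coeff (i * q)) k = 0 := by
      intro i hi
      rw [Polynomial.coeff_eq_zero_of_natDegree_lt, Pm_zero]
      exact hi.trans_le (Nat.le_mul_of_pos_right i hq)
    intro i
    have hdown : ∀ n : ℕ, ∀ i : ℕ, i + n = (VV a b p q P).natDegree + 1 + i →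
        Pm (a • z ^ p) (b • z ^ q) ((VV a b p q P).coeff (i * q)) k = 0 := by
      intro n
      have : ∀ n i : ℕ, (VV a b p q P).natDegree < i + n →
          Pm (a • z ^ p) (b • z ^ q) ((VV a b p q P).coeff (i * q)) k = 0 := by
        intro n
        induction n with
        | zero => intro i hi; exact hbig i (by omega)
        | succ n ih => intro i hi; exact hdesc i (ih (i + 1) (by omega))
      intro i hi
      exact this n i (by omega)
    exact hdown ((VV a b p q P).natDegree + 1) i (by omega)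
  have h0 := hR 0
  have hM0 := hM 0
  rw [zero_mul] at hM0
  rw [hM0, if_neg (by omega), if_neg (by omega), mul_zero, add_zero, smul_zero, smul_zero,
    add_zero] at h0
  have hN0 := em_mul_eq_zero (hsl a p) (hsm a p ha) _ h0
  apply hP'
  rw [expand]
  apply Lam_zero'
  intro n
  rcases Nat.eq_zero_or_pos n with rfl | hn
  · exact hN0
  · exact hN n hn

theorem claim {w : Fin 3 → ℝ} (hd : DegFacts K w) (z : A K 3) (hz : 0 < dg w z) (l : ℕ)
    (hl : 0 < l) (hzl : Ln l z) (hz0 : z ≠ 0) (ha : a ≠ 0) (hb : b ≠ 0) (hq : 0 < q) (hqp : q < p)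
    (hdvd : ¬ q ∣ p) : ∀ (m : ℕ) (P : A K 2) (s : ℕ), (∀ W ∈ P.coeff.support, wg p q W = s) →
      (∀ k, k < m → Pm (a • z ^ p) (b • z ^ q) P k = 0) →
      Pm (a • z ^ p) (b • z ^ q) P m ≠ 0 → m * (p + q) ≤ s := by
  intro m
  induction m with
  | zero =>
    intro P s _ _ _
    rw [zero_mul]
    exact Nat.zero_le s
  | succ m ih =>
    intro P s hs hlt hne
    obtain ⟨j, hjq, hj⟩ := slot a b p q hd z hz l hl hzl hz0 ha hb hq hqp hdvd P m
      (hlt m (by omega)) hne
    have hU0 : (UU a b p q P).coeff j ≠ 0 := by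
      intro h
      rw [h, Pm_zero] at hj
      exact hj rfl
    have hU : ∀ V ∈ ((UU a b p q P).coeff j).coeff.support, wg p q V + p + j = s := by
      intro V hV
      obtain ⟨W, hW, he⟩ := UU_wg a b p q P j V hV
      rw [he, hs W hW]
    obtain ⟨V0, hV0⟩ := ne_supp hU0
    have h1 := hU V0 hV0
    have h2 := ih ((UU a b p q P).coeff j) (s - p - j) (fun V hV => by
      have := hU V hV
      omega) (fun k hk => by
        apply Lam_inj (a • z ^ p) (b • z ^ q) z l hl hzl (pow_ne hd z hz0) k
        rw [← expand a b p q z P k]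
        exact hlt (k + 1) (by omega)) hj
    rw [Nat.succ_mul]
    omega

end

end Pool.Agent.Lib.MP_e1f7e2_al.FA.H12
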