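import Pool.Agent.Lib.MP_e1f7e2_al.FA.Iface
import Pool.Agent.Lib.MP_e1f7e2_al.FA.H12.Beta

set_option autoImplicit false

/-!
Project FA (MP_e1f7e2_al): module SPEC, `b(u, v) = 0` implies `u v = v u` for homogeneous `u, v`.
-/

open MulOpposite

namespace Pool.Agent.Lib.MP_e1f7e2_al.FA.H12

section

variable {K : Type*} [Field K] {N : ℕ} [NeZero N] {w : Fin 3 → ℝ}

/-! ### the specialisation `a' ↦ s a'` -/

/-- `a' ↦ s a'` -/
noncomputable def sg' (K : Type*) [Field K] (N : ℕ) [NeZero N] :
    RR K N →ₐ[K] Polynomial (RR K N) :=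
  MvPolynomial.aeval (fun v : Bool × Fin 3 × ZMod N =>
    if v.1 then Polynomial.X * Polynomial.C (MvPolynomial.X v) else
      Polynomial.C (MvPolynomial.X v))

/-- `a' ↦ s a'` on matrices -/
noncomputable def sM (M : MM K N) : Matrix (Ix N) (Ix N) (Polynomial (RR K N)) :=
  (sg' K N).toRingHom.mapMatrix M

/-- constant matrices -/
noncomputable def cM (M : MM K N) : Matrix (Ix N) (Ix N) (Polynomial (RR K N)) :=
  (Polynomial.C : RR K N →+* Polynomial (RR K N)).mapMatrix M

lemma sM_apply (M : MM K N) (i j : Ix N) : sM M i j = sg' K N (M i j) := rfl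

lemma cM_apply (M : MM K N) (i j : Ix N) : cM M i j = Polynomial.C (M i j) := rfl

lemma sM_mul (M M' : MM K N) : sM (M * M') = sM M * sM M' := map_mul _ _ _

lemma cM_mul (M M' : MM K N) : cM (M * M') = cM M * cM M' := map_mul _ _ _

lemma sM_add (M M' : MM K N) : sM (M + M') = sM M + sM M' := map_add _ _ _

lemma sM_sub (M M' : MM K N) : sM (M - M') = sM M - sM M' := map_sub _ _ _

lemma sM_one : sM (1 : MM K N) = 1 := map_one _

lemma cM_one : cM (1 : MM K N) = 1 := map_one _

lemma sM_Lm (i : Fin 3) : sM (Lm i : MM K N) = cM (Lm i) := by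
  refine Matrix.ext fun p q => ?_
  rw [sM_apply, cM_apply, Lm]
  split_ifs
  · rw [sg', MvPolynomial.aeval_X]
    rfl
  · rw [map_zero, map_zero]

lemma sM_Rm (i : Fin 3) : sM (Rm i : MM K N) = (Polynomial.X : Polynomial (RR K N)) •
    cM (Rm i : MM K N) := by
  refine Matrix.ext fun p q => ?_
  rw [Matrix.smul_apply, sM_apply, cM_apply, Rm]
  split_ifs
  · rw [sg', MvPolynomial.aeval_X]
    rfl
  · rw [map_zero, map_zero, smul_zero]

/-- left words -/
noncomputable def lw (u : Wd 3) : MM K N :=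
  evl (K := K) (Lm (K := K) (N := N)) (MonoidAlgebra.single u 1)

/-- right words -/
noncomputable def rw' (u : Wd 3) : MM K N :=
  (evl (K := K) (fun i => op (Rm (K := K) (N := N) i)) (MonoidAlgebra.single u 1)).unop

lemma lw_one : (lw 1 : MM K N) = 1 := by
  rw [lw, ← MonoidAlgebra.one_def, map_one]

lemma rw'_one : (rw' 1 : MM K N) = 1 := by
  rw [rw', ← MonoidAlgebra.one_def, map_one, unop_one]

lemma lw_cons (i : Fin 3) (u : Wd 3) : (lw (FreeMonoid.of i * u) : MM K N) = Lm i * lw u := by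
  rw [lw, lw, evl, MonoidAlgebra.lift_single, MonoidAlgebra.lift_single, one_smul, one_smul,
    map_mul, FreeMonoid.lift_eval_of]

lemma rw'_cons (i : Fin 3) (u : Wd 3) : (rw' (FreeMonoid.of i * u) : MM K N) = rw' u * Rm i := by
  rw [rw', rw', evl, MonoidAlgebra.lift_single, MonoidAlgebra.lift_single, one_smul, one_smul,
    map_mul, FreeMonoid.lift_eval_of, unop_mul, unop_op]

lemma sM_lw (u : Wd 3) : sM (lw u : MM K N) = cM (lw u) := by
  induction u using FreeMonoid.inductionOn' with
  | one => rw [lw_one, sM_one, cM_one]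
  | of_mul i u ih => rw [lw_cons, sM_mul, cM_mul, ih, sM_Lm]

lemma sM_rw (u : Wd 3) : sM (rw' u : MM K N) =
    (Polynomial.X ^ u.toList.length : Polynomial (RR K N)) • cM (rw' u : MM K N) := by
  induction u using FreeMonoid.inductionOn' with
  | one => rw [rw'_one, sM_one, cM_one]; simp
  | of_mul i u ih =>
    rw [rw'_cons, sM_mul, cM_mul, ih, sM_Rm, Matrix.smul_mul, Matrix.mul_smul, smul_smul]
    congr 1

/-- part of `a'`-degree `j` -/
noncomputable def kp (j : ℕ) (M : MM K N) : MM K N := fun p q => (sM M p q).coeff j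

lemma kp_add (j : ℕ) (M M' : MM K N) : kp j (M + M') = kp j M + kp j M' := by
  refine Matrix.ext fun p q => ?_
  rw [Matrix.add_apply, kp, kp, kp, sM_add, Matrix.add_apply, Polynomial.coeff_add]

lemma kp_smul (j : ℕ) (c : K) (M : MM K N) : kp j (c • M) = c • kp j M := by
  refine Matrix.ext fun p q => ?_
  rw [Matrix.smul_apply, kp, kp, sM_apply, sM_apply, Matrix.smul_apply, map_smul,
    Polynomial.coeff_smul]

lemma kp_zero (j : ℕ) : kp j (0 : MM K N) = 0 := by
  have := kp_smul j (0 : K) (0 : MM K N)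
  rwa [smul_zero, zero_smul] at this

lemma kp_word (j : ℕ) (u v : Wd 3) : kp j (lw u * rw' v : MM K N) =
    if v.toList.length = j then lw u * rw' v else 0 := by
  refine Matrix.ext fun p q => ?_
  rw [kp, sM_mul, sM_lw, sM_rw, Matrix.mul_smul, ← cM_mul, Matrix.smul_apply, cM_apply,
    smul_eq_mul, Polynomial.coeff_X_pow_mul', Polynomial.coeff_C]
  by_cases h : v.toList.length = j
  · rw [if_pos h, if_pos h.le, if_pos (by omega)]
  · rw [if_neg h]
    split_ifs with h1 h2
    · exact absurd (by omega) h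
    · rfl
    · rfl

lemma rho_eq (T : A2 K 3) : rho N T = T.coeff.sum (fun p c => c • (lw p.1 * rw' p.2.unop)) := rfl

/-- part of right length `j` -/
noncomputable def rl (j : ℕ) (T : A2 K 3) : A2 K 3 :=
  MonoidAlgebra.ofCoeff (T.coeff.filter (fun p => p.2.unop.toList.length = j))

lemma kp_sum {ι : Type*} (j : ℕ) (s : Finset ι) (f : ι → MM K N) :
    kp j (∑ i ∈ s, f i) = ∑ i ∈ s, kp j (f i) := by
  classical
  induction s using Finset.induction_on with
  | empty => simp [kp_zero]
  | insert a s ha ih => rw [Finset.sum_insert ha, Finset.sum_insert ha, kp_add, ih]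

lemma kp_rho (j : ℕ) (T : A2 K 3) : kp j (rho N T) = rho N (rl j T) := by
  rw [rho_eq, rho_eq, rl, MonoidAlgebra.coeff_ofCoeff, Finsupp.sum, kp_sum,
    Finsupp.sum_filter_index, Finsupp.support_filter, Finset.sum_filter]
  refine Finset.sum_congr rfl fun p _ => ?_
  rw [kp_smul, kp_word]
  split_ifs
  · rfl
  · rw [smul_zero]

/-! ### reduction modulo `s ^ n` -/

lemma coeff_det_smul (r : RR K N) (M : MM K N) (j : ℕ) (p q : Ix N) :
    ((Polynomial.C r • sM M) p q).coeff j = (r • kp j M) p q := by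
  rw [Matrix.smul_apply, Matrix.smul_apply, smul_eq_mul, smul_eq_mul, Polynomial.coeff_C_mul]
  rfl

lemma coeff_c_mul (M M' : MM K N) (j : ℕ) (p q : Ix N) :
    ((cM M * sM M') p q).coeff j = (M * kp j M') p q := by
  rw [Matrix.mul_apply, Matrix.mul_apply, Polynomial.finsetSum_coeff]
  refine Finset.sum_congr rfl fun k _ => ?_
  rw [cM_apply, Polynomial.coeff_C_mul]
  rfl

/-- the identity after a ring homomorphism killing `s ^ n` -/
lemma extract_aux {Q : Type*} [CommRing Q] (π : Polynomial (RR K N) →+* Q)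
    (SQ SP LQ LP RQ RP D D' : MM K N) (n : ℕ) (hX : π (Polynomial.X ^ n) = 0)
    (hQ : sM SQ = cM LQ - (Polynomial.X ^ n : Polynomial (RR K N)) • cM RQ)
    (hP : sM SP = cM LP - (Polynomial.X ^ n : Polynomial (RR K N)) • cM RP)
    (h : SQ.det • D = SP * SQ.adjugate * D') :
    π.mapMatrix (Polynomial.C LQ.det • sM D) = π.mapMatrix (cM (LP * LQ.adjugate) * sM D') := by
  have hred : ∀ S L R : MM K N,
      sM S = cM L - (Polynomial.X ^ n : Polynomial (RR K N)) • cM R →
      π.mapMatrix (sM S) = π.mapMatrix (cM L) := by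
    intro S L R hS
    rw [hS, map_sub]
    have : π.mapMatrix ((Polynomial.X ^ n : Polynomial (RR K N)) • cM R) = 0 := by
      refine Matrix.ext fun p q => ?_
      have h0 : π ((Polynomial.X ^ n : Polynomial (RR K N)) * cM R p q) = 0 := by
        rw [map_mul, hX]
        exact zero_mul _
      exact h0
    rw [this, sub_zero]
  have h1 : (sg' K N SQ.det) • sM D = sM SP * sM SQ.adjugate * sM D' := by
    have := congrArg sM h
    rw [sM_mul, sM_mul] at this
    rw [← this]
    refine Matrix.ext fun p q => ?_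
    rw [Matrix.smul_apply, sM_apply, sM_apply, Matrix.smul_apply, smul_eq_mul, smul_eq_mul, map_mul]
  have h2 : sg' K N SQ.det = (sM SQ).det := RingHom.map_det (sg' K N).toRingHom SQ
  have h3 : sM SQ.adjugate = (sM SQ).adjugate := RingHom.map_adjugate (sg' K N).toRingHom SQ
  have h4 : (cM LQ).det = Polynomial.C LQ.det := (RingHom.map_det Polynomial.C LQ).symm
  have h5 : (cM LQ).adjugate = cM LQ.adjugate := (RingHom.map_adjugate Polynomial.C LQ).symm
  rw [h2, h3] at h1
  have hdet : π (sM SQ).det = π (Polynomial.C LQ.det) := by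
    have e := RingHom.map_det π (sM SQ)
    rw [hred SQ LQ RQ hQ] at e
    rw [e, ← h4]
    exact (RingHom.map_det π (cM LQ)).symm
  have hadj : π.mapMatrix (sM SQ).adjugate = π.mapMatrix (cM LQ.adjugate) := by
    have e := RingHom.map_adjugate π (sM SQ)
    rw [hred SQ LQ RQ hQ] at e
    rw [e, ← h5]
    exact (RingHom.map_adjugate π (cM LQ)).symm
  have e1 : π.mapMatrix ((sM SQ).det • sM D) = π.mapMatrix (Polynomial.C LQ.det • sM D) := by
    refine Matrix.ext fun p q => ?_
    have h0 : π ((sM SQ).det * sM D p q) = π (Polynomial.C LQ.det * sM D p q) := by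
      rw [map_mul, map_mul, hdet]
    exact h0
  have e2 : π.mapMatrix (sM SP * (sM SQ).adjugate * sM D') =
      π.mapMatrix (cM (LP * LQ.adjugate) * sM D') := by
    rw [map_mul, map_mul, hadj, hred SP LP RP hP, cM_mul, map_mul, map_mul]
  rw [← e1, ← e2, h1]

/-- the key extraction -/
lemma extract (SQ SP LQ LP RQ RP D D' : MM K N) (n : ℕ) (hn : 0 < n)
    (hQ : sM SQ = cM LQ - (Polynomial.X ^ n : Polynomial (RR K N)) • cM RQ)
    (hP : sM SP = cM LP - (Polynomial.X ^ n : Polynomial (RR K N)) • cM RP)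
    (h : SQ.det • D = SP * SQ.adjugate * D') :
    LQ.det • kp (n - 1) D = LP * LQ.adjugate * kp (n - 1) D' := by
  obtain ⟨Q, _, π, hX, hmem⟩ : ∃ (Q : Type _) (_ : CommRing Q) (π : Polynomial (RR K N) →+* Q),
      π (Polynomial.X ^ n) = 0 ∧
      ∀ x, π x = 0 → x ∈ Ideal.span {(Polynomial.X ^ n : Polynomial (RR K N))} :=
    ⟨Polynomial (RR K N) ⧸ Ideal.span {(Polynomial.X ^ n : Polynomial (RR K N))}, inferInstance,
      Ideal.Quotient.mk _, Ideal.Quotient.eq_zero_iff_mem.mpr (Ideal.subset_span rfl),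
      fun x hx => Ideal.Quotient.eq_zero_iff_mem.mp hx⟩
  have h6 := extract_aux π SQ SP LQ LP RQ RP D D' n hX hQ hP h
  refine Matrix.ext fun p q => ?_
  have h7 : (Polynomial.C LQ.det • sM D) p q - (cM (LP * LQ.adjugate) * sM D') p q ∈
      Ideal.span {(Polynomial.X ^ n : Polynomial (RR K N))} := by
    apply hmem
    rw [map_sub, sub_eq_zero]
    exact congrFun (congrFun h6 p) q
  rw [Ideal.mem_span_singleton, Polynomial.X_pow_dvd_iff] at h7
  have h8 := h7 (n - 1) (by omega)
  rw [Polynomial.coeff_sub, sub_eq_zero, coeff_det_smul, coeff_c_mul] at h8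
  exact h8

/-! ### homogeneous elements -/

lemma sM_smul (c : K) (M : MM K N) : sM (c • M) = c • sM M := by
  refine Matrix.ext fun p q => ?_
  rw [Matrix.smul_apply, sM_apply, sM_apply, Matrix.smul_apply, map_smul]

lemma cM_smul (c : K) (M : MM K N) : cM (c • M) = c • cM M := by
  refine Matrix.ext fun p q => ?_
  rw [Matrix.smul_apply, cM_apply, cM_apply, Matrix.smul_apply, Polynomial.smul_C]

lemma sM_sum {ι : Type*} (s : Finset ι) (f : ι → MM K N) :
    sM (∑ i ∈ s, f i) = ∑ i ∈ s, sM (f i) := map_sum _ _ _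

lemma cM_sum {ι : Type*} (s : Finset ι) (f : ι → MM K N) :
    cM (∑ i ∈ s, f i) = ∑ i ∈ s, cM (f i) := map_sum _ _ _

lemma sM_rho (T : A2 K 3) (j : ℕ) (h : ∀ p ∈ T.coeff.support, p.2.unop.toList.length = j) :
    sM (rho N T) = (Polynomial.X ^ j : Polynomial (RR K N)) • cM (rho N T) := by
  rw [rho_eq, Finsupp.sum, sM_sum, cM_sum, Finset.smul_sum]
  refine Finset.sum_congr rfl fun p hp => ?_
  rw [sM_smul, cM_smul, sM_mul, sM_lw, sM_rw, h p hp, cM_mul, Matrix.mul_smul,
    smul_comm]

omit [NeZero N] in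
lemma one_coeff_ne (x : Wd 3) (hx : (1 : A K 3).coeff x ≠ 0) : x = 1 := by
  classical
  rw [MonoidAlgebra.one_def, MonoidAlgebra.coeff_single, Finsupp.single_apply] at hx
  by_contra h
  rw [if_neg (fun h' => h h'.symm)] at hx
  exact hx rfl

lemma sM_S (hr : RhoFacts K w N) (hb : DegbFacts K w) (P : A K 3) (n : ℕ)
    (hP : ∀ u ∈ P.coeff.support, u.toList.length = n) :
    sM (SS N P) = cM (rho N (inl P)) -
      (Polynomial.X ^ n : Polynomial (RR K N)) • cM (rho N (inr P)) := by
  rw [SS, dl, rho_sub hr, sM_sub]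
  congr 1
  · rw [sM_rho (inl P) 0, pow_zero, one_smul]
    rintro ⟨u, v'⟩ hp
    obtain ⟨v, rfl⟩ : ∃ v, v' = op v := ⟨v'.unop, rfl⟩
    rw [inl_eq_tn hb, Finsupp.mem_support_iff, hb.cf] at hp
    rw [one_coeff_ne v (right_ne_zero_of_mul hp)]
    simp
  · rw [sM_rho (inr P) n]
    rintro ⟨u, v'⟩ hp
    obtain ⟨v, rfl⟩ : ∃ v, v' = op v := ⟨v'.unop, rfl⟩
    rw [inr_eq_tn, Finsupp.mem_support_iff, hb.cf] at hp
    exact hP v (Finsupp.mem_support_iff.mpr (right_ne_zero_of_mul hp))

/-- `P = ∑ x_i (lf i P)` -/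
noncomputable def lf (i : Fin 3) (P : A K 3) : A K 3 :=
  MonoidAlgebra.ofCoeff (P.coeff.comapDomain (fun b => FreeMonoid.of i * b)
    (fun _ _ _ _ h => mul_left_cancel h))

omit [NeZero N] in
lemma lf_coeff (i : Fin 3) (P : A K 3) (b : Wd 3) :
    (lf i P).coeff b = P.coeff (FreeMonoid.of i * b) := by
  rw [lf, MonoidAlgebra.coeff_ofCoeff, Finsupp.comapDomain_apply]

omit [NeZero N] in
lemma rl_dX (hb : DegbFacts K w) (hc : ChainFacts K 3) (P : A K 3) (n : ℕ) (hn : 0 < n)
    (hP : ∀ u ∈ P.coeff.support, u.toList.length = n) (i : Fin 3) :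
    rl (n - 1) (dX i P) = inr (lf i P) := by
  classical
  have hP' : ∀ u : Wd 3, u.toList.length ≠ n → P.coeff u = 0 := by
    intro u hu
    by_contra h
    exact hu (hP u (Finsupp.mem_support_iff.mpr h))
  rw [← MonoidAlgebra.coeff_inj]
  refine Finsupp.ext fun p => ?_
  obtain ⟨u, v'⟩ := p
  obtain ⟨v, rfl⟩ : ∃ v, v' = op v := ⟨v'.unop, rfl⟩
  rw [rl, MonoidAlgebra.coeff_ofCoeff, Finsupp.filter_apply, hc.cf, inr_eq_tn, hb.cf, lf_coeff,
    unop_op]
  by_cases hu : u = 1
  · subst hu
    rw [MonoidAlgebra.coeff_one_one, one_mul, one_mul]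
    split_ifs with h
    · rfl
    · rw [hP']
      simp only [FreeMonoid.toList_mul, FreeMonoid.toList_of, List.length_append,
        List.length_singleton]
      omega
  · have h1 : (1 : A K 3).coeff u = 0 := by
      by_contra h
      exact hu (one_coeff_ne u h)
    rw [h1, zero_mul]
    split_ifs with h
    · apply hP'
      have h2 : u.toList.length ≠ 0 := by
        intro h3
        exact hu (FreeMonoid.toList.injective (List.length_eq_zero_iff.mp h3))
      simp only [FreeMonoid.toList_mul, FreeMonoid.toList_of, List.length_append,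
        List.length_singleton]
      omega
    · rfl

/-- the comparison of the parts of right length `n - 1` -/
lemma tn_eq (hr : RhoFacts K w N) (hn : NormStatement K w) (hb : DegbFacts K w)
    (hc : ChainFacts K 3) (P Q : A K 3) (n : ℕ) (hn0 : 0 < n) (hnN : n ≤ N)
    (hP : ∀ u ∈ P.coeff.support, u.toList.length = n)
    (hQ : ∀ u ∈ Q.coeff.support, u.toList.length = n) (hQ0 : Q ≠ 0) (i : Fin 3)
    (h : bet N P Q i = 0) : tn Q (lf i P) = tn P (lf i Q) := by
  have h1 : (SS N Q).det • rho N (dX i P) = SS N P * (SS N Q).adjugate * rho N (dX i Q) := by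
    rw [bet, sub_eq_zero] at h
    exact h
  have h2 := extract (SS N Q) (SS N P) (rho N (inl Q)) (rho N (inl P)) (rho N (inr Q))
    (rho N (inr P)) _ _ n hn0 (sM_S hr hb Q n hQ) (sM_S hr hb P n hP) h1
  rw [kp_rho, kp_rho, rl_dX hb hc P n hn0 hP, rl_dX hb hc Q n hn0 hQ] at h2
  have hlenl : ∀ F : A K 3, (∀ u ∈ F.coeff.support, u.toList.length = n) → Len2 N (inl F) := by
    rintro F hF ⟨u, v'⟩ hp
    obtain ⟨v, rfl⟩ : ∃ v, v' = op v := ⟨v'.unop, rfl⟩
    rw [inl_eq_tn hb, Finsupp.mem_support_iff, hb.cf] at hp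
    rw [one_coeff_ne v (right_ne_zero_of_mul hp)]
    refine ⟨(hF u (Finsupp.mem_support_iff.mpr (left_ne_zero_of_mul hp))).trans_le hnN, ?_⟩
    simp
  have hinj : ∀ M : MM K N, rho N (inl Q) * M = 0 → M = 0 := by
    intro M hM
    by_contra hM0
    exact (hn N (inl Q) M (fun h0 => hQ0 (hb.inlinj Q h0)) hM0 (hlenl Q hQ)).1 hM
  have hdet : (rho N (inl Q)).det ≠ 0 := by
    intro h0
    obtain ⟨v, hv, hv0⟩ := Matrix.exists_mulVec_eq_zero_iff.mpr h0
    apply hv
    have hM := hinj (Matrix.of fun i (_ : Ix N) => v i : MM K N) (by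
      refine Matrix.ext fun i j => ?_
      have := congrFun hv0 i
      simpa [Matrix.mul_apply, Matrix.mulVec, dotProduct] using this)
    funext i
    have := congrFun (congrFun hM i) (0, 0)
    simpa using this
  have hcomm : ∀ F G : A K 3, rho N (inr F) * rho N (inl G) = rho N (inl G) * rho N (inr F) := by
    intro F G
    rw [← hr.mul, ← hr.mul, hb.comm]
  have h3 : (rho N (inl Q)).det • (rho N (inr (lf i P)) * rho N (inl Q)) =
      (rho N (inl Q)).det • (rho N (inl P) * rho N (inr (lf i Q))) := by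
    rw [← Matrix.smul_mul, h2, Matrix.mul_assoc _ (rho N (inr (lf i Q))), hcomm,
      Matrix.mul_assoc (rho N (inl P)), ← Matrix.mul_assoc _ (rho N (inl Q)),
      Matrix.adjugate_mul, Matrix.smul_mul, Matrix.one_mul, Matrix.mul_smul]
  have h4 : rho N (inr (lf i P)) * rho N (inl Q) - rho N (inl P) * rho N (inr (lf i Q)) = 0 := by
    by_contra h0
    apply smul_ne hdet h0
    rw [smul_sub, h3, sub_self]
  rw [hcomm, ← hr.mul, ← hr.mul, ← rho_sub hr] at h4
  by_contra h5
  have h6 : Len2 N (tn Q (lf i P) - tn P (lf i Q)) := by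
    rintro ⟨u, v'⟩ hp
    obtain ⟨v, rfl⟩ : ∃ v, v' = op v := ⟨v'.unop, rfl⟩
    rw [Finsupp.mem_support_iff, MonoidAlgebra.coeff_sub, Finsupp.sub_apply, hb.cf, hb.cf,
      lf_coeff, lf_coeff] at hp
    have key : ∀ F G : A K 3, (∀ u ∈ F.coeff.support, u.toList.length = n) →
        (∀ u ∈ G.coeff.support, u.toList.length = n) →
        F.coeff u * G.coeff (FreeMonoid.of i * v) ≠ 0 →
        u.toList.length ≤ N ∧ v.toList.length ≤ N := by
      intro F G hF hG hFG
      have h7 := hF u (Finsupp.mem_support_iff.mpr (left_ne_zero_of_mul hFG))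
      have h8 := hG _ (Finsupp.mem_support_iff.mpr (right_ne_zero_of_mul hFG))
      simp only [FreeMonoid.toList_mul, FreeMonoid.toList_of, List.length_append,
        List.length_singleton] at h8
      omega
    by_cases h9 : Q.coeff u * P.coeff (FreeMonoid.of i * v) = 0
    · rw [h9, zero_sub, neg_ne_zero] at hp
      exact key P Q hP hQ hp
    · exact key Q P hQ hP h9
  have h7 := (hn N (tn Q (lf i P) - tn P (lf i Q)) 1 (sub_ne_zero.mpr h5) one_ne_zero h6).1
  rw [mul_one] at h7
  exact h7 h4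

end

/-! ### leading words -/

section

variable {K : Type*} [Field K]

/-- the number with the digits of a word -/
def vl (u : Wd 3) : ℕ := Nat.ofDigits 3 (u.toList.map Fin.val)

lemma vl_mul (u v : Wd 3) : vl (u * v) = vl u + 3 ^ u.toList.length * vl v := by
  rw [vl, FreeMonoid.toList_mul, List.map_append, Nat.ofDigits_append, List.length_map]
  rfl

lemma vl_inj (u v : Wd 3) (h : u.toList.length = v.toList.length) (h' : vl u = vl v) : u = v := by
  have h1 := Nat.ofDigits_inj_of_len_eq (b := 3) (by norm_num)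
    (L1 := u.toList.map Fin.val) (L2 := v.toList.map Fin.val)
    (by rw [List.length_map, List.length_map, h])
    (by
      intro l hl
      obtain ⟨i, _, rfl⟩ := List.mem_map.mp hl
      exact i.isLt)
    (by
      intro l hl
      obtain ⟨i, _, rfl⟩ := List.mem_map.mp hl
      exact i.isLt) h'
  exact FreeMonoid.toList.injective (List.map_injective_iff.mpr Fin.val_injective h1)

lemma coeff_mul_len (u v : A K 3) (l m : ℕ) (hu : ∀ a ∈ u.coeff.support, a.toList.length = l)
    (_hv : ∀ a ∈ v.coeff.support, a.toList.length = m) (a b : Wd 3) (ha : a.toList.length = l) :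
    (u * v).coeff (a * b) = u.coeff a * v.coeff b := by
  apply MonoidAlgebra.coeff_mul_mul_of_uniqueMul
  intro a' b' ha' hb' h
  have h1 : a'.toList ++ b'.toList = a.toList ++ b.toList := by
    rw [← FreeMonoid.toList_mul, ← FreeMonoid.toList_mul, h]
  have h2 := List.append_inj h1 (by rw [hu a' ha', ha])
  exact ⟨FreeMonoid.toList.injective h2.1, FreeMonoid.toList.injective h2.2⟩

lemma exists_max (u : A K 3) (hu : u ≠ 0) :
    ∃ a ∈ u.coeff.support, ∀ a' ∈ u.coeff.support, vl a' ≤ vl a := by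
  have hne : u.coeff.support.Nonempty := by
    rw [Finsupp.support_nonempty_iff]
    intro h
    exact hu (MonoidAlgebra.coeff_eq_zero.mp h)
  obtain ⟨a, ha, h⟩ := Finset.exists_max_image u.coeff.support vl hne
  exact ⟨a, ha, h⟩

lemma mem_mul (u v : A K 3) (x : Wd 3) (hx : x ∈ (u * v).coeff.support) :
    ∃ a ∈ u.coeff.support, ∃ b ∈ v.coeff.support, a * b = x := by
  classical
  exact Finset.mem_mul.mp (MonoidAlgebra.support_coeff_mul_subset u v hx)

lemma eq_one_of_smul (u v : A K 3) (l m : ℕ) (hu : ∀ a ∈ u.coeff.support, a.toList.length = l)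
    (hv : ∀ a ∈ v.coeff.support, a.toList.length = m) (hu0 : u ≠ 0) (hv0 : v ≠ 0) (c : K)
    (h : v * u = c • (u * v)) : v * u = u * v := by
  obtain ⟨a, ha, ham⟩ := exists_max u hu0
  obtain ⟨b, hb, hbm⟩ := exists_max v hv0
  have ha' := Finsupp.mem_support_iff.mp ha
  have hb' := Finsupp.mem_support_iff.mp hb
  have h1 : (u * v).coeff (a * b) = u.coeff a * v.coeff b :=
    coeff_mul_len u v l m hu hv a b (hu a ha)
  have h2 : (v * u).coeff (b * a) = v.coeff b * u.coeff a :=
    coeff_mul_len v u m l hv hu b a (hv b hb)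
  have h3 : ∀ x, (v * u).coeff x = c * (u * v).coeff x := by
    intro x
    rw [h, MonoidAlgebra.coeff_smul_apply, smul_eq_mul]
  have hc : c ≠ 0 := by
    intro hc
    rw [hc] at h3
    rw [h3, zero_mul] at h2
    exact mul_ne_zero hb' ha' h2.symm
  have h4 : a * b ∈ (v * u).coeff.support := by
    rw [Finsupp.mem_support_iff, h3, h1]
    exact mul_ne_zero hc (mul_ne_zero ha' hb')
  have h5 : b * a ∈ (u * v).coeff.support := by
    rw [Finsupp.mem_support_iff]
    intro h0
    rw [h3, h0, mul_zero] at h2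
    exact mul_ne_zero hb' ha' h2.symm
  have h6 : vl (a * b) ≤ vl (b * a) := by
    obtain ⟨b1, hb1, a1, ha1, he⟩ := mem_mul v u _ h4
    rw [← he, vl_mul, vl_mul, hv b1 hb1, hv b hb]
    exact Nat.add_le_add (hbm b1 hb1) (Nat.mul_le_mul_left _ (ham a1 ha1))
  have h7 : vl (b * a) ≤ vl (a * b) := by
    obtain ⟨a1, ha1, b1, hb1, he⟩ := mem_mul u v _ h5
    rw [← he, vl_mul, vl_mul, hu a1 ha1, hu a ha]
    exact Nat.add_le_add (ham a1 ha1) (Nat.mul_le_mul_left _ (hbm b1 hb1))
  have h8 : a * b = b * a := by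
    apply vl_inj _ _ _ (le_antisymm h6 h7)
    rw [FreeMonoid.toList_mul, FreeMonoid.toList_mul, List.length_append, List.length_append]
    omega
  have h9 : c = 1 := by
    have h10 := h3 (b * a)
    rw [h2, ← h8, h1] at h10
    have h11 : (c - 1) * (u.coeff a * v.coeff b) = 0 := by
      rw [sub_mul, one_mul, ← h10]
      ring
    rcases mul_eq_zero.mp h11 with h12 | h12
    · exact sub_eq_zero.mp h12
    · exact absurd h12 (mul_ne_zero ha' hb')
  rw [h, h9, one_smul]

theorem spec (K : Type*) [Field K] (w : Fin 3 → ℝ) (_hw : Gen w)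
    (hbt : ∀ (N : ℕ) [NeZero N], BetaFacts K w N)
    (hr : ∀ (N : ℕ) [NeZero N], RhoFacts K w N) (hn : NormStatement K w)
    (hc : ChainFacts K 3) (hd : DegFacts K w)
    (hb : DegbFacts K w) (ht : TopFacts K w) : SpecStatement K w := by
  intro N _ u v hu hv hu0 hv0 hlen hbet
  have hune : u ≠ 0 := by
    rintro rfl
    rw [hd.zero] at hu0
    exact lt_irrefl _ hu0
  have hvne : v ≠ 0 := by
    rintro rfl
    rw [hd.zero] at hv0
    exact lt_irrefl _ hv0
  obtain ⟨l, hl⟩ := ht.len u hu
  obtain ⟨m, hm⟩ := ht.len v hv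
  have hl0 : 0 < l := by
    obtain ⟨a, ha, he⟩ := exists_dgr (wt w) u hune
    by_contra h
    have h1 := hl a ha
    have h2 : a = 1 := FreeMonoid.toList.injective (List.length_eq_zero_iff.mp (by omega))
    rw [dg, he, h2, wt_one] at hu0
    exact lt_irrefl _ hu0
  have hP : ∀ x ∈ (u * v).coeff.support, x.toList.length = l + m := by
    intro x hx
    obtain ⟨a, ha, b, hb', rfl⟩ := mem_mul u v x hx
    rw [FreeMonoid.toList_mul, List.length_append, hl a ha, hm b hb']
  have hQ : ∀ x ∈ (v * u).coeff.support, x.toList.length = l + m := by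
    intro x hx
    obtain ⟨a, ha, b, hb', rfl⟩ := mem_mul v u x hx
    rw [FreeMonoid.toList_mul, List.length_append, hl b hb', hm a ha, add_comm]
  have hPne : u * v ≠ 0 := fun h => by
    rcases hd.dom u v h with h | h
    · exact hune h
    · exact hvne h
  have hQne : v * u ≠ 0 := fun h => by
    rcases hd.dom v u h with h | h
    · exact hvne h
    · exact hune h
  obtain ⟨x, hx, -⟩ := exists_dgr (wt w) (u * v) hPne
  have hnN : l + m ≤ N := by
    rw [← hP x hx]
    exact hlen x hx
  have hlv : Len N v := fun b hb' => by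
    rw [hm b hb']
    omega
  have hlu : Len N u := fun b hb' => by
    rw [hl b hb']
    omega
  have hdv := (hbt N).det v hv0 hlv
  -- `b(u v, v) = 0`, `b(v u, v) = 0`
  have e0 : ∀ f g : A K 3, ev (xx 0 : A K 2) f g = f := by
    intro f g
    rw [ev, evl, xx, MonoidAlgebra.lift_single, one_smul, FreeMonoid.lift_eval_of]
    rfl
  have e1 : ∀ f g : A K 3, ev (xx 1 : A K 2) f g = g := by
    intro f g
    rw [ev, evl, xx, MonoidAlgebra.lift_single, one_smul, FreeMonoid.lift_eval_of]
    rfl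
  have hPv : ∀ i, bet N (u * v) v i = 0 := by
    intro i
    have h := (hbt N).ch u v (xx 0 * xx 1) i
    rw [hbet i, mul_zero] at h
    have e : ev (xx 0 * xx 1 : A K 2) u v = u * v := by
      have e2 : ev (xx 0 * xx 1 : A K 2) u v = ev (xx 0 : A K 2) u v * ev (xx 1 : A K 2) u v :=
        map_mul _ _ _
      rw [e2, e0, e1]
    rwa [e] at h
  have hQv : ∀ i, bet N (v * u) v i = 0 := by
    intro i
    have h := (hbt N).ch u v (xx 1 * xx 0) i
    rw [hbet i, mul_zero] at h
    have e : ev (xx 1 * xx 0 : A K 2) u v = v * u := by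
      have e2 : ev (xx 1 * xx 0 : A K 2) u v = ev (xx 1 : A K 2) u v * ev (xx 0 : A K 2) u v :=
        map_mul _ _ _
      rw [e2, e0, e1]
    rwa [e] at h
  have hvQ : ∀ i, bet N v (v * u) i = 0 := by
    intro i
    have h := (hbt N).sym (v * u) v i
    rw [hQv i, mul_zero] at h
    by_contra h4
    exact smul_ne hdv h4 (neg_eq_zero.mp h.symm)
  have hPQ : ∀ i, bet N (u * v) (v * u) i = 0 := by
    intro i
    have h := (hbt N).tri (u * v) v (v * u) i
    rw [hPv i, hvQ i, mul_zero, smul_zero, add_zero] at h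
    by_contra h4
    exact smul_ne hdv h4 h
  have htn := fun i => tn_eq (hr N) hn hb hc (u * v) (v * u) (l + m) (by omega) hnN hP hQ hQne i
    (hPQ i)
  -- a letter
  obtain ⟨i, b, hib⟩ : ∃ (i : Fin 3) (b : Wd 3), x = FreeMonoid.of i * b := by
    have hx1 := hP x hx
    cases hx2 : x.toList with
    | nil =>
      rw [hx2, List.length_nil] at hx1
      omega
    | cons i t =>
      refine ⟨i, FreeMonoid.ofList t, FreeMonoid.toList.injective ?_⟩
      rw [hx2]
      rfl
  have hne : (lf i (u * v)).coeff b ≠ 0 := by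
    rw [lf_coeff, ← hib]
    exact Finsupp.mem_support_iff.mp hx
  have hcoef : ∀ a, (v * u).coeff a * (lf i (u * v)).coeff b =
      (u * v).coeff a * (lf i (v * u)).coeff b := by
    intro a
    rw [← hb.cf, ← hb.cf, htn i]
  symm
  apply eq_one_of_smul u v l m hl hm hune hvne ((lf i (v * u)).coeff b / (lf i (u * v)).coeff b)
  rw [← MonoidAlgebra.coeff_inj]
  refine Finsupp.ext fun a => ?_
  rw [MonoidAlgebra.coeff_smul_apply, smul_eq_mul, div_mul_eq_mul_div, eq_div_iff hne, hcoef a,
    mul_comm]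

end

end Pool.Agent.Lib.MP_e1f7e2_al.FA.H12
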