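import Pool.Agent.Lib.MP_e1f7e2_al.FA.Iface
import Pool.Agent.Lib.MP_e1f7e2_al.FA.H12.Beta

set_option autoImplicit false

/-!
Project FA (MP_e1f7e2_al): module TOPB, the top part of `bet`.
-/

open MulOpposite

namespace Pool.Agent.Lib.MP_e1f7e2_al.FA.H12

section

variable {K : Type*} [Field K] {N : ℕ} {w : Fin 3 → ℝ}

lemma wR_add (w : Fin 3 → ℝ) (m m' : (Bool × Fin 3 × ZMod N) →₀ ℕ) :
    wR w (m + m') = wR w m + wR w m' := by
  rw [wR, Finsupp.sum_add_index']
  · rfl
  · intro v
    simp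
  · intro v a b
    push_cast
    ring

lemma wR_zero (w : Fin 3 → ℝ) : wR w (0 : (Bool × Fin 3 × ZMod N) →₀ ℕ) = 0 := by
  simp [wR]

lemma wR_single (w : Fin 3 → ℝ) (v : Bool × Fin 3 × ZMod N) :
    wR w (Finsupp.single v 1) = w v.2.1 := by
  simp [wR]

/-! ### predicates on the monomials -/

/-- all monomials of `p` have weights satisfying `φ` -/
def Al (w : Fin 3 → ℝ) (φ : ℝ → Prop) (p : RR K N) : Prop := ∀ m ∈ p.support, φ (wR w m)

lemma Al.zero (φ : ℝ → Prop) : Al w φ (0 : RR K N) := by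
  intro m hm
  simp at hm

lemma Al.mono {φ ψ : ℝ → Prop} {p : RR K N} (h : Al w φ p) (hi : ∀ x, φ x → ψ x) : Al w ψ p :=
  fun m hm => hi _ (h m hm)

lemma Al.add {φ : ℝ → Prop} {p q : RR K N} (hp : Al w φ p) (hq : Al w φ q) :
    Al w φ (p + q) := by
  classical
  intro m hm
  rcases Finset.mem_union.mp (MvPolynomial.support_add hm) with h | h
  · exact hp m h
  · exact hq m h

lemma Al.neg {φ : ℝ → Prop} {p : RR K N} (hp : Al w φ p) : Al w φ (-p) := by
  intro m hm
  rw [MvPolynomial.support_neg] at hm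
  exact hp m hm

lemma Al.sub {φ : ℝ → Prop} {p q : RR K N} (hp : Al w φ p) (hq : Al w φ q) :
    Al w φ (p - q) := by
  rw [sub_eq_add_neg]
  exact hp.add hq.neg

lemma Al.smul {φ : ℝ → Prop} {p : RR K N} (c : K) (hp : Al w φ p) : Al w φ (c • p) := by
  intro m hm
  exact hp m (MvPolynomial.support_smul hm)

lemma Al.sum {φ : ℝ → Prop} {ι : Type*} (s : Finset ι) (f : ι → RR K N)
    (hf : ∀ i ∈ s, Al w φ (f i)) : Al w φ (∑ i ∈ s, f i) := by
  classical
  induction s using Finset.induction_on with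
  | empty => simpa using Al.zero φ
  | insert a s ha ih =>
    rw [Finset.sum_insert ha]
    exact (hf a (Finset.mem_insert_self a s)).add
      (ih fun i hi => hf i (Finset.mem_insert_of_mem hi))

lemma Al.mul {φ ψ χ : ℝ → Prop} {p q : RR K N} (hp : Al w φ p) (hq : Al w ψ q)
    (h : ∀ x y, φ x → ψ y → χ (x + y)) : Al w χ (p * q) := by
  classical
  intro m hm
  obtain ⟨a, ha, b, hb, rfl⟩ := Finset.mem_add.mp (MvPolynomial.support_mul p q hm)
  rw [wR_add]
  exact h _ _ (hp a ha) (hq b hb)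

/-! ### top parts -/

/-- `q` is the part of weight `r` of `p`, all monomials of `p` have weight at most `r` -/
structure Tp (w : Fin 3 → ℝ) (r : ℝ) (p q : RR K N) : Prop where
  le : Al w (fun x => x ≤ r) p
  eq : Al w (fun x => x = r) q
  lt : Al w (fun x => x < r) (p - q)

lemma Tp.zero (r : ℝ) : Tp w r (0 : RR K N) 0 :=
  ⟨Al.zero _, Al.zero _, by rw [sub_zero]; exact Al.zero _⟩

lemma Tp.one : Tp w 0 (1 : RR K N) 1 := by
  have h : Al w (fun x => x = 0) (1 : RR K N) := by
    intro m hm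
    rw [MvPolynomial.support_one] at hm
    rw [Finset.mem_singleton.mp hm, wR_zero]
  exact ⟨h.mono fun x hx => le_of_eq hx, h, by rw [sub_self]; exact Al.zero _⟩

lemma Tp.add {r : ℝ} {p q p' q' : RR K N} (h : Tp w r p q) (h' : Tp w r p' q') :
    Tp w r (p + p') (q + q') :=
  ⟨h.le.add h'.le, h.eq.add h'.eq, by
    rw [add_sub_add_comm]; exact h.lt.add h'.lt⟩

lemma Tp.neg {r : ℝ} {p q : RR K N} (h : Tp w r p q) : Tp w r (-p) (-q) :=
  ⟨h.le.neg, h.eq.neg, by rw [neg_sub_neg, ← neg_sub]; exact h.lt.neg⟩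

lemma Tp.sub {r : ℝ} {p q p' q' : RR K N} (h : Tp w r p q) (h' : Tp w r p' q') :
    Tp w r (p - p') (q - q') := by
  rw [sub_eq_add_neg, sub_eq_add_neg q]
  exact h.add h'.neg

lemma Tp.mul {r s t : ℝ} {p q p' q' : RR K N} (h : Tp w r p q) (h' : Tp w s p' q')
    (ht : t = r + s) : Tp w t (p * p') (q * q') := by
  subst ht
  refine ⟨h.le.mul h'.le fun x y hx hy => add_le_add hx hy,
    h.eq.mul h'.eq fun x y hx hy => by rw [hx, hy], ?_⟩
  have e : p * p' - q * q' = (p - q) * p' + q * (p' - q') := by ring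
  rw [e]
  have h1 : Al w (fun x => x < r + s) ((p - q) * p') :=
    h.lt.mul h'.le fun x y hx hy => add_lt_add_of_lt_of_le hx hy
  have h2 : Al w (fun x => x < r + s) (q * (p' - q')) :=
    h.eq.mul h'.lt fun x y hx hy => by rw [hx]; linarith
  exact h1.add h2

lemma Tp.sum {r : ℝ} {ι : Type*} (s : Finset ι) (f g : ι → RR K N)
    (h : ∀ i ∈ s, Tp w r (f i) (g i)) : Tp w r (∑ i ∈ s, f i) (∑ i ∈ s, g i) := by
  classical
  induction s using Finset.induction_on with
  | empty => simpa using Tp.zero r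
  | insert a s ha ih =>
    rw [Finset.sum_insert ha, Finset.sum_insert ha]
    exact (h a (Finset.mem_insert_self a s)).add
      (ih fun i hi => h i (Finset.mem_insert_of_mem hi))

lemma Tp.prod {ι : Type*} (s : Finset ι) (r : ι → ℝ) (f g : ι → RR K N)
    (h : ∀ i ∈ s, Tp w (r i) (f i) (g i)) :
    Tp w (∑ i ∈ s, r i) (∏ i ∈ s, f i) (∏ i ∈ s, g i) := by
  classical
  induction s using Finset.induction_on with
  | empty => simpa using Tp.one
  | insert a s ha ih =>
    rw [Finset.prod_insert ha, Finset.prod_insert ha]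
    exact (h a (Finset.mem_insert_self a s)).mul
      (ih fun i hi => h i (Finset.mem_insert_of_mem hi)) (Finset.sum_insert ha)

lemma Tp.units {r : ℝ} {p q : RR K N} (u : ℤˣ) (h : Tp w r p q) : Tp w r (u • p) (u • q) := by
  rcases Int.units_eq_one_or u with rfl | rfl
  · simpa using h
  · simpa using h.neg

lemma Tp.sup {r : ℝ} {p q : RR K N} (h : Tp w r p q) {m : (Bool × Fin 3 × ZMod N) →₀ ℕ}
    (hm : m ∈ q.support) : m ∈ p.support := by
  have h1 := h.eq m hm
  have h2 : m ∉ (p - q).support := by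
    intro h3
    have := h.lt m h3
    linarith
  rw [MvPolynomial.notMem_support_iff, MvPolynomial.coeff_sub, sub_eq_zero] at h2
  rw [MvPolynomial.mem_support_iff] at hm ⊢
  rwa [h2]

/-- matrices -/
def TM {ι κ : Type*} (w : Fin 3 → ℝ) (r : ℝ) (M M' : Matrix ι κ (RR K N)) : Prop :=
  ∀ i j, Tp w r (M i j) (M' i j)

lemma TM.mul {ι : Type*} [Fintype ι] {r s t : ℝ} {M M' P P' : Matrix ι ι (RR K N)}
    (h : TM w r M M') (h' : TM w s P P') (ht : t = r + s) : TM w t (M * P) (M' * P') := by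
  intro i j
  rw [Matrix.mul_apply, Matrix.mul_apply]
  exact Tp.sum _ _ _ fun k _ => (h i k).mul (h' k j) ht

lemma TM.smul {ι : Type*} {r s t : ℝ} {p q : RR K N} {M M' : Matrix ι ι (RR K N)}
    (h : Tp w r p q) (h' : TM w s M M') (ht : t = r + s) : TM w t (p • M) (q • M') := by
  intro i j
  rw [Matrix.smul_apply, Matrix.smul_apply, smul_eq_mul, smul_eq_mul]
  exact h.mul (h' i j) ht

lemma TM.sub {ι : Type*} {r : ℝ} {M M' P P' : Matrix ι ι (RR K N)} (h : TM w r M M')
    (h' : TM w r P P') : TM w r (M - P) (M' - P') := fun i j => (h i j).sub (h' i j)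

lemma TM.det {ι : Type*} [Fintype ι] [DecidableEq ι] {r t : ℝ} {M M' : Matrix ι ι (RR K N)}
    (h : TM w r M M') (ht : t = Fintype.card ι * r) : Tp w t M.det M'.det := by
  rw [Matrix.det_apply, Matrix.det_apply]
  refine Tp.sum _ _ _ fun σ _ => Tp.units _ ?_
  have h1 := Tp.prod (w := w) Finset.univ (fun _ : ι => r) (fun i => M (σ i) i)
    (fun i => M' (σ i) i) (fun i _ => h (σ i) i)
  rw [Finset.sum_const, Finset.card_univ, nsmul_eq_mul, ← ht] at h1
  exact h1

lemma TM.adj {ι : Type*} [Fintype ι] [DecidableEq ι] {r t : ℝ} {M M' : Matrix ι ι (RR K N)}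
    (h : TM w r M M') (ht : t + r = Fintype.card ι * r) : TM w t M.adjugate M'.adjugate := by
  intro i j
  rw [Matrix.adjugate_apply, Matrix.adjugate_apply, Matrix.det_apply, Matrix.det_apply]
  refine Tp.sum _ _ _ fun σ _ => Tp.units _ ?_
  have h1 := Tp.prod (w := w) Finset.univ (fun k : ι => if σ k = j then 0 else r)
    (fun k => (M.updateRow j (Pi.single i 1)) (σ k) k)
    (fun k => (M'.updateRow j (Pi.single i 1)) (σ k) k) (fun k _ => by
      by_cases hk : σ k = j
      · rw [if_pos hk, hk, Matrix.updateRow_self, Matrix.updateRow_self]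
        by_cases hki : k = i
        · subst hki
          rw [Pi.single_eq_same]
          exact Tp.one
        · rw [Pi.single_eq_of_ne hki]
          exact Tp.zero 0
      · rw [if_neg hk, Matrix.updateRow_ne hk, Matrix.updateRow_ne hk]
        exact h _ _)
  have h2 : ∑ k : ι, (if σ k = j then (0 : ℝ) else r) = t := by
    have h3 : ∑ k : ι, (if σ k = j then (0 : ℝ) else r) = ∑ k : ι, (r - if k = j then r else 0) := by
      rw [← Equiv.sum_comp σ (fun k => r - if k = j then r else 0)]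
      refine Finset.sum_congr rfl fun k _ => ?_
      split_ifs
      · rw [sub_self]
      · rw [sub_zero]
    rw [h3, Finset.sum_sub_distrib, Finset.sum_const, Finset.card_univ, nsmul_eq_mul, ← ht,
      Finset.sum_ite_eq' Finset.univ j (fun _ => r), if_pos (Finset.mem_univ j), add_sub_cancel_right]
  rwa [h2] at h1

end

section

variable {K : Type*} [Field K] {N : ℕ} [NeZero N] {w : Fin 3 → ℝ}

/-! ### weights of the entries of `rho` -/

/-- all entries homogeneous -/
def Hm (w : Fin 3 → ℝ) (r : ℝ) (M : MM K N) : Prop := ∀ i j, Al w (fun x => x = r) (M i j)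

lemma Hm.mul {r s : ℝ} {M M' : MM K N} (h : Hm w r M) (h' : Hm w s M') :
    Hm w (r + s) (M * M') := by
  intro i j
  rw [Matrix.mul_apply]
  exact Al.sum _ _ fun k _ => (h i k).mul (h' k j) fun x y hx hy => by rw [hx, hy]

omit [NeZero N] in
lemma Hm.one : Hm w 0 (1 : MM K N) := by
  intro i j
  rw [Matrix.one_apply]
  split_ifs
  · exact Tp.one.eq
  · exact Al.zero _

omit [NeZero N] in
lemma Al.X (v : Bool × Fin 3 × ZMod N) :
    Al w (fun x => x = w v.2.1) (MvPolynomial.X v : RR K N) := by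
  intro m hm
  rw [MvPolynomial.support_X] at hm
  rw [Finset.mem_singleton.mp hm, wR_single]

omit [NeZero N] in
lemma Hm.Lm (i : Fin 3) : Hm w (w i) (Lm i : MM K N) := by
  intro p q
  rw [FA.Lm]
  split_ifs
  · exact Al.X _
  · exact Al.zero _

omit [NeZero N] in
lemma Hm.Rm (i : Fin 3) : Hm w (w i) (Rm i : MM K N) := by
  intro p q
  rw [FA.Rm]
  split_ifs
  · exact Al.X _
  · exact Al.zero _

lemma Hm.left (u : Wd 3) :
    Hm w (wt w u) (evl (K := K) (FA.Lm (K := K) (N := N)) (MonoidAlgebra.single u 1)) := by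
  have e : evl (K := K) (FA.Lm (K := K) (N := N)) (MonoidAlgebra.single u 1) =
      FreeMonoid.lift (FA.Lm (K := K) (N := N)) u := by
    rw [evl, MonoidAlgebra.lift_single, one_smul]
  rw [e]
  induction u using FreeMonoid.inductionOn' with
  | one => rw [map_one, wt_one]; exact Hm.one
  | of_mul i u ih =>
    rw [map_mul, wt_mul, wt_of, FreeMonoid.lift_eval_of]
    exact (Hm.Lm i).mul (ih (by rw [evl, MonoidAlgebra.lift_single, one_smul]))

lemma Hm.right (u : Wd 3) :
    Hm w (wt w u) (evl (K := K) (fun i => op (FA.Rm (K := K) (N := N) i))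
      (MonoidAlgebra.single u 1)).unop := by
  have e : evl (K := K) (fun i => op (FA.Rm (K := K) (N := N) i)) (MonoidAlgebra.single u 1) =
      FreeMonoid.lift (fun i => op (FA.Rm (K := K) (N := N) i)) u := by
    rw [evl, MonoidAlgebra.lift_single, one_smul]
  rw [e]
  induction u using FreeMonoid.inductionOn' with
  | one => rw [map_one, wt_one]; exact Hm.one
  | of_mul i u ih =>
    rw [map_mul, wt_mul, wt_of, FreeMonoid.lift_eval_of, unop_mul, unop_op, add_comm]
    exact (ih (by rw [evl, MonoidAlgebra.lift_single, one_smul])).mul (Hm.Rm i)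

lemma rho_al (T : A2 K 3) (φ : ℝ → Prop) (h : ∀ p ∈ T.coeff.support, φ (wt2 w p)) (i j : Ix N) :
    Al w φ (rho N T i j) := by
  rw [rho, Finsupp.sum, Matrix.sum_apply]
  refine Al.sum _ _ fun p hp => ?_
  rw [Matrix.smul_apply]
  refine Al.smul _ ?_
  exact (((Hm.left p.1).mul (Hm.right p.2.unop)) i j).mono fun x hx => by
    rw [hx]
    exact h p hp

/-- `rho` of a pair -/
lemma rho_tp (hr : RhoFacts K w N) (r : ℝ) (T T' : A2 K 3)
    (h1 : ∀ p ∈ T.coeff.support, wt2 w p ≤ r)
    (h2 : ∀ p ∈ T'.coeff.support, wt2 w p = r)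
    (h3 : ∀ p ∈ (T - T').coeff.support, wt2 w p < r) : TM w r (rho N T) (rho N T') := by
  intro i j
  refine ⟨rho_al T _ h1 i j, rho_al T' _ h2 i j, ?_⟩
  have h := rho_al (w := w) (N := N) (T - T') (fun x => x < r) h3 i j
  rwa [rho_sub hr] at h

lemma top_supp {w : Fin 3 → ℝ} (f : A K 3) (u : Wd 3) :
    u ∈ (top w f).coeff.support ↔ u ∈ f.coeff.support ∧ wt w u = dg w f := by
  rw [top, cmp, MonoidAlgebra.coeff_ofCoeff, Finsupp.support_filter, Finset.mem_filter]

lemma S_tp (hr : RhoFacts K w N) (hb : DegbFacts K w) (ht : TopFacts K w) (f : A K 3)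
    (hf : 0 < dg w f) : TM w (dg w f) (SS N f) (SS N (top w f)) := by
  apply rho_tp hr
  · intro p hp
    rw [← hb.dl' f]
    exact le_dgr _ _ _ hp
  · intro p hp
    have h := ht.hom2 (dl f)
    rw [ht.dl' f hf] at h
    rw [h p hp, hb.dl', ht.dgt]
  · intro p hp
    have e : dl f - dl (top w f) = dl (f - top w f) := by
      have hs : inr (f - top w f) = inr f - inr (top w f) := by
        have := hb.inradd (f - top w f) (top w f)
        rw [sub_add_cancel] at this
        rw [this]
        abel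
      rw [dl, dl, dl, hs, map_sub]
      abel
    rw [e] at hp
    have h := le_dgr (wt2 w) _ _ hp
    have h' := hb.dl' (f - top w f)
    rw [dg2] at h'
    rw [h'] at h
    exact h.trans_lt (ht.sub f hf)

lemma D_tp (hr : RhoFacts K w N) (hc : ChainFacts K 3) (ht : TopFacts K w) (f : A K 3)
    (hf : 0 < dg w f) (i : Fin 3) :
    TM w (dg w f - w i) (rho N (dX i f)) (rho N (dX i (top w f))) := by
  apply rho_tp hr
  · intro p hp
    have := wt_dX_le (w := w) hc f i p hp
    linarith
  · rintro ⟨u, v'⟩ hp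
    obtain ⟨v, rfl⟩ : ∃ v, v' = op v := ⟨v'.unop, rfl⟩
    rw [Finsupp.mem_support_iff, hc.cf] at hp
    have h := ((top_supp f _).mp (Finsupp.mem_support_iff.mpr hp)).2
    rw [wt_mul, wt_mul, wt_of] at h
    simp only [wt2, unop_op]
    linarith
  · intro p hp
    have e : dX i f - dX i (top w f) = dX i (f - top w f) := by
      have := hc.add i (f - top w f) (top w f)
      rw [sub_add_cancel] at this
      rw [this]
      abel
    rw [e] at hp
    have h1 := wt_dX_le (w := w) hc (f - top w f) i p hp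
    have h2 := ht.sub f hf
    linarith

omit [NeZero N] in
lemma le_dR {r : RR K N} {m : (Bool × Fin 3 × ZMod N) →₀ ℕ} (hm : m ∈ r.support) :
    wR w m ≤ dR w r := by
  have hne : r.support.Nonempty := ⟨m, hm⟩
  rw [dR, dif_pos hne]
  exact Finset.le_sup' (wR w) hm

omit [NeZero N] in
lemma dR_le {r : RR K N} (hr : r ≠ 0) {x : ℝ} (h : Al w (fun y => y ≤ x) r) : dR w r ≤ x := by
  have hne : r.support.Nonempty := by
    rw [Finset.nonempty_iff_ne_empty]
    intro h0
    exact hr (MvPolynomial.support_eq_empty.mp h0)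
  rw [dR, dif_pos hne]
  exact Finset.sup'_le _ _ h

theorem topb (K : Type*) [Field K] (w : Fin 3 → ℝ) (_hw : Gen w)
    (hr : ∀ (N : ℕ) [NeZero N], RhoFacts K w N) (_hn : NormStatement K w)
    (hbt : ∀ (N : ℕ) [NeZero N], BetaFacts K w N) (hc : ChainFacts K 3) (_hd : DegFacts K w)
    (hb : DegbFacts K w) (ht : TopFacts K w) : TopbStatement K w := by
  intro N _ f g hf hg hlf hlg hi
  obtain ⟨i, hi⟩ := hi
  set C : ℝ := Fintype.card (Ix N) * dg w g with hC
  have hSf := S_tp (hr N) hb ht f hf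
  have hSg := S_tp (hr N) hb ht g hg
  have hDf := D_tp (hr N) hc ht f hf i
  have hDg := D_tp (hr N) hc ht g hg i
  have hdet : Tp w C (SS N g).det (SS N (top w g)).det := hSg.det hC
  have hadj : TM w (C - dg w g) (SS N g).adjugate (SS N (top w g)).adjugate :=
    hSg.adj (by rw [hC]; ring)
  have hbet : TM w (C + dg w f - w i) (bet N f g i) (bet N (top w f) (top w g) i) := by
    rw [bet, bet]
    refine TM.sub (TM.smul hdet hDf (by ring)) (TM.mul (TM.mul hSf hadj rfl) hDg (by ring))
  -- the determinant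
  have hdg0 : dg w (top w g) = dg w g := ht.dgt g
  have hlg' : Len N (top w g) := fun u hu => hlg u ((top_supp g u).mp hu).1
  have hd1 : (SS N (top w g)).det ≠ 0 := (hbt N).det _ (by rw [hdg0]; exact hg) hlg'
  have hd2 : (SS N g).det ≠ 0 := (hbt N).det g hg hlg
  have hdR : dR w (SS N g).det ≤ C := dR_le hd2 hdet.le
  -- the nonzero entry
  obtain ⟨a, b, hab⟩ : ∃ a b, bet N (top w f) (top w g) i a b ≠ 0 := by
    by_contra h0
    push Not at h0
    exact hi (Matrix.ext fun a b => h0 a b)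
  obtain ⟨m, hm⟩ : ∃ m, m ∈ (bet N (top w f) (top w g) i a b).support := by
    by_contra h0
    push Not at h0
    exact hab (MvPolynomial.support_eq_empty.mp (Finset.eq_empty_of_forall_notMem h0))
  have hm1 : wR w m = C + dg w f - w i := (hbet a b).eq m hm
  have hm2 := (hbet a b).sup hm
  have hne : bet N f g i ≠ 0 := by
    intro h0
    rw [h0] at hm2
    simp at hm2
  refine ⟨⟨i, hne⟩, le_antisymm ((hbt N).le f g hf hg hlf hlg) ?_⟩
  have h1 : C + dg w f - w i ≤ dM w (bet N f g i) := by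
    rw [← hm1]
    refine (le_dR hm2).trans ?_
    exact Finset.le_sup' (fun p : Ix N × Ix N => dR w (bet N f g i p.1 p.2))
      (Finset.mem_univ (a, b))
  have h2 := mx_ge (hr N) (bet N f g) i hne
  rw [Es_eq]
  linarith

end

end Pool.Agent.Lib.MP_e1f7e2_al.FA.H12
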